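import Pool.Agent.Mg.Ff9a021.Gb732ef
import Pool.Agent.MP_f9a021_co.Lower

section

/-! The upper bound. -/

open Finset Pointwise

namespace Pool.Agent.MP_f9a021_co

universe u

lemma zero_sum_free_card {α Q : Type*} [DecidableEq α] [AddCommGroup Q] [DecidableEq Q]
    (φ : α → Q) (U : Finset α) (hU : ∀ V ⊆ U, V.Nonempty → ∑ x ∈ V, φ x ≠ 0) :
    U.card + 1 ≤ (U.powerset.image (fun V => ∑ x ∈ V, φ x)).card := by
  induction U using Finset.induction_on with
  | empty => simp
  | insert a U ha ih =>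
    have h1 := ih (fun V hV => hU V (hV.trans (Finset.subset_insert _ _)))
    rw [Finset.card_insert_of_notMem ha]
    refine lt_of_le_of_lt h1 (Finset.card_lt_card ⟨Finset.image_subset_image
      (Finset.powerset_mono.2 (Finset.subset_insert _ _)), fun h => ?_⟩)
    obtain ⟨V, hV, hV'⟩ := Finset.mem_image.1
      (h (Finset.mem_image_of_mem _ (Finset.mem_powerset_self _)))
    have h2 : V ⊆ insert a U := (Finset.mem_powerset.1 hV).trans (Finset.subset_insert _ _)
    refine hU (insert a U \ V) Finset.sdiff_subset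
      ⟨a, Finset.mem_sdiff.2 ⟨Finset.mem_insert_self _ _, fun h3 =>
        ha (Finset.mem_powerset.1 hV h3)⟩⟩ ?_
    rw [Finset.sum_sdiff_eq_sub h2, hV', sub_self]

lemma davenport {α Q : Type*} [DecidableEq α] [AddCommGroup Q] [Fintype Q]
    (φ : α → Q) (T : Finset α) :
    ∃ U ⊆ T, U.card < Fintype.card Q ∧ ∑ x ∈ U, φ x = ∑ x ∈ T, φ x := by
  classical
  induction T using Finset.strongInduction with
  | H T ih =>
    by_cases h : ∀ V ⊆ T, V.Nonempty → ∑ x ∈ V, φ x ≠ 0
    · exact ⟨T, Finset.Subset.refl _,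
        (zero_sum_free_card φ T h).trans (Finset.card_le_univ _), rfl⟩
    · push Not at h
      obtain ⟨V, hV, hV1, hV2⟩ := h
      obtain ⟨U, h1, h2, h3⟩ := ih _ (Finset.sdiff_ssubset hV hV1)
      exact ⟨U, h1.trans Finset.sdiff_subset, h2, by
        rw [h3, Finset.sum_sdiff_eq_sub hV, hV2, sub_zero]⟩

lemma arith2 {m e a l j : ℕ} (h1 : e ≤ a) (h2 : 2 * l ≤ a) (h3 : 0 < l) (h4 : m ≤ j + 1)
    (h5 : 2 * m ≤ j + 4) (h6 : (j + 1 + 1) * a + l ≤ m * e + (j + 1) * l) :
    a = e ∧ a = 2 * l ∧ 2 * m = j + 4 ∧ 2 ≤ j := by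
  obtain ⟨u, hu⟩ : ∃ u, j + 1 = m + u := ⟨j + 1 - m, by omega⟩
  obtain ⟨v, rfl⟩ := Nat.exists_eq_add_of_le h2
  obtain ⟨y, hy⟩ := Nat.exists_eq_add_of_le h1
  have e1 : (j + 1 + 1) * (2 * l + v) = m * e + m * y + (u + 1) * (2 * l) + (u + 1) * v := by
    rw [hu, ← mul_add m, ← hy]; ring
  have e2 : (u + 1) * (2 * l) + m * y + (u + 1) * v ≤ j * l := by nlinarith
  have e3 : j ≤ 2 * (u + 1) := by omega
  have e4 := Nat.mul_le_mul_right l e3
  have e5 : (u + 1) * (2 * l) = 2 * (u + 1) * l := by ring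
  have e6 : 2 * (u + 1) ≤ j := le_of_mul_le_mul_right (by omega) h3
  have e7 : (u + 1) * v = 0 := by omega
  have e8 : m * y = 0 := by omega
  have e9 : v = 0 := by simpa using e7
  have e10 : y = 0 := by
    rcases Nat.mul_eq_zero.1 e8 with h | h <;> omega
  omega

section

variable {G : Type*} [AddCommGroup G] [Fintype G] [DecidableEq G]

omit [Fintype G] in
lemma nsmul_mem_sub {X : Finset G} {K : AddSubgroup G} (h : ∀ x ∈ X, x ∈ K) (n : ℕ) :
    ∀ y ∈ n • X, y ∈ K := by
  induction n with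
  | zero => intro y hy; rw [zero_nsmul, Finset.mem_zero] at hy; rw [hy]; exact K.zero_mem
  | succ n ih =>
    intro y hy
    rw [succ_nsmul] at hy
    obtain ⟨a, ha, b, hb, rfl⟩ := Finset.mem_add.1 hy
    exact K.add_mem (ih a ha) (h b hb)

omit [Fintype G] in
lemma exists_fun_of_mem_nsmul {X : Finset G} (n : ℕ) : ∀ y ∈ n • X,
    ∃ f : ℕ → G, (∀ i < n, f i ∈ X) ∧ ∑ i ∈ range n, f i = y := by
  induction n with
  | zero =>
    intro y hy
    rw [zero_nsmul, Finset.mem_zero] at hy
    exact ⟨fun _ => 0, by simp, by simp [hy]⟩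
  | succ n ih =>
    intro y hy
    rw [succ_nsmul] at hy
    obtain ⟨a, ha, b, hb, rfl⟩ := Finset.mem_add.1 hy
    obtain ⟨f, hf, rfl⟩ := ih a ha
    refine ⟨fun i => if i = n then b else f i, fun i hi => ?_, ?_⟩
    · dsimp only
      split_ifs with h
      · exact hb
      · exact hf i (by omega)
    · rw [Finset.sum_range_succ, if_pos rfl]
      congr 1
      exact Finset.sum_congr rfl fun i hi => if_neg (Finset.mem_range.1 hi).ne

variable {H : Type u} [AddCommGroup H] [Fintype H] [DecidableEq H]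

omit [AddCommGroup G] [AddCommGroup H] in
lemma sum_fib (S : Finset (H × G)) : ∑ h, (fib S h).card = S.card := by
  simp only [fib, Finset.card_filter]
  rw [← Fintype.sum_prod_type' (f := fun h z => if (h, z) ∈ S then 1 else 0)]
  simp

omit [DecidableEq G] in
lemma card_le_of_not_inr {D : ℕ} (hD : ∀ K : AddSubgroup G, K ≠ ⊤ → (fs K).card ≤ D)
    (L : AddSubgroup (H × G)) (hL : ¬ ∀ z : G, ((0 : H), z) ∈ L) :
    (fs L).card ≤ D * Fintype.card H := by
  have h1 := hD (L.comap (AddMonoidHom.inr H G)) (fun h => hL fun z => by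
    have : z ∈ L.comap (AddMonoidHom.inr H G) := h ▸ trivial
    simpa using this)
  refine le_trans (Finset.card_le_mul_card_image (f := Prod.fst) (fs L) D ?_)
    (Nat.mul_le_mul_left _ (Finset.card_le_univ _))
  intro a ha
  obtain ⟨x, hx, rfl⟩ := Finset.mem_image.1 ha
  refine le_trans ?_ h1
  refine Finset.card_le_card_of_injOn (fun y => y.2 - x.2) (fun y hy => ?_) (fun y hy y' hy' h => ?_)
  · simp only [Finset.coe_filter, mem_fs, Set.mem_ofPred_eq] at hy
    have := L.sub_mem hy.1 (mem_fs.1 hx)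
    simp only [Finset.mem_coe, mem_fs, AddSubgroup.mem_comap, AddMonoidHom.inr_apply]
    convert this using 1
    ext <;> simp [hy.2]
  · simp only [Finset.coe_filter, mem_fs, Set.mem_ofPred_eq] at hy hy'
    ext
    · rw [hy.2, hy'.2]
    · simpa using h

lemma fill_subgroup {e m q j : ℕ} (he : ∀ x : H, addOrderOf x ≤ e)
    (hN : Fintype.card H = m * e) {B : Finset H} (h0 : (0 : H) ∈ B) (hB : e ≤ B.card)
    (hq : Fintype.card H = q * (fs (AddSubgroup.closure (B : Set H))).card) (hqm : q ≤ m)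
    (hj : m + 2 ≤ j + 1 + 1 + q) (hk : q = 1 → e ≤ j + 1 ∨ 2 * m ≤ j + 4) :
    ∀ s ∈ AddSubgroup.closure (B : Set H), s ∈ (j + 1 + 1) • B ∨
      (q = 1 ∧ B.card = e ∧ 2 ≤ j ∧ ∀ x ∉ B, s - x ∈ (j + 1) • B) := by
  set S := AddSubgroup.closure (B : Set H) with hS
  have hpos : 0 < Fintype.card H := Fintype.card_pos
  have he1 : 1 ≤ e := le_trans (addOrderOf_pos (0 : H)) (he 0)
  have hq1 : 1 ≤ q := Nat.pos_of_ne_zero (by rintro rfl; omega)
  intro s hs
  by_cases hcon : s ∈ (j + 1 + 1) • B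
  · exact Or.inl hcon
  right
  set L := stab ((j + 1 + 1) • B) with hL
  have hsub := nsmul_mem_sub (X := B) (K := S) (fun x hx => AddSubgroup.subset_closure hx)
    (j + 1 + 1)
  have h00 : (0 : H) ∈ (j + 1 + 1) • B := Finset.zero_mem_nsmul h0
  have hLS : L ≤ S := fun g hg => hsub _ (by simpa using hg 0 h00)
  have h1 : ((j + 1 + 1) • B).card + (fs L).card ≤ (fs S).card := by
    rw [← card_cos L s, ← Finset.card_union_of_disjoint]
    · apply Finset.card_le_card
      intro x hx
      rcases Finset.mem_union.1 hx with h | h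
      · exact mem_fs.2 (hsub x h)
      · simpa using S.add_mem (hLS (mem_cos.1 h)) hs
    · rw [Finset.disjoint_left]
      intro x hx hx'
      exact hcon (mem_of_sub_mem le_rfl hx (by simpa using L.neg_mem (mem_cos.1 hx')))
  obtain ⟨b, hb, hbL⟩ : ∃ b ∈ B, b ∉ L := by
    by_contra h
    push Not at h
    exact hcon (by simpa using (AddSubgroup.closure_le L).2 h hs 0 h00)
  have h2 : 2 * (fs L).card ≤ (B + fs L).card := by
    have hd : Disjoint (cos L 0) (cos L b) := by
      rw [Finset.disjoint_left]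
      intro w hw hw'
      apply hbL
      have := L.sub_mem (mem_cos.1 hw) (mem_cos.1 hw')
      rwa [show w - 0 - (w - b) = b by abel] at this
    have := Finset.card_le_card (Finset.union_subset
      (cos_subset (le_stab_add_fs B L) (subset_add_fs _ _ h0))
      (cos_subset (le_stab_add_fs B L) (subset_add_fs _ _ hb)))
    rw [Finset.card_union_of_disjoint hd, card_cos, card_cos] at this
    omega
  have h3 := kneser_iter B ⟨0, h0⟩ (j + 1)
  rw [← hL] at h3
  have h4 := card_le_add_fs B L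
  have h5 := fs_pos L
  rcases hq1.eq_or_lt with rfl | hq2
  · have h6 : S = ⊤ := by
      by_contra h
      have := fs_lt (le_top : S ≤ ⊤) (fun h' => h (top_le_iff.1 h'))
      rw [fs_top] at this
      omega
    rcases hk rfl with h7 | h7
    · have := nsmul_eq_univ _ H rfl B (j + 1) h0 h6 (fun x => (he x).trans h7) (by nlinarith)
      exact absurd (this ▸ Finset.mem_univ _) hcon
    rw [one_mul] at hq
    obtain ⟨f1, f2, f3, f4⟩ := arith2 (hB.trans h4) h2 h5 (by omega) h7
      (show (j + 1 + 1) * (B + fs L).card + (fs L).card ≤ m * e + (j + 1) * (fs L).card by omega)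
    have hBL : B + fs L = B :=
      (Finset.eq_of_subset_of_card_le (subset_add_fs _ _) (by omega)).symm
    have h8 : stab ((j + 1) • B) = L := by
      apply le_antisymm
      · rw [hL, succ_nsmul B (j + 1)]
        exact stab_le_add _ _
      · rw [succ_nsmul]
        exact (hBL ▸ le_stab_add_fs B L).trans (stab_le_add' _ _)
    have h9 := kneser_iter B ⟨0, h0⟩ j
    rw [h8] at h9
    refine ⟨rfl, by omega, by omega, fun x hx => ?_⟩
    by_contra h10
    have h11 : ((j + 1) • B).card + (insert x B).card ≤ Fintype.card H := by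
      rw [← Finset.card_image_of_injective (insert x B) (sub_right_injective (b := s)),
        ← Finset.card_union_of_disjoint]
      · exact Finset.card_le_univ _
      · rw [Finset.disjoint_left]
        intro y hy hy'
        obtain ⟨z, hz, rfl⟩ := Finset.mem_image.1 hy'
        rcases Finset.mem_insert.1 hz with rfl | hz
        · exact h10 hy
        · apply hcon
          rw [succ_nsmul]
          simpa using Finset.add_mem_add hy hz
    rw [Finset.card_insert_of_notMem hx] at h11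
    have h12 : m * e = (j + 4) * (fs L).card := by rw [← f1, f2, ← f3]; ring
    rw [f2] at h9
    nlinarith
  exfalso
  replace h4 := hB.trans h4
  generalize (B + fs L).card = a at *
  generalize (fs L).card = l at *
  generalize (fs S).card = σ at *
  have e1 : 2 * m ≤ q * (j + 1 + 1) := by
    obtain ⟨r, rfl⟩ := Nat.exists_eq_add_of_le hqm
    have : r + 2 ≤ j + 1 + 1 := by omega
    nlinarith
  have e2 : q * σ ≤ m * a := by rw [← hq, hN]; exact Nat.mul_le_mul_left _ h4
  have e3 : (j + 1 + 1) * a + l ≤ σ + (j + 1) * l := by omega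
  have e4 := Nat.mul_le_mul_left q e3
  have e5 := Nat.mul_le_mul_right a e1
  have e6 := Nat.mul_le_mul_left (q * (j + 1)) h2
  have e7 : 0 < q * l := by positivity
  nlinarith

end

lemma arith1 {j a l c σ n e k N t w : ℕ} (h3 : (j + 1 + 1) * a ≤ c + (j + 1) * l)
    (h5 : c ≤ σ * n) (h8 : (j + 1 + 1) * (e * n + k) ≤ (j + 1 + 1) * (a + N * (t + t + w)))
    (h9 : (j + 1) * l ≤ (j + 1) * (t * N)) (h10 : (σ + 1) * n ≤ (j + 2) * e * n)
    (h11 : (j + 2) * N * (3 * t + w) < n) : False := by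
  have e1 : (j + 1 + 1) * (e * n + k) = (j + 2) * e * n + (j + 2) * k := by ring
  have e2 : (j + 1 + 1) * (a + N * (t + t + w)) =
      (j + 1 + 1) * a + (j + 2) * N * (2 * t + w) := by ring
  have e3 : (j + 2) * N * (3 * t + w) = (j + 2) * N * (2 * t + w) + (j + 1) * (t * N) + t * N := by
    ring
  have e4 : (σ + 1) * n = σ * n + n := by ring
  omega

lemma card_val_lt {n : ℕ} [NeZero n] {r : ℕ} (hr : r ≤ n) :
    r ≤ (univ.filter (fun z : ZMod n => z.val < r)).card := by
  conv_lhs => rw [← Finset.card_range r]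
  refine Finset.card_le_card_of_injOn (fun i => (i : ZMod n)) (fun i hi => ?_)
    (fun i hi i' hi' h => ?_)
  · have : i < r := by simpa using hi
    simp [ZMod.val_natCast_of_lt (this.trans_le hr), this]
  · have h1 : i < r := by simpa using hi
    have h2 : i' < r := by simpa using hi'
    have := congrArg ZMod.val h
    rwa [ZMod.val_natCast_of_lt (h1.trans_le hr), ZMod.val_natCast_of_lt (h2.trans_le hr)] at this

variable {H : Type u} [AddCommGroup H] [Fintype H] [DecidableEq H]

omit [Fintype H] in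
lemma finish {e k n t w j : ℕ} [NeZero n] (h2 : ∀ y : ZMod n, y + y = 0 → y = 0)
    (hD : ∀ K : AddSubgroup (ZMod n), K ≠ ⊤ → (fs K).card ≤ t) (ht : 2 * k ≤ t)
    (hw : 2 * k * n ≤ t * w) {A U : Finset (H × ZMod n)} (hA : A.card = e * n + k) (hUA : U ⊆ A)
    (hj : k = U.card + (j + 2)) (h : ℕ → H) (hU : ∀ u ∈ U, ∀ i ≤ j + 1, u.1 ≠ h i)
    (h3 : ∀ i ≤ j + 1, t + t + w ≤ (fib A (h i)).card)
    (h4 : n + (j + 2) * (t + t + w) ≤ ∑ i ∈ range (j + 2), (fib A (h i)).card + 1)
    (h5 : ∑ i ∈ range (j + 2), h i = (∑ x ∈ A \ U, x).1) :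
    ∃ T ⊆ A, T.card = e * n ∧ ∑ x ∈ T, x = 0 := by
  have hcn : Fintype.card (ZMod n) = n := ZMod.card n
  obtain ⟨E, e1, e2, e3, e4⟩ := exists_distinct_sum (j := j) (w := w) h2 hD (t := t) (by omega)
    (by rw [hcn]; exact le_trans (Nat.mul_le_mul_right _ (by omega)) hw) A h h3
    (by rw [hcn]; exact h4) (∑ x ∈ A \ U, x).2
  have e5 : ∑ d ∈ E, d = ∑ x ∈ A \ U, x := by rw [e4, h5]
  have e6 : E ⊆ A \ U := fun d hd => Finset.mem_sdiff.2 ⟨e1 hd, fun h6 => by
    obtain ⟨i, hi, h7⟩ := e3 d hd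
    exact hU d h6 i hi h7⟩
  refine ⟨(A \ U) \ E, Finset.sdiff_subset.trans Finset.sdiff_subset, ?_, ?_⟩
  · rw [Finset.card_sdiff_of_subset e6, Finset.card_sdiff_of_subset hUA]
    omega
  · rw [Finset.sum_sdiff_eq_sub e6, e5, sub_self]

lemma upper_core {e m k n t w : ℕ} [NeZero n] (he : ∀ x : H, addOrderOf x ≤ e)
    (hmk : m + 1 ≤ k) (hk : e < k ∨ 2 * m ≤ k + 2)
    (hN : Fintype.card H = m * e) (h2 : ∀ y : ZMod n, y + y = 0 → y = 0)
    (hD : ∀ K : AddSubgroup (ZMod n), K ≠ ⊤ → (fs K).card ≤ t) (ht : 2 * k ≤ t)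
    (hw : 2 * k * n ≤ t * w) (hn : k * (m * e) * (3 * t + w) < n)
    (A : Finset (H × ZMod n)) (hA : A.card = e * n + k)
    (h0 : t + t + w ≤ (fib A 0).card) : ∃ T ⊆ A, T.card = e * n ∧ ∑ x ∈ T, x = 0 := by
  classical
  set lam := t + t + w with hlam
  set B := univ.filter (fun h : H => lam ≤ (fib A h).card) with hB
  have hB0 : (0 : H) ∈ B := by simpa [hB] using h0
  set S := AddSubgroup.closure (B : Set H) with hS
  have hcn : Fintype.card (ZMod n) = n := ZMod.card n
  have hfib : ∀ h, (fib A h).card ≤ n := fun h => (Finset.card_le_univ _).trans hcn.le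
  have he1 : 1 ≤ e := le_trans (addOrderOf_pos (0 : H)) (he 0)
  have hNl : (m * e) * lam < n := by
    refine lt_of_le_of_lt ?_ hn
    exact Nat.mul_le_mul (by nlinarith) (by omega)
  have hBe : e ≤ B.card := by
    have h1 : ∑ h, (fib A h).card ≤ ∑ h : H, ((if lam ≤ (fib A h).card then n else 0) + lam) :=
      Finset.sum_le_sum fun h _ => by
        have := hfib h
        split_ifs <;> omega
    rw [sum_fib, Finset.sum_add_distrib, ← Finset.sum_filter, Finset.sum_const, Finset.sum_const,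
      smul_eq_mul, smul_eq_mul, Finset.card_univ, hN, hA, ← hB] at h1
    by_contra h
    have : B.card + 1 ≤ e := by omega
    nlinarith
  have hq := AddSubgroup.card_eq_card_quotient_mul_card_addSubgroup S
  rw [← card_fs, Nat.card_eq_fintype_card, Nat.card_eq_fintype_card] at hq
  set q := Fintype.card (H ⧸ S) with hqdef
  have hBS : B.card ≤ (fs S).card :=
    Finset.card_le_card fun x hx => mem_fs.2 (AddSubgroup.subset_closure hx)
  have hqm : q ≤ m := by
    have : q * e ≤ m * e := by rw [← hN, hq]; exact Nat.mul_le_mul_left _ (hBe.trans hBS)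
    exact le_of_mul_le_mul_right this he1
  obtain ⟨U, hU1, hU2, hU3⟩ := davenport (fun x : H × ZMod n => QuotientAddGroup.mk' S x.1)
    (A.filter (fun x => x.1 ∉ S))
  obtain ⟨j, hj⟩ : ∃ j, k = U.card + (j + 2) := ⟨k - U.card - 2, by omega⟩
  have hUA : U ⊆ A := hU1.trans (Finset.filter_subset _ _)
  set τ := ∑ x ∈ A \ U, x with hτ
  have hτS : τ.1 ∈ S := by
    rw [← QuotientAddGroup.eq_zero_iff, hτ, Prod.fst_sum, ← QuotientAddGroup.mk'_apply, map_sum,
      Finset.sum_sdiff_eq_sub hUA, hU3, sub_eq_zero, Finset.sum_filter]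
    refine Finset.sum_congr rfl fun x _ => ?_
    split_ifs with h
    · simpa using h
    · rfl
  rcases fill_subgroup (j := j) he hN hB0 hBe hq hqm (by omega) (by omega) _ hτS with
    hfill | ⟨s1, s2, s3, s4⟩
  swap
  · have hU0 : U = ∅ := Finset.card_eq_zero.1 (by omega)
    have hsplit : ∀ h : H, A.card + (if h ∈ B then n else 0) ≤
        (fib A h).card + B.card * n + ∑ b ∈ Bᶜ, (fib A b).card := by
      intro h
      rw [← sum_fib A, ← Finset.sum_add_sum_compl B]
      split_ifs with hh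
      · have h1 := Finset.sum_le_card_nsmul (B.erase h) (fun b => (fib A b).card) n
          (fun b _ => hfib b)
        rw [← Finset.add_sum_erase B _ hh, ← Finset.card_erase_add_one hh, add_mul, ← smul_eq_mul]
        omega
      · have h1 := Finset.sum_le_card_nsmul B (fun b => (fib A b).card) n (fun b _ => hfib b)
        rw [← smul_eq_mul]
        omega
    obtain ⟨x, hx, hxB⟩ : ∃ x ∈ A, x.1 ∉ B := by
      by_contra h
      push Not at h
      have h1 : A.card ≤ (B ×ˢ (univ : Finset (ZMod n))).card :=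
        Finset.card_le_card fun x hx => by simpa using h x hx
      rw [Finset.card_product, Finset.card_univ, hcn, s2] at h1
      omega
    have hsm : ∑ b ∈ Bᶜ, (fib A b).card ≤ m * e * lam := by
      refine (Finset.sum_le_card_nsmul _ _ lam (fun b hb => ?_)).trans
        (Nat.mul_le_mul_right _ ((Finset.card_le_univ _).trans hN.le))
      simp only [hB, Finset.mem_compl, Finset.mem_filter, Finset.mem_univ, true_and] at hb
      omega
    obtain ⟨j, rfl⟩ : ∃ j', j = j' + 1 := ⟨j - 1, by omega⟩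
    obtain ⟨f, hf1, hf2⟩ := exists_fun_of_mem_nsmul _ _ (s4 _ hxB)
    rw [hU0, Finset.card_empty] at hj
    refine finish (U := {x}) (j := j) h2 hD ht hw hA (by simpa using hx) (by simp; omega) f
      (fun u hu i hi h => hxB (by
        rw [← Finset.mem_singleton.1 hu, h]; exact hf1 i (by omega)))
      (fun i hi => by simpa [hB] using hf1 i (by omega)) ?_ ?_
    · have h1 : ∑ i ∈ range (j + 2), n ≤ ∑ i ∈ range (j + 2), ((fib A (f i)).card + m * e * lam) :=
        Finset.sum_le_sum fun i hi => by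
          have h3 := hsplit (f i)
          rw [if_pos (hf1 i (Finset.mem_range.1 hi)), hA, s2] at h3
          omega
      rw [Finset.sum_add_distrib, Finset.sum_const, Finset.sum_const, Finset.card_range,
        smul_eq_mul, smul_eq_mul] at h1
      have h3 : k * (m * e) * lam ≤ k * (m * e) * (3 * t + w) :=
        Nat.mul_le_mul_left _ (by omega)
      have h4 : lam ≤ m * e * lam := Nat.le_mul_of_pos_left _ (by rw [← hN]; exact Fintype.card_pos)
      have h5 : k * (m * e * lam) < n := by rw [← mul_assoc]; omega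
      rw [← hlam]
      rw [hj] at h5
      generalize m * e * lam = y at *
      have h6 := Nat.mul_le_mul_left (j + 2) h4
      have h7 : 2 * n ≤ (j + 1) * n := Nat.mul_le_mul_right _ (by omega)
      nlinarith
    · rw [hf2, hτ, hU0, Finset.sdiff_empty, Finset.sum_sdiff_eq_sub (by simpa using hx)]
      simp
  set A' := univ.filter (fun x : H × ZMod n => x.2.val + lam ≤ (fib A x.1).card) with hA'
  have hA'B : ∀ x ∈ A', x.1 ∈ B := fun x hx => by
    simp only [hA', hB, Finset.mem_filter, Finset.mem_univ, true_and] at hx ⊢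
    omega
  have hA'c : A.card ≤ A'.card + m * e * lam := by
    rw [← sum_fib A, ← sum_fib A', ← hN, ← Finset.card_univ, ← smul_eq_mul, ← Finset.sum_const,
      ← Finset.sum_add_distrib]
    refine Finset.sum_le_sum fun h _ => ?_
    have h1 := card_val_lt (n := n) (r := (fib A h).card - lam) (by have := hfib h; omega)
    have h3 : (univ.filter (fun z : ZMod n => z.val < (fib A h).card - lam)).card ≤
        (fib A' h).card := Finset.card_le_card fun z hz => by
      simp only [hA', fib, Finset.mem_filter, Finset.mem_univ, true_and] at hz ⊢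
      omega
    omega
  have hmem : (τ.1, (-1 : ZMod n)) ∈ (j + 1 + 1) • A' := by
    by_cases hL : ∀ z : ZMod n, ((0 : H), z) ∈ stab ((j + 1 + 1) • A')
    · have h1 : (τ.1, (0 : ZMod n)) ∈ (j + 1 + 1) • A' := by
        have h3 : B.image (AddMonoidHom.inl H (ZMod n)) ⊆ A' := by
          intro x hx
          obtain ⟨b, hb, rfl⟩ := Finset.mem_image.1 hx
          simpa [hA', hB] using hb
        apply Finset.nsmul_subset_nsmul_left h3
        rw [← Finset.image_nsmul]
        exact Finset.mem_image.2 ⟨_, hfill, rfl⟩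
      simpa using hL (-1) _ h1
    · exfalso
      have h1 := card_le_of_not_inr hD _ hL
      have h3 := kneser_iter A' ⟨(0, 0), by simpa [hA'] using h0⟩ (j + 1)
      have h4 := card_le_add_fs A' (stab ((j + 1 + 1) • A'))
      have h5 : ((j + 1 + 1) • A').card ≤ (fs S).card * n := by
        conv_rhs => rw [← hcn, ← Finset.card_univ, ← Finset.card_product]
        apply Finset.card_le_card
        intro x hx
        have := nsmul_mem_sub (K := S.comap (AddMonoidHom.fst H (ZMod n)))
          (fun y hy => AddSubgroup.subset_closure (hA'B y hy)) _ x hx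
        simpa using this
      have h6 : (fs S).card + 1 ≤ (j + 2) * e := by
        have hq1 : 0 < q := Fintype.card_pos
        have h7 : q * (fs S).card < q * ((j + 2) * e) := by
          rw [← hq, hN, ← mul_assoc]
          refine Nat.mul_lt_mul_of_pos_right ?_ he1
          obtain ⟨r, hr⟩ := Nat.exists_eq_add_of_le hqm
          have : r + 2 ≤ j + 2 := by omega
          nlinarith
        exact lt_of_mul_lt_mul_left h7 (Nat.zero_le _)
      rw [hN] at h1
      have h8 := Nat.mul_le_mul_left (j + 1 + 1) (hA'c.trans (Nat.add_le_add_right h4 _))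
      have h9 := Nat.mul_le_mul_left (j + 1) h1
      have h10 := Nat.mul_le_mul_right n h6
      have h11 : (j + 2) * (m * e) * (3 * t + w) ≤ k * (m * e) * (3 * t + w) :=
        Nat.mul_le_mul_right _ (Nat.mul_le_mul_right _ (by omega))
      rw [hA, hlam] at h8
      exact arith1 h3 h5 h8 h9 h10 (h11.trans_lt hn)
  obtain ⟨f, hf1, hf2⟩ := exists_fun_of_mem_nsmul _ _ hmem
  have hf3 : ∀ i < j + 2, (f i).2.val + lam ≤ (fib A (f i).1).card := fun i hi => by
    simpa [hA'] using hf1 i hi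
  have hf4 : n ≤ ∑ i ∈ range (j + 2), (f i).2.val + 1 := by
    apply Nat.le_of_dvd (Nat.succ_pos _)
    rw [← ZMod.natCast_eq_zero_iff]
    have := congrArg Prod.snd hf2
    rw [Prod.snd_sum] at this
    push_cast
    simp only [ZMod.natCast_val, ZMod.cast_id', id_eq]
    rw [this]
    ring
  have hf5 := Finset.sum_le_sum (s := range (j + 2)) (fun i hi => hf3 i (Finset.mem_range.1 hi))
  rw [Finset.sum_add_distrib, Finset.sum_const, Finset.card_range, smul_eq_mul] at hf5
  exact finish h2 hD ht hw hA hUA hj (fun i => (f i).1)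
    (fun u hu i hi h => (Finset.mem_filter.1 (hU1 hu)).2
      (h ▸ AddSubgroup.subset_closure (hA'B _ (hf1 i (by omega)))))
    (fun i hi => le_trans (Nat.le_add_left _ _) (hf3 i (by omega))) (by rw [← hlam]; omega)
    (by rw [← Prod.fst_sum, hf2])

lemma upper_param {e m k n t w : ℕ} [NeZero n] (he : ∀ x : H, addOrderOf x ≤ e)
    (he' : ∀ x : H, e • x = 0) (hmk : m + 1 ≤ k) (hk : e < k ∨ 2 * m ≤ k + 2)
    (hN : Fintype.card H = m * e) (h2 : ∀ y : ZMod n, y + y = 0 → y = 0)
    (hD : ∀ K : AddSubgroup (ZMod n), K ≠ ⊤ → (fs K).card ≤ t) (ht : 2 * k ≤ t)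
    (hw : 2 * k * n ≤ t * w) (hn : k * (m * e) * (3 * t + w) < n)
    (A : Finset (H × ZMod n)) (hA : A.card = e * n + k) :
    ∃ T ⊆ A, T.card = e * n ∧ ∑ x ∈ T, x = 0 := by
  have he1 : 1 ≤ e := le_trans (addOrderOf_pos (0 : H)) (he 0)
  obtain ⟨b, hb⟩ : ∃ b, t + t + w ≤ (fib A b).card := by
    by_contra h
    push Not at h
    have h1 : ∑ b, (fib A b).card ≤ ∑ _b : H, (t + t + w) :=
      Finset.sum_le_sum fun b _ => (h b).le
    rw [sum_fib, Finset.sum_const, Finset.card_univ, smul_eq_mul, hA, hN] at h1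
    have : (m * e) * (t + t + w) ≤ k * (m * e) * (3 * t + w) :=
      Nat.mul_le_mul (by nlinarith) (by omega)
    nlinarith
  set g : H × ZMod n := (b, 0) with hg
  obtain ⟨T, h1, h3, h4⟩ := upper_core he hmk hk hN h2 hD ht hw hn ((-g) +ᵥ A)
    (by rw [Finset.card_vadd_finset, hA]) (by
      refine hb.trans (Finset.card_le_card fun z hz => ?_)
      simp only [fib, Finset.mem_filter, Finset.mem_univ, true_and] at hz ⊢
      exact Finset.mem_vadd_finset.2 ⟨_, hz, by simp [hg]⟩)
  refine ⟨T.image (fun x => g + x), fun x hx => ?_, ?_, ?_⟩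
  · obtain ⟨y, hy, rfl⟩ := Finset.mem_image.1 hx
    obtain ⟨z, hz, rfl⟩ := Finset.mem_vadd_finset.1 (h1 hy)
    simpa using hz
  · rw [Finset.card_image_of_injective _ (add_right_injective g), h3]
  · rw [Finset.sum_image (fun x _ y _ h => add_right_injective g h), Finset.sum_add_distrib, h4,
      Finset.sum_const, h3, add_zero, hg, mul_comm, mul_nsmul']
    simp [he']

end Pool.Agent.MP_f9a021_co

end

section

/-! Assembly of the upper and lower bounds. -/

open Finset

namespace Pool.Agent.MP_f9a021_co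

universe u

lemma le_tauHat {G : Type*} [AddCommMonoid G] [Fintype G] {h c : ℕ}
    (hA : ∃ A : Finset G, WeaklyZeroSumFree h A ∧ A.card = c) : c ≤ tauHat G h :=
  le_csSup ⟨Fintype.card G, fun _ ⟨A, _, hA⟩ => hA ▸ Finset.card_le_univ A⟩ hA

lemma tauHat_le {G : Type*} [AddCommMonoid G] {h c : ℕ}
    (H : ∀ A : Finset G, A.card = c + 1 → ∃ T ⊆ A, T.card = h ∧ ∑ x ∈ T, x = 0) :
    tauHat G h ≤ c := by
  refine csSup_le' ?_
  rintro _ ⟨A, hA, rfl⟩
  by_contra h1
  obtain ⟨B, hB, hB'⟩ := Finset.exists_subset_card_eq (show c + 1 ≤ A.card by omega)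
  obtain ⟨T, h2, h3, h4⟩ := H B hB'
  exact hA T (h2.trans hB) h3 h4

lemma wzsf_map {G G' : Type*} [AddCommGroup G] [AddCommGroup G'] (φ : G ≃+ G') {h c : ℕ}
    (hA : ∃ A : Finset G, WeaklyZeroSumFree h A ∧ A.card = c) :
    ∃ A : Finset G', WeaklyZeroSumFree h A ∧ A.card = c := by
  obtain ⟨A, h1, h2⟩ := hA
  refine ⟨A.map φ.toEquiv.toEmbedding, fun B hB hB' h0 => ?_, by rw [Finset.card_map, h2]⟩
  obtain ⟨C, hC, rfl⟩ := Finset.subset_map_iff.1 hB
  rw [Finset.card_map] at hB'
  refine h1 C hC hB' (φ.injective ?_)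
  rw [Finset.sum_map] at h0
  rw [map_sum, map_zero]
  exact h0

lemma tauHat_congr {G G' : Type*} [AddCommGroup G] [AddCommGroup G'] (φ : G ≃+ G') (h : ℕ) :
    tauHat G h = tauHat G' h := by
  unfold tauHat
  congr 1
  ext c
  exact ⟨wzsf_map φ, wzsf_map φ.symm⟩

lemma exists_surj (G : Type*) [AddCommGroup G] [Finite G] {d : ℕ}
    (hd : d ∣ AddMonoid.exponent G) : ∃ φ : G →+ ZMod d, Function.Surjective φ := by
  have : NeZero (Monoid.exponent (Multiplicative G)) := ⟨Monoid.exponent_ne_zero_of_finite⟩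
  obtain ⟨E⟩ := CommGroup.monoidHom_mulEquiv_of_hasEnoughRootsOfUnity (Multiplicative G) ℂ
  obtain ⟨g, hg⟩ := Monoid.exists_orderOf_eq_exponent
    (Monoid.ExponentExists.of_finite (G := Multiplicative G))
  set χ := E.symm g with hχ
  have h1 : orderOf χ = AddMonoid.exponent G := by
    rw [hχ, MulEquiv.orderOf_eq, hg]; simp
  have : Finite χ.range := Finite.of_surjective _ χ.rangeRestrict_surjective
  have h2 : d ∣ Nat.card χ.range := by
    refine hd.trans ?_
    rw [← h1]
    refine orderOf_dvd_of_pow_eq_one ?_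
    ext x
    have := congrArg Subtype.val (pow_card_eq_one' (x := χ.rangeRestrict (Multiplicative.ofAdd x)))
    simpa using congrArg Units.val this
  let F := (zmodCyclicMulEquiv (G := χ.range) inferInstance).symm
  refine ⟨(ZMod.castHom h2 (ZMod d)).toAddMonoidHom.comp
    (MonoidHom.toAdditiveRight (F.toMonoidHom.comp χ.rangeRestrict)), ?_⟩
  exact (ZMod.castHom_surjective h2).comp (F.surjective.comp χ.rangeRestrict_surjective)

section

variable {H : Type u} [AddCommGroup H] [Fintype H] {m n : ℕ}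

lemma two_le_exp (hm : 2 ≤ m) (hN : Fintype.card H = m * AddMonoid.exponent H) :
    2 ≤ AddMonoid.exponent H := by
  have h0 : AddMonoid.exponent H ≠ 0 := AddMonoid.exponent_ne_zero_of_finite
  have : Nontrivial H := Fintype.one_lt_card_iff_nontrivial.1 (by
    rw [hN]; have := Nat.pos_of_ne_zero h0; nlinarith)
  exact AddMonoid.one_lt_exponent

lemma big_le {N x : ℕ} (hp : ∀ p, p.Prime → p ∣ n → 30 * N ^ 5 < p) (hx : x ∣ n) (h0 : 0 < x)
    (h1 : x ≠ 1) : 30 * N ^ 5 < x :=
  (hp _ (Nat.minFac_prime h1) ((Nat.minFac_dvd x).trans hx)).trans_le (Nat.minFac_le h0)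

lemma coprime_small {N x : ℕ} (hp : ∀ p, p.Prime → p ∣ n → 30 * N ^ 5 < p) (h0 : 0 < x)
    (hx : x ≤ 2 * N) : x.Coprime n := by
  refine Nat.coprime_of_dvd fun p h1 h2 h3 => ?_
  have h4 := hp p h1 h3
  have h5 := Nat.le_of_dvd h0 h2
  have h6 : N ≤ N ^ 5 := Nat.le_self_pow (by omega) N
  omega

lemma exp_eq (hm : 2 ≤ m) (hN : Fintype.card H = m * AddMonoid.exponent H)
    (hp : ∀ p, p.Prime → p ∣ n → 30 * Fintype.card H ^ 5 < p) :
    AddMonoid.exponent (H × ZMod n) = AddMonoid.exponent H * n := by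
  have h1 := two_le_exp hm hN
  rw [AddMonoid.exponent_prod, ZMod.exponent, lcm_eq_nat_lcm,
    (coprime_small hp (by omega) (by rw [hN]; nlinarith)).lcm_eq_mul]

lemma upper_main (hm : 2 ≤ m) (hN : Fintype.card H = m * AddMonoid.exponent H) (hn : 1 < n)
    (hp : ∀ p, p.Prime → p ∣ n → 30 * Fintype.card H ^ 5 < p) {k : ℕ} (h1 : m ≤ k)
    (h2 : k + 1 ≤ 2 * m) (h3 : AddMonoid.exponent H ≤ k ∨ 2 * m ≤ k + 3) :
    tauHat (H × ZMod n) (AddMonoid.exponent H * n) ≤ AddMonoid.exponent H * n + k := by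
  classical
  have : NeZero n := ⟨by omega⟩
  have he := two_le_exp hm hN
  have hbig := big_le hp dvd_rfl (by omega) (by omega)
  set N := Fintype.card H with hNdef
  have hN4 : 2 * m ≤ N := by rw [hN]; nlinarith
  have hk : k + 1 ≤ N := by omega
  have hM : 0 < 6 * N ^ 2 := by have : 0 < N := by omega
                                positivity
  set q := n / (6 * N ^ 2) with hq
  have q1 : 6 * N ^ 2 * q ≤ n := Nat.mul_div_le _ _
  have q2 : n < 6 * N ^ 2 * (q + 1) := Nat.lt_mul_div_succ n hM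
  have q3 : N ^ 2 ≤ N ^ 5 := Nat.pow_le_pow_right (by omega) (by omega)
  refine tauHat_le fun A hA => upper_param (m := m) (k := k + 1) (t := q + 1)
    (w := 2 * (k + 1) * (6 * N ^ 2)) (fun x => Nat.le_of_dvd (by omega) (AddMonoid.addOrder_dvd_exponent x))
    AddMonoid.exponent_nsmul_eq_zero (by omega) (by omega) hN ?_ ?_ ?_ ?_ ?_ A hA
  · intro y hy
    have h4 : IsUnit ((2 : ℕ) : ZMod n) :=
      (ZMod.isUnit_iff_coprime 2 n).2 (coprime_small hp (by omega) (by omega))
    exact h4.mul_right_eq_zero.1 (by rw [← hy]; push_cast; ring)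
  · intro K hK
    have h4 := K.card_mul_index
    rw [Nat.card_zmod] at h4
    have h5 := big_le hp (Dvd.intro_left _ h4) (Nat.pos_of_ne_zero K.index_ne_zero_of_finite)
      (by rwa [Ne, AddSubgroup.index_eq_one])
    rw [card_fs]
    refine le_trans ((Nat.le_div_iff_mul_le hM).2 ?_) (Nat.le_succ _)
    exact le_trans (Nat.mul_le_mul_left _ (by omega)) h4.le
  · have h4 : 6 * N ^ 2 * (2 * N) ≤ 30 * N ^ 5 := by
      have : N ^ 3 ≤ N ^ 5 := Nat.pow_le_pow_right (by omega) (by omega)
      nlinarith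
    have := lt_of_mul_lt_mul_left (a := 6 * N ^ 2) (h4.trans_lt (hbig.trans q2)) (Nat.zero_le _)
    omega
  · nlinarith
  · rw [← hN]
    have h4 : (k + 1) * N * (3 * (q + 1) + 2 * (k + 1) * (6 * N ^ 2)) ≤
        N * N * (3 * (q + 1) + 2 * N * (6 * N ^ 2)) := by gcongr
    nlinarith

lemma exists_quot (hm : 2 ≤ m) (hN : Fintype.card H = m * AddMonoid.exponent H) [NeZero n]
    (hp : ∀ p, p.Prime → p ∣ n → 30 * Fintype.card H ^ 5 < p) {f d : ℕ}
    (hd : f * d = AddMonoid.exponent H * n) :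
    (∃ φ : H × ZMod n →+ ZMod d, Function.Surjective φ) ∧
      Fintype.card (H × ZMod n) = m * f * d :=
  ⟨exists_surj _ (by rw [exp_eq hm hN hp]; exact Dvd.intro_left _ hd), by
    rw [Fintype.card_prod, ZMod.card, hN, mul_assoc, mul_assoc, hd]⟩

lemma small_lt (hm : 2 ≤ m) (hN : Fintype.card H = m * AddMonoid.exponent H) :
    2 * m * m + 7 ≤ 30 * Fintype.card H ^ 5 := by
  have he := two_le_exp hm hN
  have h1 : m ≤ Fintype.card H := by rw [hN]; nlinarith
  have h2 : m ^ 5 ≤ Fintype.card H ^ 5 := Nat.pow_le_pow_left h1 5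
  have h3 : m ^ 2 ≤ m ^ 5 := Nat.pow_le_pow_right (by omega) (by omega)
  nlinarith

lemma lower_main (hm : 2 ≤ m) (hN : Fintype.card H = m * AddMonoid.exponent H) (hn : 1 < n)
    (hp : ∀ p, p.Prime → p ∣ n → 30 * Fintype.card H ^ 5 < p) :
    AddMonoid.exponent H * n + (m - 1) ≤ tauHat (H × ZMod n) (AddMonoid.exponent H * n) := by
  classical
  have : NeZero n := ⟨by omega⟩
  obtain ⟨⟨φ, hφ⟩, hc⟩ := exists_quot hm hN hp (f := AddMonoid.exponent H) (d := n) rfl
  have h1 := big_le hp dvd_rfl (by omega) (by omega)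
  have h2 := small_lt hm hN
  exact le_tauHat (lower_pred φ hφ hc hm (two_le_exp hm hN) (by omega))

lemma lower_div (hm : 2 ≤ m) (hN : Fintype.card H = m * AddMonoid.exponent H) (hn : 1 < n)
    (hp : ∀ p, p.Prime → p ∣ n → 30 * Fintype.card H ^ 5 < p) {f d : ℕ}
    (hd : f * d = AddMonoid.exponent H * n) (h1 : 2 * m ≤ d) (h2 : 2 ≤ d % m)
    (hc : 2 * (m - d % m) + 5 ≤ f * (m - d % m) ∨
      (Odd (f * (d / m)) ∧ (m ≤ f * (m - d % m) ∨ m - d % m + 3 ≤ f * (m - d % m)))) :
    AddMonoid.exponent H * n + m ≤ tauHat (H × ZMod n) (AddMonoid.exponent H * n) := by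
  classical
  have : NeZero n := ⟨by omega⟩
  have : NeZero d := ⟨by omega⟩
  obtain ⟨⟨φ, hφ⟩, h3⟩ := exists_quot hm hN hp hd
  have h4 := Nat.mod_lt d (show 0 < m by omega)
  have h5 : f ≠ 0 := by
    rintro rfl
    have := two_le_exp hm hN
    have : 0 < AddMonoid.exponent H * n := by positivity
    omega
  rw [← hd]
  exact le_tauHat (lower_exact φ hφ h3 (Nat.div_add_mod d m).symm (by omega) h2
    ((Nat.le_div_iff_mul_le (by omega)).2 h1) (by omega) hc)

lemma lower_seven (hm : 2 ≤ m) (hN : Fintype.card H = m * AddMonoid.exponent H) (hn : 1 < n)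
    (hp : ∀ p, p.Prime → p ∣ n → 30 * Fintype.card H ^ 5 < p) {f d : ℕ}
    (hd : f * d = AddMonoid.exponent H * n) (h1 : 2 * m ≤ d) (h2 : 2 ≤ d % m) (hf : 7 ≤ f) :
    AddMonoid.exponent H * n + m ≤ tauHat (H × ZMod n) (AddMonoid.exponent H * n) := by
  have h4 := Nat.mod_lt d (show 0 < m by omega)
  have h5 := Nat.mul_le_mul_right (m - d % m) hf
  exact lower_div hm hN hn hp hd h1 h2 (Or.inl (by omega))

lemma lower_prime (hm : 2 ≤ m) (hN : Fintype.card H = m * AddMonoid.exponent H) (hn : 1 < n)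
    (hp : ∀ p, p.Prime → p ∣ n → 30 * Fintype.card H ^ 5 < p) {p : ℕ} (h1 : p.Prime) (h2 : p ∣ n)
    (h3 : ¬ p ≡ 1 [MOD m]) (h4 : p ≠ n ∨ AddMonoid.exponent H = 5 ∨ 7 ≤ AddMonoid.exponent H ∨
      (AddMonoid.exponent H = 3 ∧ m = 3)) :
    AddMonoid.exponent H * n + m ≤ tauHat (H × ZMod n) (AddMonoid.exponent H * n) := by
  have he := two_le_exp hm hN
  have b1 := hp p h1 h2
  have b2 := small_lt hm hN
  have b3 : 2 * m ≤ p := by nlinarith
  have b4 : 2 ≤ p % m := by
    have : p % m ≠ 0 := fun h => by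
      rcases h1.eq_one_or_self_of_dvd m (Nat.dvd_of_mod_eq_zero h) with h | h <;> omega
    have : p % m ≠ 1 := fun h => h3 (by rw [Nat.ModEq, h, Nat.mod_eq_of_lt (by omega)])
    omega
  obtain ⟨c, hc⟩ := h2
  have b5 : AddMonoid.exponent H * c * p = AddMonoid.exponent H * n := by rw [hc]; ring
  have c0 : 0 < c := Nat.pos_of_ne_zero (by rintro rfl; omega)
  rcases eq_or_ne c 1 with rfl | hc1
  swap
  · have := big_le hp (Dvd.intro_left _ hc.symm) c0 hc1
    exact lower_seven hm hN hn hp b5 b3 b4 (by nlinarith)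
  have b6 := Nat.mod_lt p (show 0 < m by omega)
  have b7 := Nat.div_add_mod p m
  have b8 : Odd p := h1.odd_of_ne_two (by omega)
  have b9 : Odd m → p % m + 1 = m → Odd (p / m) := by
    intro h h'
    rw [← Nat.not_even_iff_odd]
    intro h''
    have := h''.mul_left m
    rw [Nat.odd_iff] at b8 h
    rw [Nat.even_iff] at this
    omega
  rcases h4 with h | h | h | ⟨h, h'⟩
  · omega
  · have hodd : Odd m := by
      rw [← Nat.not_even_iff_odd]
      intro h5
      have : Fact (Nat.Prime 2) := ⟨Nat.prime_two⟩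
      obtain ⟨x, hx⟩ := exists_prime_addOrderOf_dvd_card (G := H) 2
        (by rw [hN]; exact h5.two_dvd.mul_right _)
      have := AddMonoid.addOrder_dvd_exponent x
      rw [hx, h] at this
      omega
    refine lower_div hm hN hn hp b5 b3 b4 ?_
    rw [h]
    by_cases h5 : p % m + 1 = m
    · exact Or.inr ⟨(by decide : Odd (5 * 1)).mul (b9 hodd h5), by omega⟩
    · omega
  · exact lower_seven hm hN hn hp b5 b3 b4 (by omega)
  · refine lower_div hm hN hn hp b5 b3 b4 ?_
    rw [h]
    exact Or.inr ⟨(by decide : Odd (3 * 1)).mul (b9 (h' ▸ by decide) (by omega)), by omega⟩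

lemma modEq_one {m : ℕ} (n : ℕ) : n ≠ 0 → (∀ p, p.Prime → p ∣ n → p ≡ 1 [MOD m]) →
    n ≡ 1 [MOD m] := by
  induction n using induction_on_primes with
  | zero => simp
  | one => exact fun _ _ => rfl
  | prime_mul p a h1 ih =>
    intro h2 h3
    exact (h3 p h1 (dvd_mul_right _ _)).mul (ih (by rintro rfl; simp at h2)
      fun q h4 h5 => h3 q h4 (h5.mul_left _))

lemma lower_comp (hm : 2 ≤ m) (hN : Fintype.card H = m * AddMonoid.exponent H) (hn : 1 < n)
    (hp : ∀ p, p.Prime → p ∣ n → 30 * Fintype.card H ^ 5 < p) (h1 : AddMonoid.exponent H ≤ m)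
    (h2 : ¬ (AddMonoid.exponent H).Prime) (h3 : AddMonoid.exponent H ≠ 4)
    (h4 : AddMonoid.exponent H ≠ 6) :
    AddMonoid.exponent H * n + m ≤ tauHat (H × ZMod n) (AddMonoid.exponent H * n) := by
  have he := two_le_exp hm hN
  by_cases h5 : ∀ p, p.Prime → p ∣ n → p ≡ 1 [MOD m]
  swap
  · push Not at h5
    obtain ⟨p, p1, p2, p3⟩ := h5
    refine lower_prime hm hN hn hp p1 p2 p3 (Or.inr (Or.inr (Or.inl ?_)))
    by_contra h6
    generalize AddMonoid.exponent H = e at *
    have : e < 7 := by omega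
    interval_cases e <;> simp_all (config := { decide := true })
  obtain ⟨l, f, l1, l2, l3⟩ : ∃ l f, 2 ≤ l ∧ l ≤ f ∧ AddMonoid.exponent H = l * f := by
    obtain ⟨a, b, a1, a2, a3⟩ := (Nat.not_prime_iff_exists_mul_eq he).1 h2
    have : 2 ≤ a := by
      by_contra h
      have : a = 0 ∨ a = 1 := by omega
      rcases this with rfl | rfl <;> omega
    have : 2 ≤ b := by
      by_contra h
      have : b = 0 ∨ b = 1 := by omega
      rcases this with rfl | rfl <;> omega
    rcases le_total a b with h | h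
    · exact ⟨a, b, by omega, h, a3.symm⟩
    · exact ⟨b, a, by omega, h, by rw [← a3, mul_comm]⟩
  have b1 := big_le hp dvd_rfl (by omega) (by omega)
  have b2 := small_lt hm hN
  have b3 : l < m := by nlinarith
  have b4 : l * n % m = l := by
    have := (modEq_one n (by omega) h5).mul_left l
    rwa [Nat.ModEq, mul_one, Nat.mod_eq_of_lt b3] at this
  refine lower_div hm hN hn hp (f := f) (d := l * n) (by rw [l3]; ring) (by nlinarith) (by omega)
    (Or.inl ?_)
  rw [b4]
  rw [l3] at h1 h3 h4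
  obtain ⟨ρ, rfl⟩ := Nat.exists_eq_add_of_le b3.le
  rw [Nat.add_sub_cancel_left]
  rcases Nat.lt_or_ge f 4 with h | h
  · interval_cases f <;> interval_cases l <;> omega
  · nlinarith

lemma lower_two (hm : 3 ≤ m) (hN : Fintype.card H = m * AddMonoid.exponent H) (hn : 1 < n)
    (hp : ∀ p, p.Prime → p ∣ n → 30 * Fintype.card H ^ 5 < p)
    (h1 : 2 * m - 1 ∣ AddMonoid.exponent H) :
    AddMonoid.exponent H * n + (2 * m - 3) ≤ tauHat (H × ZMod n) (AddMonoid.exponent H * n) := by
  classical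
  have : NeZero n := ⟨by omega⟩
  have : NeZero (2 * m - 1) := ⟨by omega⟩
  have he := two_le_exp (by omega) hN
  obtain ⟨c, hc⟩ := h1
  have c0 : 0 < c := Nat.pos_of_ne_zero (by rintro rfl; omega)
  have b1 := big_le hp dvd_rfl (by omega) (by omega)
  have b2 := small_lt (by omega) hN
  have b3 : c * n * (2 * m - 1) = AddMonoid.exponent H * n := by rw [hc]; ring
  obtain ⟨⟨φ, hφ⟩, h3⟩ := exists_quot (by omega) hN hp b3
  have b4 : 4 * m ≤ c * n := by nlinarith
  have b5 : c * n ≤ m * (c * n) := Nat.le_mul_of_pos_left _ (by omega)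
  have b6 : c * n * (2 * m - 1) + c * n = 2 * (m * (c * n)) := by
    obtain ⟨m', rfl⟩ : ∃ m', m = m' + 1 := ⟨m - 1, by omega⟩
    rw [show 2 * (m' + 1) - 1 = 2 * m' + 1 by omega]
    ring
  exact le_tauHat (lower_wide φ hφ h3 (j := 1) (i := 0) (Y := c * n - (2 * m - 3)) (by omega)
    (by omega) (by omega) (by omega) (by omega) (by omega))

end

lemma rank_two {m k : ℕ} (hm : 2 ≤ m) (hk : 1 < k) (hp : ∀ p, p.Prime → p ∣ k → 30 * m ^ 10 < p)
    (h : ¬ (m.Prime ∧ Odd m ∧ ∀ p, p.Prime → p ∣ k → p ≡ 1 [MOD m])) :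
    tauHat (ZMod m × ZMod (m * k)) (m * k) = m * k + m := by
  have : NeZero m := ⟨by omega⟩
  have : NeZero (m * k) := ⟨by positivity⟩
  have he : AddMonoid.exponent (ZMod m × ZMod m) = m := by
    rw [AddMonoid.exponent_prod, ZMod.exponent, lcm_eq_nat_lcm, Nat.lcm_self]
  have hc : Fintype.card (ZMod m × ZMod m) = m * m := by rw [Fintype.card_prod, ZMod.card]
  have hN : Fintype.card (ZMod m × ZMod m) = m * AddMonoid.exponent (ZMod m × ZMod m) := by
    rw [he, hc]
  have hp' : ∀ p, p.Prime → p ∣ k → 30 * Fintype.card (ZMod m × ZMod m) ^ 5 < p := by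
    intro p h1 h2
    rw [hc]
    exact lt_of_eq_of_lt (by ring) (hp p h1 h2)
  have hco : m.Coprime k := coprime_small hp' (by omega) (by rw [hc]; nlinarith)
  have E : ZMod m × ZMod (m * k) ≃+ (ZMod m × ZMod m) × ZMod k :=
    ((AddEquiv.refl _).prodCongr (ZMod.chineseRemainder hco).toAddEquiv).trans
      AddEquiv.prodAssoc.symm
  have h1 := upper_main hm hN hk hp' le_rfl (by omega) (Or.inl he.le)
  rw [he, ← tauHat_congr E] at h1
  refine le_antisymm h1 ?_
  rcases Nat.even_or_odd' m with ⟨a, ha | ha⟩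
  · obtain ⟨b, hb⟩ : Odd k := by
      have := coprime_small hp' (x := 2) (by omega) (by rw [hc]; nlinarith)
      exact Nat.coprime_two_left.1 this
    subst ha hb
    exact le_tauHat (lower_boundary (by omega))
  rw [tauHat_congr E]
  by_cases h2 : m.Prime
  · have h3 : ¬ ∀ p, p.Prime → p ∣ k → p ≡ 1 [MOD m] := fun h3 => h ⟨h2, ⟨a, ha⟩, h3⟩
    push Not at h3
    obtain ⟨p, p1, p2, p3⟩ := h3
    have := lower_prime hm hN hk hp' p1 p2 p3 (by rw [he]; omega)
    rwa [he] at this
  · have := lower_comp hm hN hk hp' he.le (by rwa [he]) (by omega) (by omega)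
    rwa [he] at this

end Pool.Agent.MP_f9a021_co

end
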