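import Pool.Agent.Mg.Ff9a021.G91b7a1
import Pool.Agent.Mg.Ff9a021.G4a7582

section

/-! The structure theorem. -/

open Finset

set_option linter.unusedSectionVars false

namespace Pool.Agent.MP_f9a021_co.GT

variable {G : Type*} [AddCommGroup G] [Fintype G] [DecidableEq G] {n : ℕ} [NeZero n]

/-- Most of `A` lies in a short progression of cosets, and the position sums avoid the period. -/
def Str (n η c : ℕ) (A : Finset G) : Prop :=
  ∃ (L : AddSubgroup G) (e p : G) (W : Finset G) (y : G → ℤ) (n' B : ℕ) (β : ℤ), W ⊆ A ∧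
    A.card ≤ W.card + c * η ∧ (∀ x ∈ W, x - p - y x • e ∈ L) ∧ (∀ x ∈ W, |y x| ≤ B) ∧
    (∀ α : ℤ, (W.filter (fun x => y x = α)).card ≤ n + 5 * η) ∧ n' ≤ n ∧ n ≤ n' + η ∧
    (∀ α : ℤ, |α| ≤ B → |β - ((n : ℤ) - n') * α| ≤ η) ∧
    ∀ S ⊆ W, S.card = n' → ∀ k : ℤ,
      2 * (B : ℤ) < |∑ x ∈ S, y x + β - k * (addOrderOf (e : G ⧸ L) : ℕ)|

lemma short_words {Q : Type*} [AddCommGroup Q] {D : Set (Q × ℤ)} (h0 : (0 : Q × ℤ) ∈ D)
    (hneg : ∀ d ∈ D, -d ∈ D) {δ : Q × ℤ} (hδ : δ ∈ D) (hδ0 : δ.2 ≠ 0) {b : ℕ}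
    (hb : ∀ d ∈ D, |d.2| ≤ b) (Y : Finset (Q × ℤ))
    (hY : ∀ γ ∈ AddSubgroup.closure D, 0 ≤ γ.2 → γ.2 ≤ b → γ ∈ Y) {c J : ℕ}
    (hJ : Y.card + (c + Y.card * b) ≤ J) (τ : Q × ℤ) (hτ : τ ∈ AddSubgroup.closure D)
    (hc : |τ.2| ≤ c) : Wd D J τ := by
  obtain ⟨k, hk⟩ := words h0 hneg δ Y (fun γ hγ => ⟨γ.2 / δ.2, hY _
    (AddSubgroup.sub_mem _ hγ (AddSubgroup.zsmul_mem _ (AddSubgroup.subset_closure hδ) _)) (by
      have := Int.emod_nonneg γ.2 hδ0
      rw [Int.emod_def] at this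
      simpa [mul_comm] using this) (by
      have := (Int.emod_lt_abs γ.2 hδ0).le.trans (hb δ hδ)
      rw [Int.emod_def] at this
      simpa [mul_comm] using this)⟩) τ hτ
  have h1 := Wd.bound (AddMonoidHom.snd Q ℤ) hb _ _ hk
  have h2 := hk.add _ _ (Wd.zsmul hδ (hneg δ hδ) k)
  rw [sub_add_cancel] at h2
  refine h2.mono h0 (le_trans (Nat.add_le_add_left ?_ _) hJ)
  have h3 : |τ.2 - k * δ.2| ≤ Y.card * b := by simpa using h1
  have h4 : |k| ≤ |k * δ.2| := by
    rw [abs_mul]; exact le_mul_of_one_le_right (abs_nonneg _) (Int.one_le_abs hδ0)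
  have h5 : |k * δ.2| ≤ c + Y.card * b := by
    rw [abs_le] at *; constructor <;> linarith [h3.1, h3.2, hc.1, hc.2]
  have h6 := h4.trans h5
  rw [Int.abs_eq_natAbs] at h6
  exact_mod_cast h6

lemma stage3 (hG : ∀ x : G, n • x = 0) {l η : ℕ} (hl : 2000 ≤ l)
    (hn : l ^ 40 ≤ n) (hη : η = (n / l ^ 5 + 1) * l ^ 4) (φ : G →+ ZMod n) (a : G) (Z : Finset G)
    (hZ : ∀ x ∈ Z, |(φ (x - a)).valMinAbs| ≤ (l ^ 5 : ℕ)) (hZc : n + 79 * η ≤ Z.card)
    (hlev : ∀ z : ℤ, (Z.filter (fun x => (φ (x - a)).valMinAbs = z)).card ≤ n + 5 * η)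
    (hX : ∀ X : Finset G, (∀ x ∈ X, |(φ x).valMinAbs| ≤ (2 * l ^ 5 : ℕ)) →
      X.card ≤ 16 * l ^ 5 * n)
    (L : AddSubgroup G) (hL : L ≤ φ.ker) (A : Finset G) (hA : A ⊆ Z)
    (hAc : n ≤ A.card * (6 * l ^ 5)) (hd : ∀ x ∈ A, ∀ x' ∈ A, x - x' ∈ L) {T : ℕ}
    (hT : T ≤ l ^ 16) (P : Finset G) (hP : P ⊆ A) (hPc : P.card = 2 * T) (s : G)
    (hF : Fill P T s L) (hf : ∀ U ⊆ Z, U.card = n → ∑ x ∈ U, x ≠ 0) : Str n η 1 Z := by
  classical
  obtain ⟨e1, e2, e3⟩ := eta_facts hl hn hη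
  have e8 : η * 2000 ≤ η * l := Nat.mul_le_mul_left _ hl
  set π := QuotientAddGroup.mk' L with hπ
  set φb : G ⧸ L →+ ZMod n := QuotientAddGroup.lift L φ (fun x hx => hL hx) with hφb
  have hφπ : ∀ x, φb (π x) = φ x := fun x => rfl
  set ι : G ⧸ L → (G ⧸ L) × ℤ := fun q => (q, (φb q).valMinAbs) with hι
  set κ : G → (G ⧸ L) × ℤ := fun x => ι (π (x - a)) with hκ
  have hκ1 : ∀ x, (κ x).1 = π (x - a) := fun x => rfl
  have hκ2 : ∀ x, (κ x).2 = (φ (x - a)).valMinAbs := fun x => rfl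
  set X := univ.filter (fun x : G => |(φ x).valMinAbs| ≤ (2 * l ^ 5 : ℕ)) with hXd
  set Y := (X.image π).image ι with hYd
  have hYc : Y.card ≤ l ^ 11 := by
    have h1 := card_image_quot L X (fun x hx k hk => by
      have hk' : φ k = 0 := hL hk
      simpa [hXd, hk'] using hx)
    have h2 := hX X (fun x hx => (Finset.mem_filter.1 hx).2)
    have h3 := card_le_of_diff L A hd
    have h4 : Nat.card L * (X.image π).card ≤ Nat.card L * (96 * l ^ 10) :=
      calc _ ≤ 16 * l ^ 5 * n := h1.trans h2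
        _ ≤ 16 * l ^ 5 * (Nat.card L * (6 * l ^ 5)) :=
          Nat.mul_le_mul_left _ (hAc.trans (Nat.mul_le_mul_right _ h3))
        _ = _ := by ring
    have h5 := Nat.le_of_mul_le_mul_left h4 Nat.card_pos
    exact Finset.card_image_le.trans (h5.trans (pw hl 96 10 11 (by norm_num) (by norm_num)))
  have hκY : ∀ x ∈ Z, κ x ∈ Y := fun x hx =>
    Finset.mem_image_of_mem _ (Finset.mem_image_of_mem _ (Finset.mem_filter.2
      ⟨Finset.mem_univ _, (hZ x hx).trans (by push_cast; have : (0 : ℤ) ≤ l ^ 5 := by positivity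
                                              linarith)⟩))
  obtain ⟨J, hJ⟩ : ∃ J, J = l ^ 17 := ⟨_, rfl⟩
  set C := Y.filter (fun c => 2 * J ≤ ((Z \ P).filter (fun x => κ x = c)).card) with hC
  set H := (Z \ P).filter (fun x => κ x ∈ C) with hH
  have hHZ : H ⊆ Z := (Finset.filter_subset _ _).trans Finset.sdiff_subset
  have hCJ : C.card * J ≤ l ^ 28 := by
    rw [hJ, show l ^ 28 = l ^ 11 * l ^ 17 by ring]
    exact Nat.mul_le_mul_right _ ((Finset.card_filter_le _ _).trans hYc)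
  have hHc : Z.card ≤ H.card + (2 * T + 2 * l ^ 28) := by
    have h1 : (Z \ P).card + P.card = Z.card := Finset.card_sdiff_add_card_eq_card (hP.trans hA)
    have h2 := Finset.card_filter_add_card_filter_not (s := Z \ P) (fun x => κ x ∈ C)
    have h3 := Finset.card_le_mul_card_image (f := κ) ((Z \ P).filter (fun x => ¬ κ x ∈ C)) (2 * J)
      (fun c hc => by
        obtain ⟨x, hx, rfl⟩ := Finset.mem_image.1 hc
        obtain ⟨x1, x2⟩ := Finset.mem_filter.1 hx
        rw [hC, Finset.mem_filter, not_and, not_le] at x2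
        refine le_trans (Finset.card_le_card ?_) (x2 (hκY x (Finset.sdiff_subset x1))).le
        exact Finset.filter_subset_filter _ (Finset.filter_subset _ _))
    have h4 : (((Z \ P).filter (fun x => ¬ κ x ∈ C)).image κ).card ≤ l ^ 11 :=
      (Finset.card_le_card (Finset.image_subset_iff.2 fun x hx =>
        hκY x (Finset.sdiff_subset (Finset.filter_subset _ _ hx)))).trans hYc
    have h5 : 2 * J * l ^ 11 = 2 * l ^ 28 := by rw [hJ]; ring
    have h6 := h3.trans (Nat.mul_le_mul_left _ h4)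
    rw [← hH] at h2
    omega
  have hfib : ∀ c ∈ C, 2 * J ≤ (H.filter (fun x => κ x = c)).card := by
    intro c hc
    refine (Finset.mem_filter.1 hc).2.trans (Finset.card_le_card fun x hx => ?_)
    obtain ⟨x1, x2⟩ := Finset.mem_filter.1 hx
    exact Finset.mem_filter.2 ⟨Finset.mem_filter.2 ⟨x1, x2 ▸ hc⟩, x2⟩
  obtain ⟨R, r1, r2, r3⟩ := reserve κ H J C (fun c hc => by have := hfib c hc; omega)
  obtain ⟨R', r1', r2', r3'⟩ := reserve κ (H \ R) J C (fun c hc => by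
    have h1 := hfib c hc
    have h2 := r3 c hc
    have h3 : H.filter (fun x => κ x = c) ⊆
        (H \ R).filter (fun x => κ x = c) ∪ R.filter (fun x => κ x = c) := by
      rw [← Finset.filter_union]
      exact Finset.filter_subset_filter _ (Finset.subset_union_left.trans
        (Finset.sdiff_union_self_eq_union).ge)
    have h4 := (Finset.card_le_card h3).trans (Finset.card_union_le _ _)
    omega)
  have b1 := pw hl 3 16 28 (by norm_num) (by norm_num)
  have b2 := pw hl 10 28 39 (by norm_num) (by norm_num)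
  have b3 := pw hl 1 16 17 (by norm_num) (by norm_num)
  obtain ⟨p, hp, hpP⟩ : ∃ p ∈ H, ∀ x ∈ P, x - p ∈ L := by
    have h1 : (A \ P).card + P.card = A.card := Finset.card_sdiff_add_card_eq_card hP
    have h2 : 5 * l ^ 17 ≤ A.card := by
      refine Nat.le_of_mul_le_mul_right ?_ (show 0 < 6 * l ^ 5 by positivity)
      have := pw hl 30 22 40 (by norm_num) (by norm_num)
      rw [show 5 * l ^ 17 * (6 * l ^ 5) = 30 * l ^ 22 by ring]; omega
    have h3 : 0 < l ^ 17 := by positivity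
    obtain ⟨p, hp⟩ : (A \ P).Nonempty := Finset.card_pos.1 (by omega)
    have hp' := Finset.sdiff_subset_sdiff hA subset_rfl hp
    refine ⟨p, Finset.mem_filter.2 ⟨hp', Finset.mem_filter.2 ⟨hκY p (Finset.sdiff_subset hp'),
      le_trans (by omega) (Finset.card_le_card (s := A \ P) fun x hx => ?_)⟩⟩,
      fun x hx => hd x (hP hx) p (Finset.sdiff_subset hp)⟩
    refine Finset.mem_filter.2 ⟨Finset.sdiff_subset_sdiff hA subset_rfl hx, ?_⟩
    have : π (x - a) = π (p - a) := by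
      rw [← sub_eq_zero, ← map_sub, sub_sub_sub_cancel_right]
      exact (QuotientAddGroup.eq_zero_iff _).2
        (hd x (Finset.sdiff_subset hx) p (Finset.sdiff_subset hp))
    simp only [hκ, this]
  set D : Set ((G ⧸ L) × ℤ) := {d | ∃ u ∈ H, ∃ u' ∈ H, d = κ u - κ u'} with hD
  have hD0 : (0 : (G ⧸ L) × ℤ) ∈ D := ⟨p, hp, p, hp, (sub_self _).symm⟩
  have hDn : ∀ d ∈ D, -d ∈ D := by
    rintro _ ⟨u, hu, u', hu', rfl⟩; exact ⟨u', hu', u, hu, neg_sub _ _⟩
  have hDb : ∀ d ∈ D, |d.2| ≤ (2 * l ^ 5 : ℕ) := by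
    rintro _ ⟨u, hu, u', hu', rfl⟩
    have h1 := hZ u (hHZ hu)
    have h2 := hZ u' (hHZ hu')
    rw [Prod.snd_sub, hκ2, hκ2]
    push_cast at h1 h2 ⊢
    rw [abs_le] at *
    constructor <;> linarith [h1.1, h1.2, h2.1, h2.2]
  set Δ := AddSubgroup.closure D with hΔ
  have hΔφ : ∀ γ ∈ Δ, φb γ.1 = (γ.2 : ZMod n) := by
    intro γ hγ
    induction hγ using AddSubgroup.closure_induction with
    | mem x hx =>
      obtain ⟨u, -, u', -, rfl⟩ := hx
      simp only [Prod.fst_sub, Prod.snd_sub, hκ1, hκ2, map_sub φb, hφπ]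
      push_cast; rfl
    | zero => simp
    | add x y _ _ h1 h2 => simp [h1, h2]
    | neg x _ h1 => simp [h1]
  obtain ⟨u₀, hu₀, hne⟩ : ∃ u ∈ H, (κ u).2 ≠ (κ p).2 := by
    by_contra hc
    push Not at hc
    have h1 := hlev (κ p).2
    have h2 : H ⊆ Z.filter (fun x => (φ (x - a)).valMinAbs = (κ p).2) :=
      fun x hx => Finset.mem_filter.2 ⟨hHZ hx, hc x hx⟩
    have h3 := Finset.card_le_card h2
    have h4 : 0 < l ^ 39 := by positivity
    omega
  have hδ : κ u₀ - κ p ∈ D := ⟨u₀, hu₀, p, hp, rfl⟩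
  have hδ0 : (κ u₀ - κ p).2 ≠ 0 := sub_ne_zero.2 hne
  have hW : ∀ τ ∈ Δ, |τ.2| ≤ (8 * l ^ 10 : ℕ) → Wd D J τ := by
    refine short_words hD0 hDn hδ hδ0 hDb Y (fun γ hγ g1 g2 => ?_) ?_
    · obtain ⟨x, hx⟩ := QuotientAddGroup.mk'_surjective L γ.1
      have h1 : (φb γ.1).valMinAbs = γ.2 := by
        rw [ZMod.valMinAbs_spec]
        have h2 : ((4 * l ^ 5 : ℕ) : ℤ) ≤ n := by
          exact_mod_cast (pw hl 4 5 40 (by norm_num) (by norm_num)).trans hn
        have h3 : (0 : ℤ) < n := by exact_mod_cast NeZero.pos n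
        push_cast at h2 g2
        exact ⟨hΔφ γ hγ, by linarith, by linarith⟩
      refine Finset.mem_image.2 ⟨γ.1, Finset.mem_image.2 ⟨x, Finset.mem_filter.2
        ⟨Finset.mem_univ _, ?_⟩, hx⟩, Prod.ext rfl h1⟩
      rw [← hφπ, hπ, hx, h1, abs_of_nonneg g1]; exact g2
    · have h1 : Y.card * (2 * l ^ 5) ≤ 2 * l ^ 16 := by
        rw [show 2 * l ^ 16 = l ^ 11 * (2 * l ^ 5) by ring]; exact Nat.mul_le_mul_right _ hYc
      have h2 := pw hl 8 10 16 (by norm_num) (by norm_num)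
      have h3 := pw hl 1 11 16 (by norm_num) (by norm_num)
      have h4 := pw hl 4 16 17 (by norm_num) (by norm_num)
      omega
  obtain ⟨g, hg⟩ := Int.subgroup_cyclic (Δ.map (AddMonoidHom.snd _ _))
  have hgd : ∀ γ ∈ Δ, γ.2 / g * g = γ.2 := by
    intro γ hγ
    have h1 : γ.2 ∈ Δ.map (AddMonoidHom.snd _ _) := ⟨γ, hγ, rfl⟩
    rw [hg, AddSubgroup.mem_closure_singleton] at h1
    obtain ⟨k, hk⟩ := h1
    exact Int.ediv_mul_cancel ⟨k, by rw [← hk, smul_eq_mul, mul_comm]⟩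
  obtain ⟨ε, hε, hεg⟩ : g ∈ Δ.map (AddMonoidHom.snd _ _) := by
    rw [hg]; exact AddSubgroup.subset_closure rfl
  have hεg' : ε.2 = g := hεg
  have hg0 : g ≠ 0 := by
    rintro rfl
    have := hgd _ (AddSubgroup.subset_closure hδ)
    rw [mul_zero] at this
    exact hδ0 this.symm
  have hgb : |g| ≤ 2 * l ^ 5 := by
    have h1 := hgd _ (AddSubgroup.subset_closure hδ)
    have h2 := hDb _ hδ
    have h3 : (κ u₀ - κ p).2 / g ≠ 0 := fun h => hδ0 (by rw [← h1, h, zero_mul])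
    rw [← h1, abs_mul] at h2
    push_cast at h2
    exact (le_mul_of_one_le_left (abs_nonneg _) (Int.one_le_abs h3)).trans h2
  obtain ⟨e, he⟩ := QuotientAddGroup.mk'_surjective L ε.1
  set L' := Δ.comap ((AddMonoidHom.inl (G ⧸ L) ℤ).comp π) with hL'
  have hL'm : ∀ x, x ∈ L' ↔ (π x, (0 : ℤ)) ∈ Δ := fun x => Iff.rfl
  set y : G → ℤ := fun x => (κ x - κ p).2 / g with hy
  have hmem : ∀ x ∈ H, κ x - κ p ∈ Δ := fun x hx => AddSubgroup.subset_closure ⟨x, hx, p, hp, rfl⟩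
  have hyg : ∀ x ∈ H, y x * g = (κ x - κ p).2 := fun x hx => hgd _ (hmem x hx)
  have hyb : ∀ x ∈ H, |y x| ≤ (2 * l ^ 5 : ℕ) := by
    intro x hx
    have h2 := hDb _ ⟨x, hx, p, hp, rfl⟩
    rw [← hyg x hx, abs_mul] at h2
    exact (le_mul_of_one_le_right (abs_nonneg _) (Int.one_le_abs hg0)).trans h2
  have hκp : ∀ x, (κ x - κ p).1 = π (x - p) := fun x => by
    rw [Prod.fst_sub, hκ1, hκ1, ← map_sub, sub_sub_sub_cancel_right]
  have hWH : (H \ R) \ R' ⊆ H := Finset.sdiff_subset.trans Finset.sdiff_subset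
  have hRT : R.card + T ≤ 2 * l ^ 28 := by omega
  refine ⟨L', e, p, (H \ R) \ R', y, n - (R.card + T), 2 * l ^ 5, ∑ x ∈ R, y x, hWH.trans hHZ,
    ?_, fun x hx => ?_, fun x hx => hyb x (hWH hx), fun α => ?_, by omega, by omega,
    fun α hα => ?_, fun S hS hSc k => ?_⟩
  · have h1 : (H \ R).card + R.card = H.card := Finset.card_sdiff_add_card_eq_card r1
    have h2 : ((H \ R) \ R').card + R'.card = (H \ R).card :=
      Finset.card_sdiff_add_card_eq_card r1'
    omega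
  · rw [hL'm]
    have h1 := Δ.sub_mem (hmem x (hWH hx)) (Δ.zsmul_mem hε (y x))
    have h2 : κ x - κ p - y x • ε = (π (x - p - y x • e), 0) := by
      refine Prod.ext ?_ ?_
      · rw [Prod.fst_sub, hκp, map_sub π (x - p), map_zsmul, he]; rfl
      · rw [Prod.snd_sub, ← hyg x (hWH hx), Prod.smul_snd, hεg', smul_eq_mul, sub_self]
    rwa [h2] at h1
  · refine le_trans (Finset.card_le_card fun x hx => ?_) (hlev ((κ p).2 + α * g))
    obtain ⟨x1, x2⟩ := Finset.mem_filter.1 hx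
    refine Finset.mem_filter.2 ⟨hHZ (hWH x1), ?_⟩
    rw [← x2, hyg x (hWH x1), Prod.snd_sub, ← hκ2]; ring
  · rw [Nat.cast_sub (show R.card + T ≤ n by omega), sub_sub_cancel]
    have h1 : |∑ x ∈ R, y x| ≤ R.card * ((2 * l ^ 5 : ℕ) : ℤ) := by
      refine (Finset.abs_sum_le_sum_abs _ _).trans ?_
      rw [← nsmul_eq_mul]
      exact Finset.sum_le_card_nsmul _ _ _ fun x hx => hyb x (r1 hx)
    have h2 : |((R.card + T : ℕ) : ℤ) * α| ≤ (R.card + T : ℕ) * ((2 * l ^ 5 : ℕ) : ℤ) := by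
      rw [abs_mul, Nat.abs_cast]; exact mul_le_mul_of_nonneg_left hα (Nat.cast_nonneg _)
    have h3 : R.card * (2 * l ^ 5) + (R.card + T) * (2 * l ^ 5) ≤ η :=
      calc _ ≤ 2 * l ^ 28 * (2 * l ^ 5) + 2 * l ^ 28 * (2 * l ^ 5) := by gcongr; omega
        _ = 8 * l ^ 33 := by ring
        _ ≤ _ := (pw hl 8 33 39 (by norm_num) (by norm_num)).trans e3
    have h4 : (R.card : ℤ) * ((2 * l ^ 5 : ℕ) : ℤ) + (R.card + T : ℕ) * ((2 * l ^ 5 : ℕ) : ℤ) ≤ η := by
      exact_mod_cast h3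
    exact (abs_sub _ _).trans (by linarith)
  by_contra hk
  rw [not_lt] at hk
  set q := addOrderOf (e : G ⧸ L') with hq
  have hqΔ : ((0 : G ⧸ L), (q : ℤ) * g) ∈ Δ := by
    have h1 : q • e ∈ L' := by
      rw [← QuotientAddGroup.eq_zero_iff, QuotientAddGroup.mk_nsmul]
      exact addOrderOf_nsmul_eq_zero _
    have h2 := Δ.sub_mem (Δ.nsmul_mem hε q) ((hL'm _).1 h1)
    have h3 : q • ε - (π (q • e), 0) = (0, (q : ℤ) * g) := by
      refine Prod.ext ?_ ?_
      · rw [Prod.fst_sub, map_nsmul, he]; exact sub_self _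
      · rw [Prod.snd_sub, Prod.smul_snd, hεg', nsmul_eq_mul]; exact sub_zero _
    rwa [h3] at h2
  have hSH : S ⊆ H := hS.trans hWH
  set τ := k • ((0 : G ⧸ L), (q : ℤ) * g) - (∑ x ∈ S, (κ x - κ p) + ∑ x ∈ R, (κ x - κ p)) with hτ
  have hτΔ : τ ∈ Δ := Δ.sub_mem (Δ.zsmul_mem hqΔ k) (Δ.add_mem
    (Δ.sum_mem fun x hx => hmem x (hSH hx)) (Δ.sum_mem fun x hx => hmem x (r1 hx)))
  have hτ2 : τ.2 = -((∑ x ∈ S, y x + ∑ x ∈ R, y x - k * q) * g) := by
    rw [hτ, Prod.snd_sub, Prod.snd_add, Prod.snd_sum, Prod.snd_sum,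
      ← Finset.sum_congr rfl fun x hx => hyg x (hSH hx),
      ← Finset.sum_congr rfl fun x hx => hyg x (r1 hx), ← Finset.sum_mul, ← Finset.sum_mul,
      Prod.smul_snd, smul_eq_mul]
    ring
  obtain ⟨R₁, s1, s2, s3⟩ := realize κ H J R R' τ
    (Finset.disjoint_sdiff.mono_right r1') (fun u hu => (r3 _ (Finset.mem_filter.1 hu).2).ge)
    (fun u hu => (r3' _ (Finset.mem_filter.1 hu).2).ge) (hW τ hτΔ (by
      rw [hτ2, abs_neg, abs_mul]
      push_cast at hk ⊢
      calc _ ≤ 2 * (2 * (l : ℤ) ^ 5) * (2 * l ^ 5) :=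
            mul_le_mul hk hgb (abs_nonneg _) (by positivity)
        _ = _ := by ring))
  have hR₁ : R₁ ⊆ H := s1.trans (Finset.union_subset r1 (r1'.trans Finset.sdiff_subset))
  have hdis : Disjoint S R₁ := by
    refine Finset.disjoint_left.2 fun x hx hx' => ?_
    have := hS hx
    have := s1 hx'
    simp only [Finset.mem_sdiff, Finset.mem_union] at *
    tauto
  obtain ⟨U, u1, u2, u3⟩ := fill_core hG L P (S ∪ R₁) p s hpP hF (Finset.disjoint_left.2
    fun x hx => (Finset.mem_sdiff.1 (Finset.filter_subset _ _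
      (Finset.union_subset hSH hR₁ hx))).2) (by rw [Finset.card_union_of_disjoint hdis]; omega) (by
    rw [← QuotientAddGroup.eq_zero_iff, ← QuotientAddGroup.mk'_apply, ← hπ, map_sum,
      ← Finset.sum_congr rfl fun x _ => hκp x, ← Prod.fst_sum, Finset.sum_union hdis,
      Finset.sum_sub_distrib (s := R₁), s3, Finset.sum_const, s2, hτ,
      Finset.sum_sub_distrib (s := R), Finset.sum_const]
    simp only [Prod.fst_add, Prod.fst_sub, Prod.smul_fst, smul_zero]
    abel)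
  exact hf U (u1.trans (Finset.union_subset ((Finset.union_subset hSH hR₁).trans hHZ)
    (hP.trans hA))) u2 u3

theorem structure_thm (hsep : ∀ x : G, x ≠ 0 → ∃ φ : G →+ ZMod n, φ x ≠ 0) {l η : ℕ}
    (hl : 2000 ≤ l) (hn : l ^ 40 ≤ n) (hη : η = (n / l ^ 5 + 1) * l ^ 4)
    (hG : Nat.card G ≤ 2 ^ l) (hG' : Nat.card G ≤ n * n) (A : Finset G)
    (h1 : n + 100 * η ≤ A.card) (h2 : A.card ≤ 3 * n)
    (hf : ∀ U ⊆ A, U.card = n → ∑ x ∈ U, x ≠ 0) : Str n η 22 A := by
  classical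
  obtain ⟨e1, e2, e3⟩ := eta_facts hl hn hη
  have e8 : η * 2000 ≤ η * l := Nat.mul_le_mul_left _ hl
  have hG0 := nsmul_eq_zero_of_sep hsep
  obtain ⟨φ, a, Z, z1, z2, z3, x, hx, x', hx', hne⟩ := stage1 hsep hl hn hη hG A h1 h2 hf
  have hX : ∀ X : Finset G, (∀ x ∈ X, |(φ x).valMinAbs| ≤ (2 * l ^ 5 : ℕ)) →
      X.card ≤ 16 * l ^ 5 * n := by
    intro X hX
    have h0 : 0 < 4 * (2 * l ^ 5) := by positivity
    have k1 := arc_two ⊤ φ (show l ^ 5 ≤ 2 * l ^ 5 by omega) (z3 x hx) (z3 x' hx') hne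
      (AddSubgroup.mem_top _) (Nat.div_mul_le_self n (4 * (2 * l ^ 5))) 0 X
      (fun y hy => ⟨AddSubgroup.mem_top _, by rw [sub_zero]; exact hX y hy⟩)
    rw [AddSubgroup.card_top] at k1
    have k2 := Nat.lt_div_mul_add (a := n) h0
    have k3 : 1 ≤ n / (4 * (2 * l ^ 5)) := (Nat.le_div_iff_mul_le h0).2 (by
      have := pw hl 8 5 40 (by norm_num) (by norm_num); omega)
    have k4 : 4 * (2 * l ^ 5) ≤ n / (4 * (2 * l ^ 5)) * (4 * (2 * l ^ 5)) :=
      Nat.le_mul_of_pos_left _ k3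
    refine Nat.le_of_mul_le_mul_right ?_ (NeZero.pos n)
    calc X.card * n ≤ X.card * (2 * (n / (4 * (2 * l ^ 5)) * (4 * (2 * l ^ 5)))) :=
          Nat.mul_le_mul_left _ (by omega)
      _ = 16 * l ^ 5 * (X.card * (n / (4 * (2 * l ^ 5)))) := by ring
      _ ≤ 16 * l ^ 5 * (n * n) := Nat.mul_le_mul_left _ (k1.trans hG')
      _ = _ := by ring
  have hH : Nat.card φ.ker ≤ 16 * l ^ 5 * n := by
    rw [← card_filter_mem]
    refine hX _ fun y hy => ?_
    rw [(AddMonoidHom.mem_ker.1 (Finset.mem_filter.1 hy).2 : φ y = 0)]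
    simp
  set f : G → ℤ := fun x => (φ (x - a)).valMinAbs with hfd
  obtain ⟨z₀, -, hz₀⟩ := Finset.exists_max_image (Z.image f)
    (fun z => (Z.filter (fun x => f x = z)).card) ⟨f x, Finset.mem_image_of_mem _ hx⟩
  set V := Z.filter (fun x => f x = z₀) with hV
  have hmax : ∀ z, (Z.filter (fun x => f x = z)).card ≤ V.card := by
    intro z
    by_cases hz : z ∈ Z.image f
    · exact hz₀ z hz
    · rw [Finset.filter_false_of_mem fun y hy h => hz (Finset.mem_image.2 ⟨y, hy, h⟩)]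
      exact Nat.zero_le _
  have hVc : n ≤ V.card * (3 * l ^ 5) := by
    have k1 := Finset.card_le_mul_card_image (f := f) Z V.card hz₀
    have k2 : Z.image f ⊆ Finset.Icc (-((l ^ 5 : ℕ) : ℤ)) (l ^ 5 : ℕ) :=
      Finset.image_subset_iff.2 fun y hy => Finset.mem_Icc.2 (abs_le.1 (z3 y hy))
    have k3 := Finset.card_le_card k2
    rw [Int.card_Icc] at k3
    have k4 : 0 < l ^ 5 := by positivity
    have k5 : V.card * (Z.image f).card ≤ V.card * (3 * l ^ 5) :=
      Nat.mul_le_mul_left _ (by omega)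
    omega
  have hVZ : V ⊆ Z := Finset.filter_subset _ _
  obtain ⟨L, l1, A₁, a1, a2, a3, a4, T, hT, P, p1, p2, s, p3⟩ := stage2 hsep hl hn hη hG φ.ker hH V
    (fun y hy y' hy' => by
      have := ZMod.injective_valMinAbs
        ((Finset.mem_filter.1 hy).2.trans (Finset.mem_filter.1 hy').2.symm)
      rw [AddMonoidHom.mem_ker, ← sub_sub_sub_cancel_right y y' a, map_sub, this, sub_self])
    hVc ((Finset.card_le_card (hVZ.trans z1)).trans h2)
  have b1 := pw hl 1 16 39 (by norm_num) (by norm_num)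
  by_cases hc : n + 5 * η ≤ V.card
  · obtain ⟨U, u1, u2, u3⟩ := fill_done hG0 L A₁ a4 (by omega) (by omega) (NeZero.pos n) P p1 p2 s p3
    exact absurd u3 (hf U (u1.trans (a1.trans (hVZ.trans z1))) u2)
  obtain ⟨L', e, p, W, y, n', B, β, s1, s2, s3⟩ := stage3 hG0 hl hn hη φ a Z z3 (by omega)
    (fun z => (hmax z).trans (by omega)) hX L l1 A₁ (a1.trans hVZ)
    (hVc.trans (by rw [show A₁.card * (6 * l ^ 5) = 2 * A₁.card * (3 * l ^ 5) by ring]; gcongr))
    a4 hT P p1 p2 s p3 (fun U hU => hf U (hU.trans z1))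
  exact ⟨L', e, p, W, y, n', B, β, s1.trans z1, by omega, s3⟩

end Pool.Agent.MP_f9a021_co.GT

end

section

/-! Two adjacent nearly full levels. -/

open Finset

set_option linter.unusedSectionVars false

namespace Pool.Agent.MP_f9a021_co.GT

variable {α : Type*} [DecidableEq α]

lemma count3 (T : Finset α) (z : α → ℤ) (h : ∀ x ∈ T, 0 ≤ z x) :
    T.card = (T.filter (fun x => z x = 0)).card + (T.filter (fun x => z x = 1)).card +
      (T.filter (fun x => 2 ≤ z x)).card ∧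
    ((T.filter (fun x => z x = 1)).card : ℤ) + 2 * (T.filter (fun x => 2 ≤ z x)).card ≤
      ∑ x ∈ T, z x := by
  constructor
  · rw [Finset.card_eq_sum_ones, Finset.card_filter, Finset.card_filter, Finset.card_filter,
      ← Finset.sum_add_distrib, ← Finset.sum_add_distrib]
    refine Finset.sum_congr rfl fun x hx => ?_
    have := h x hx
    split_ifs <;> omega
  · rw [Finset.card_filter, Finset.card_filter]
    push_cast
    rw [Finset.mul_sum, ← Finset.sum_add_distrib]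
    refine Finset.sum_le_sum fun x hx => ?_
    have := h x hx
    split_ifs <;> omega

lemma no_mult (W : Finset α) (y : α → ℤ) {B n' : ℕ} {β q : ℤ} (hB : ∀ x ∈ W, |y x| ≤ B)
    (h : ∀ S ⊆ W, S.card = n' → ∀ k : ℤ, 2 * (B : ℤ) < |∑ x ∈ S, y x + β - k * q|)
    (S : Finset α) (hS : S ⊆ W) (hc : S.card = n') (S' : Finset α) (hS' : S' ⊆ W)
    (hc' : S'.card = n') (k : ℤ) :
    ¬ (∑ x ∈ S, y x + β ≤ k * q ∧ k * q ≤ ∑ x ∈ S', y x + β) := by
  rintro ⟨h1, h2⟩
  obtain ⟨T, t1, t2, t3⟩ := walk W y hB (Nat.cast_nonneg B) (k * q - β) S' hS' (by linarith) _ S hS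
    (hc.trans hc'.symm) rfl (by linarith)
  have := h T t1 (t2.trans hc') k
  rw [show ∑ x ∈ T, y x + β - k * q = ∑ x ∈ T, y x - (k * q - β) by ring] at this
  linarith

lemma lt_of_no_mult {a b q : ℤ} (hq : 0 < q) (h : ∀ k : ℤ, ¬ (a ≤ k * q ∧ k * q ≤ b)) :
    b - a < q := by
  by_contra hc
  have h1 := Int.ediv_mul_le b hq.ne'
  have h2 := Int.lt_ediv_add_one_mul_self b hq
  exact h (b / q) ⟨by linarith, h1⟩

lemma eq_of_dvd_of_lt {q n : ℕ} (h : q ∣ n) (hn : 0 < n) (h2 : n < 2 * q) : q = n := by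
  obtain ⟨c, rfl⟩ := h
  have h3 : c < 2 := by
    by_contra h; nlinarith
  have h4 : c ≠ 0 := by rintro rfl; simp at hn
  rw [show c = 1 by omega, mul_one]

lemma two_levels (W : Finset α) (y : α → ℤ) {B n n' η q : ℕ} {β : ℤ} (hq : q ∣ n) (hη0 : 0 < η)
    (hη : 1000 * η ≤ n) (hW : 2 * n ≤ W.card + 50 * η) (hB : ∀ x ∈ W, |y x| ≤ B)
    (hlev : ∀ a : ℤ, (W.filter (fun x => y x = a)).card ≤ n + 5 * η) (h1 : n' ≤ n)
    (h2 : n ≤ n' + η) (hβ : ∀ a : ℤ, |a| ≤ B → |β - ((n : ℤ) - n') * a| ≤ η)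
    (h : ∀ S ⊆ W, S.card = n' → ∀ k : ℤ, 2 * (B : ℤ) < |∑ x ∈ S, y x + β - k * q|) :
    q = n ∧ ∃ a : ℤ, 4 * n ≤ 5 * (W.filter (fun x => y x = a)).card ∧
      4 * n ≤ 5 * (W.filter (fun x => y x = a + 1)).card := by
  have hn0 : 0 < n := by omega
  have hq0 : 0 < q := Nat.pos_of_dvd_of_pos hq hn0
  have hqn : q ≤ n := Nat.le_of_dvd hn0 hq
  obtain ⟨s, hs⟩ : ∃ s, s + 50 * η = n := ⟨n - 50 * η, by omega⟩
  obtain ⟨W₀, w1, w2⟩ := Finset.exists_subset_card_eq (show n' + s ≤ W.card by omega)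
  obtain ⟨T, t1, t2, t3⟩ := bottom W₀ y s (by omega)
  have c1 : (W₀ \ T).card + T.card = W₀.card := Finset.card_sdiff_add_card_eq_card t1
  obtain ⟨T', t1', t2', t3'⟩ := bottom (W₀ \ T) (fun x => -y x) s (by omega)
  have c2 : ((W₀ \ T) \ T').card + T'.card = (W₀ \ T).card :=
    Finset.card_sdiff_add_card_eq_card t1'
  set M := (W₀ \ T) \ T' with hM
  obtain ⟨x₀, hx₀, hmax⟩ := Finset.exists_max_image T y (Finset.card_pos.1 (by omega))
  set a := y x₀ with ha
  have hup : ∀ x ∈ W₀ \ T, a ≤ y x := t3 x₀ hx₀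
  have hE := abs_le.1 (hβ a (hB x₀ (w1 (t1 hx₀))))
  obtain ⟨k1, k2⟩ := count3 T (fun x => a - y x) (fun x hx => sub_nonneg.2 (hmax x hx))
  obtain ⟨k1', k2'⟩ := count3 T' (fun x => y x - a) (fun x hx => sub_nonneg.2 (hup x (t1' hx)))
  have d1 : Disjoint T M := Finset.disjoint_sdiff.mono_right Finset.sdiff_subset
  have d2 : Disjoint T' M := Finset.disjoint_sdiff
  have d3 : Disjoint T T' := Finset.disjoint_sdiff.mono_right t1'
  have hMW : M ⊆ W := Finset.sdiff_subset.trans (Finset.sdiff_subset.trans w1)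
  have hTW : T ⊆ W := t1.trans w1
  have hTW' : T' ⊆ W := t1'.trans (Finset.sdiff_subset.trans w1)
  obtain ⟨c, hc⟩ := hq
  have hc' : (n : ℤ) = q * c := by exact_mod_cast hc
  have hno : ∀ k : ℤ, ¬ (-∑ x ∈ T, (a - y x) + ∑ x ∈ M, (y x - a) + (β - ((n : ℤ) - n') * a) ≤ k * q ∧
      k * q ≤ ∑ x ∈ T', (y x - a) + ∑ x ∈ M, (y x - a) + (β - ((n : ℤ) - n') * a)) := by
    intro k
    have := no_mult W y hB h (T ∪ M) (Finset.union_subset hTW hMW)
      (by rw [Finset.card_union_of_disjoint d1]; omega) (T' ∪ M) (Finset.union_subset hTW' hMW)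
      (by rw [Finset.card_union_of_disjoint d2]; omega) (k + c * a)
    rw [Finset.sum_union d1, Finset.sum_union d2] at this
    simp only [Finset.sum_sub_distrib, Finset.sum_const, nsmul_eq_mul, t2, t2']
    have e1 : (M.card : ℤ) = n' - s := by omega
    rw [e1]
    rintro ⟨l1, l2⟩
    have e2 : (k + c * a) * q = k * q + n * a := by rw [hc']; ring
    exact this ⟨by rw [e2]; linarith, by rw [e2]; linarith⟩
  have hlt := lt_of_no_mult (by exact_mod_cast hq0) hno
  have m0 : ∀ U ⊆ W, ∀ (P : α → Prop) [DecidablePred P] (b : ℤ), (∀ x, P x → y x = b) →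
      (U.filter P).card ≤ (W.filter (fun x => y x = b)).card := fun U hU P _ b hP =>
    Finset.card_le_card fun x hx => Finset.mem_filter.2
      ⟨hU (Finset.mem_filter.1 hx).1, hP x (Finset.mem_filter.1 hx).2⟩
  have m1 := m0 T hTW (fun x => a - y x = 0) a (fun x hx => by omega)
  have m2 := m0 T hTW (fun x => a - y x = 1) (a - 1) (fun x hx => by omega)
  have m3 := m0 T' hTW' (fun x => y x - a = 1) (a + 1) (fun x hx => by omega)
  by_cases hm : ∃ m ∈ M, a < y m
  · obtain ⟨m, m4, m5⟩ := hm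
    have : (T'.filter (fun x => y x - a = 0)).card = 0 := by
      rw [Finset.card_eq_zero, Finset.filter_eq_empty_iff]
      intro x hx
      have := t3' x hx m m4
      omega
    exact ⟨eq_of_dvd_of_lt ⟨c, hc⟩ hn0 (by omega), a, by omega, by omega⟩
  push Not at hm
  have hMa : ∀ m ∈ M, y m = a := fun m hm' =>
    le_antisymm (hm m hm') (hup m (Finset.sdiff_subset hm'))
  have hM0 : ∑ x ∈ M, (y x - a) = 0 :=
    Finset.sum_eq_zero fun x hx => by rw [hMa x hx, sub_self]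
  rw [hM0] at hno hlt
  have m6 : (T.filter (fun x => a - y x = 0)).card + (T'.filter (fun x => y x - a = 0)).card +
      M.card ≤ (W.filter (fun x => y x = a)).card := by
    rw [← Finset.card_union_of_disjoint (Finset.disjoint_filter_filter d3),
      ← Finset.card_union_of_disjoint (Finset.disjoint_union_left.2
        ⟨d1.mono_left (Finset.filter_subset _ _), d2.mono_left (Finset.filter_subset _ _)⟩)]
    refine Finset.card_le_card fun x hx => Finset.mem_filter.2 ?_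
    simp only [Finset.mem_union, Finset.mem_filter] at hx
    rcases hx with (h | h) | h
    · exact ⟨hTW h.1, by omega⟩
    · exact ⟨hTW' h.1, by omega⟩
    · exact ⟨hMW h, hMa x h⟩
  have m7 := hlev a
  have n0 := hno 0
  have n1 := hno 1
  have n2 := hno (-1)
  have hqn' : q = n := eq_of_dvd_of_lt ⟨c, hc⟩ hn0 (by omega)
  refine ⟨hqn', ?_⟩
  by_cases hh : (η : ℤ) ≤ ∑ x ∈ T', (y x - a)
  · exact ⟨a, by omega, by omega⟩
  · exact ⟨a - 1, by omega, by rw [sub_add_cancel]; omega⟩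

end Pool.Agent.MP_f9a021_co.GT

end

section

/-! The exact finish for two nearly full cosets. -/

open Finset

set_option linter.unusedSectionVars false

namespace Pool.Agent.MP_f9a021_co.GT

variable {G : Type*} [AddCommGroup G] [Fintype G] [DecidableEq G] {n : ℕ}

/-- The sums of the `i`-subsets of `A`. -/
def sums (A : Finset G) (i : ℕ) : Finset G := (powersetCard i A).image (fun S => ∑ x ∈ S, x)

lemma mem_sums {A : Finset G} {i : ℕ} {g : G} :
    g ∈ sums A i ↔ ∃ S ⊆ A, S.card = i ∧ ∑ x ∈ S, x = g := by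
  simp only [sums, Finset.mem_image, Finset.mem_powersetCard, and_assoc]

lemma sums_ge1 (A : Finset G) {i : ℕ} (h : i + 1 ≤ A.card) : i + 1 ≤ (sums A i).card := by
  obtain ⟨C, c1, c2⟩ := Finset.exists_subset_card_eq h
  rw [← c2]
  refine Finset.card_le_card_of_injOn (fun x => ∑ y ∈ C, y - x) (fun x hx => ?_)
    (fun x _ y _ h => sub_right_injective h)
  have hx' : x ∈ C := hx
  refine mem_sums.2 ⟨C.erase x, (Finset.erase_subset _ _).trans c1, ?_, ?_⟩
  · rw [Finset.card_erase_of_mem hx', c2]; rfl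
  · rw [← Finset.add_sum_erase _ _ hx']; abel

lemma sums_ge2 (A : Finset G) {i : ℕ} (h : i ≤ A.card) : A.card ≤ (sums A (i + 1)).card + i := by
  obtain ⟨C, c1, c2⟩ := Finset.exists_subset_card_eq h
  have h1 : (A \ C).card + C.card = A.card := Finset.card_sdiff_add_card_eq_card c1
  have h2 : (A \ C).card ≤ (sums A (i + 1)).card := by
    refine Finset.card_le_card_of_injOn (fun x => x + ∑ y ∈ C, y) (fun x hx => ?_)
      (fun x _ y _ h => add_right_cancel h)
    obtain ⟨x1, x2⟩ := Finset.mem_sdiff.1 hx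
    exact mem_sums.2 ⟨insert x C, Finset.insert_subset x1 c1,
      by rw [Finset.card_insert_of_notMem x2, c2], Finset.sum_insert x2⟩
  omega

lemma pigeon (L : AddSubgroup G) (X Y : Finset G) (u v t : G) (hX : ∀ x ∈ X, x - u ∈ L)
    (hY : ∀ y ∈ Y, y - v ∈ L) (ht : t - u - v ∈ L) (hc : Nat.card L < X.card + Y.card) :
    ∃ x ∈ X, ∃ y ∈ Y, x + y = t := by
  by_contra hne
  push Not at hne
  have h1 : ∀ x ∈ X ∪ Y.image (fun y => t - y), x - u ∈ L := by
    intro x hx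
    rcases Finset.mem_union.1 hx with h | h
    · exact hX x h
    · obtain ⟨y, hy, rfl⟩ := Finset.mem_image.1 h
      have := L.sub_mem ht (hY y hy)
      rwa [show t - u - v - (y - v) = t - y - u by abel] at this
  have h2 := card_le_of_diff L _ fun x hx x' hx' => by
    simpa using L.sub_mem (h1 x hx) (h1 x' hx')
  rw [Finset.card_union_of_disjoint, Finset.card_image_of_injective _ sub_right_injective] at h2
  · omega
  · rw [Finset.disjoint_right]
    intro x hx hx'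
    obtain ⟨y, hy, rfl⟩ := Finset.mem_image.1 hx
    exact hne _ hx' y hy (by abel)

lemma combine (hG : ∀ x : G, n • x = 0) (L : AddSubgroup G) (b e : G) (A₀ A₁ R : Finset G)
    (h0 : ∀ x ∈ A₀, x - b ∈ L) (h1 : ∀ x ∈ A₁, x - (b + e) ∈ L) (z : G → ℕ)
    (hR : ∀ x ∈ R, x - b - z x • e ∈ L) (d01 : Disjoint A₀ A₁) (d0 : Disjoint R A₀)
    (d1 : Disjoint R A₁) {i j : ℕ} (hc : i + j + R.card = n) (hz : j + ∑ x ∈ R, z x = n)
    (hp : Nat.card L < (sums A₀ i).card + (sums A₁ j).card) :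
    ∃ U ⊆ A₀ ∪ A₁ ∪ R, U.card = n ∧ ∑ x ∈ U, x = 0 := by
  obtain ⟨x, hx, y, hy, hxy⟩ := pigeon L (sums A₀ i) (sums A₁ j) (i • b) (j • (b + e))
    (-∑ x ∈ R, x) (fun x hx => by
      obtain ⟨S, s1, rfl, rfl⟩ := mem_sums.1 hx
      exact sum_sub_mem L S b fun x hx => h0 x (s1 hx)) (fun x hx => by
      obtain ⟨S, s1, rfl, rfl⟩ := mem_sums.1 hx
      exact sum_sub_mem L S _ fun x hx => h1 x (s1 hx)) (by
      have k1 := L.neg_mem (L.sum_mem hR)
      rw [Finset.sum_sub_distrib, Finset.sum_sub_distrib, Finset.sum_const,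
        Finset.sum_nsmul_assoc] at k1
      have k2 := hG b
      have k3 := hG e
      rw [← hc] at k2
      rw [← hz] at k3
      rwa [show -∑ x ∈ R, x - i • b - j • (b + e) =
        -(∑ x ∈ R, x - R.card • b - (∑ x ∈ R, z x) • e) - (i + j + R.card) • b -
          (j + ∑ x ∈ R, z x) • e by simp only [add_nsmul, nsmul_add]; abel, k2, k3, sub_zero,
        sub_zero]) hp
  obtain ⟨S, s1, s2, rfl⟩ := mem_sums.1 hx
  obtain ⟨S', s1', s2', rfl⟩ := mem_sums.1 hy
  have e1 : Disjoint S S' := d01.mono s1 s1'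
  have e2 : Disjoint (S ∪ S') R :=
    Finset.disjoint_union_left.2 ⟨(d0.mono_right s1).symm, (d1.mono_right s1').symm⟩
  refine ⟨S ∪ S' ∪ R, Finset.union_subset_union (Finset.union_subset_union s1 s1') subset_rfl,
    ?_, ?_⟩
  · rw [Finset.card_union_of_disjoint e2, Finset.card_union_of_disjoint e1]; omega
  · rw [Finset.sum_union e2, Finset.sum_union e1, hxy, neg_add_cancel]

lemma exists_sub_sum (z : G → ℕ) (d : ℕ) (O : Finset G) : (∀ x ∈ O, z x ≤ d) →
    d < ∑ x ∈ O, z x → ∃ R ⊆ O, d < ∑ x ∈ R, z x ∧ ∑ x ∈ R, z x ≤ 2 * d := by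
  induction O using Finset.induction_on with
  | empty => simp
  | insert a O ha ih =>
    intro h1 h2
    by_cases h : d < ∑ x ∈ O, z x
    · obtain ⟨R, r1, r2⟩ := ih (fun x hx => h1 x (Finset.mem_insert_of_mem hx)) h
      exact ⟨R, r1.trans (Finset.subset_insert _ _), r2⟩
    · have := h1 a (Finset.mem_insert_self _ _)
      exact ⟨_, subset_rfl, h2, by rw [Finset.sum_insert ha]; omega⟩

lemma side (hG : ∀ x : G, n • x = 0) (L : AddSubgroup G) (hL : Nat.card L = n) (b e : G)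
    (A₀ A₁ O : Finset G) (h0 : ∀ x ∈ A₀, x - b ∈ L) (h1 : ∀ x ∈ A₁, x - (b + e) ∈ L) (z : G → ℕ)
    (hO : ∀ x ∈ O, x - b - z x • e ∈ L ∧ 2 ≤ z x ∧ z x + A₁.card ≤ n) (d01 : Disjoint A₀ A₁)
    (d0 : Disjoint O A₀) (d1 : Disjoint O A₁) (c0 : 4 * n ≤ 5 * A₀.card)
    (c1 : 4 * n ≤ 5 * A₁.card) (c2 : n ≤ O.card + A₁.card) (c3 : 0 < O.card) :
    ∃ U ⊆ A₀ ∪ A₁ ∪ O, U.card = n ∧ ∑ x ∈ U, x = 0 := by
  have two : ∀ R ⊆ O, R.card * 2 ≤ ∑ x ∈ R, z x := fun R hR =>
    Finset.card_nsmul_le_sum R z 2 fun x hx => (hO x (hR hx)).2.1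
  obtain ⟨R, r1, r2, r3⟩ := exists_sub_sum z (n - A₁.card) O
    (fun x hx => by have := (hO x hx).2.2; omega) (by have := two O subset_rfl; omega)
  have r4 := two R r1
  obtain ⟨i, hi⟩ : ∃ i, i + 1 + R.card = ∑ x ∈ R, z x := ⟨∑ x ∈ R, z x - R.card - 1, by omega⟩
  obtain ⟨j, hj⟩ : ∃ j, j + ∑ x ∈ R, z x = n := ⟨n - ∑ x ∈ R, z x, by omega⟩
  have k0 := sums_ge2 A₀ (show i ≤ A₀.card by omega)
  have k1 := sums_ge1 A₁ (show j + 1 ≤ A₁.card by omega)
  obtain ⟨U, u1, u2⟩ := combine hG L b e A₀ A₁ R h0 h1 z (fun x hx => (hO x (r1 hx)).1) d01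
    (d0.mono_left r1) (d1.mono_left r1) (i := i + 1) (by omega) hj (by omega)
  exact ⟨U, u1.trans (Finset.union_subset_union subset_rfl r1), u2⟩

lemma full_sum (hG : ∀ x : G, n • x = 0) (hn : Odd n) (L : AddSubgroup G) (hL : Nat.card L = n)
    (c : G) (A : Finset G) (h : ∀ x ∈ A, x - c ∈ L) (hA : A.card = n) : ∑ x ∈ A, x = 0 := by
  classical
  have h1 : A = univ.filter (fun x => x - c ∈ L) := by
    refine Finset.eq_of_subset_of_card_le (fun x hx => by simpa using h x hx) ?_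
    rw [hA, ← hL]
    refine card_le_of_diff L _ fun x hx x' hx' => ?_
    simpa using L.sub_mem (Finset.mem_filter.1 hx).2 (Finset.mem_filter.1 hx').2
  have h2 : ∀ x ∈ A, c + c - x ∈ A := by
    intro x hx
    have := L.neg_mem (h x hx)
    rw [h1]
    rw [show -(x - c) = c + c - x - c by abel] at this
    simpa using this
  have h3 : ∑ x ∈ A, x = ∑ x ∈ A, (c + c - x) :=
    Finset.sum_nbij' (fun x => c + c - x) (fun x => c + c - x) h2 h2 (by simp) (by simp) (by simp)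
  rw [Finset.sum_sub_distrib, Finset.sum_const, hA, hG, zero_sub, eq_neg_iff_add_eq_zero] at h3
  obtain ⟨k, rfl⟩ := hn
  have h4 := hG (∑ x ∈ A, x)
  rwa [add_nsmul, mul_nsmul, two_nsmul, h3, nsmul_zero, zero_add, one_nsmul] at h4

lemma final (hG : ∀ x : G, n • x = 0) (L : AddSubgroup G) (hL : Nat.card L = n) (b e : G)
    (he : e ∉ L) (hz : ∀ x : G, ∃ z < n, x - b - z • e ∈ L) (A : Finset G)
    [DecidablePred (· ∈ L)] (c0 : 4 * n ≤ 5 * (A.filter (fun x => x - b ∈ L)).card)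
    (c1 : 4 * n ≤ 5 * (A.filter (fun x => x - (b + e) ∈ L)).card)
    (hA : (Odd n ∧ 2 * n ≤ A.card + 1) ∨ 2 * n + 1 ≤ A.card) :
    ∃ U ⊆ A, U.card = n ∧ ∑ x ∈ U, x = 0 := by
  choose z z1 z2 using hz
  set A₀ := A.filter (fun x => x - b ∈ L) with hA₀
  set A₁ := A.filter (fun x => x - (b + e) ∈ L) with hA₁
  have h0 : ∀ x ∈ A₀, x - b ∈ L := fun x hx => (Finset.mem_filter.1 hx).2
  have h1 : ∀ x ∈ A₁, x - (b + e) ∈ L := fun x hx => (Finset.mem_filter.1 hx).2
  have s0 : A₀ ⊆ A := Finset.filter_subset _ _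
  have s1 : A₁ ⊆ A := Finset.filter_subset _ _
  have d01 : Disjoint A₀ A₁ := Finset.disjoint_left.2 fun x hx hx' =>
    he (by simpa using L.sub_mem (h0 x hx) (h1 x hx'))
  have a0 : A₀.card ≤ n := hL ▸ card_le_of_diff L _ fun x hx x' hx' => by
    simpa using L.sub_mem (h0 x hx) (h0 x' hx')
  have a1 : A₁.card ≤ n := hL ▸ card_le_of_diff L _ fun x hx x' hx' => by
    simpa using L.sub_mem (h1 x hx) (h1 x' hx')
  set O := A \ (A₀ ∪ A₁) with hO
  have sO : O ⊆ A := Finset.sdiff_subset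
  have d0 : Disjoint O A₀ := Finset.sdiff_disjoint.mono_right Finset.subset_union_left
  have d1 : Disjoint O A₁ := Finset.sdiff_disjoint.mono_right Finset.subset_union_right
  have cO : O.card + (A₀.card + A₁.card) = A.card := by
    rw [← Finset.card_union_of_disjoint d01]
    exact Finset.card_sdiff_add_card_eq_card (Finset.union_subset s0 s1)
  have z3 : ∀ x ∈ O, 2 ≤ z x := by
    intro x hx
    have := z2 x
    by_contra hc
    rcases (show z x = 0 ∨ z x = 1 by omega) with h | h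
    · rw [h, zero_nsmul, sub_zero] at this
      exact Finset.disjoint_left.1 d0 hx (Finset.mem_filter.2 ⟨sO hx, this⟩)
    · rw [h, one_nsmul, sub_sub] at this
      exact Finset.disjoint_left.1 d1 hx (Finset.mem_filter.2 ⟨sO hx, this⟩)
  by_cases hm : ∃ x ∈ O, n < z x + A₁.card ∧ z x ≤ A₀.card
  · obtain ⟨x, hx, m1, m2⟩ := hm
    have := z3 x hx
    have := z1 x
    have k0 := sums_ge1 A₀ (show z x - 1 + 1 ≤ A₀.card by omega)
    have k1 := sums_ge1 A₁ (show n - z x + 1 ≤ A₁.card by omega)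
    have sx : {x} ⊆ O := Finset.singleton_subset_iff.2 hx
    obtain ⟨U, u1, u2⟩ := combine hG L b e A₀ A₁ {x} h0 h1 z (by simpa using z2 x) d01
      (d0.mono_left sx) (d1.mono_left sx) (i := z x - 1) (j := n - z x)
      (by rw [Finset.card_singleton]; omega) (by rw [Finset.sum_singleton]; omega) (by omega)
    exact ⟨U, u1.trans (Finset.union_subset (Finset.union_subset s0 s1) (sx.trans sO)), u2⟩
  push Not at hm
  have cP := Finset.card_filter_add_card_filter_not (s := O) (fun x => z x + A₁.card ≤ n)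
  set P := O.filter (fun x => z x + A₁.card ≤ n) with hP
  set Q := O.filter (fun x => ¬ z x + A₁.card ≤ n) with hQ
  have sP : P ⊆ O := Finset.filter_subset _ _
  have sQ : Q ⊆ O := Finset.filter_subset _ _
  by_cases p1 : n ≤ P.card + A₁.card ∧ 0 < P.card
  · obtain ⟨U, u1, u2⟩ := side hG L hL b e A₀ A₁ P h0 h1 z
      (fun x hx => ⟨z2 x, z3 x (sP hx), (Finset.mem_filter.1 hx).2⟩) d01 (d0.mono_left sP)
      (d1.mono_left sP) c0 c1 p1.1 p1.2
    exact ⟨U, u1.trans (Finset.union_subset (Finset.union_subset s0 s1) (sP.trans sO)), u2⟩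
  by_cases p2 : n ≤ Q.card + A₀.card ∧ 0 < Q.card
  · obtain ⟨U, u1, u2⟩ := side hG L hL (b + e) (-e) A₁ A₀ Q h1 (by simpa using h0)
      (fun x => n + 1 - z x) (fun x hx => by
        have k1 := hm x (sQ hx) (not_le.1 (Finset.mem_filter.1 hx).2)
        have k2 := z1 x
        refine ⟨?_, by omega, by omega⟩
        have k3 : (n + 1 - z x) • e + z x • e = e := by
          rw [← add_nsmul, Nat.sub_add_cancel (by omega), succ_nsmul, hG, zero_add]
        have k4 := z2 x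
        rwa [show x - (b + e) - (n + 1 - z x) • -e =
          x - b - z x • e - e + ((n + 1 - z x) • e + z x • e) by rw [smul_neg]; abel, k3,
          sub_add_cancel]) d01.symm (d1.mono_left sQ) (d0.mono_left sQ) c1 c0 p2.1 p2.2
    exact ⟨U, u1.trans (Finset.union_subset (Finset.union_subset s1 s0) (sQ.trans sO)), u2⟩
  rcases hA with ⟨ho, hA⟩ | hA
  · rcases (show A₀.card = n ∨ A₁.card = n by omega) with h | h
    · exact ⟨A₀, s0, h, full_sum hG ho L hL _ _ h0 h⟩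
    · exact ⟨A₁, s1, h, full_sum hG ho L hL _ _ h1 h⟩
  · omega

end Pool.Agent.MP_f9a021_co.GT

end

section

/-! The Harborth constant of the square of a large cyclic group. -/

open Finset

namespace Pool.Agent.MP_f9a021_co.GT

lemma pow_eighty (l : ℕ) (hl : 2000 ≤ l) : (l + 1) ^ 80 ≤ 2 ^ l := by
  induction l, hl using Nat.le_induction with
  | base => decide +kernel
  | succ l hl ih =>
    have h1 : (l + 1 + 1) * 2000 ≤ (l + 1) * 2001 := by omega
    have h2 := Nat.pow_le_pow_left h1 80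
    have h3 : 2001 ^ 80 ≤ 2 * 2000 ^ 80 := by decide +kernel
    rw [mul_pow, mul_pow] at h2
    refine Nat.le_of_mul_le_mul_right ?_ (show 0 < 2000 ^ 80 by positivity)
    calc _ ≤ (l + 1) ^ 80 * 2001 ^ 80 := h2
      _ ≤ 2 ^ l * (2 * 2000 ^ 80) := Nat.mul_le_mul ih h3
      _ = _ := by rw [pow_succ 2 l, mul_assoc]

lemma exists_scale {n : ℕ} (hn : 2000 ^ 40 ≤ n) :
    ∃ l, 2000 ≤ l ∧ l ^ 40 ≤ n ∧ n < (l + 1) ^ 40 ∧ n * n ≤ 2 ^ l := by
  have hex : ∃ l, n < (l + 1) ^ 40 :=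
    ⟨n, (Nat.lt_succ_self n).trans_le (Nat.le_self_pow (by norm_num) _)⟩
  have h1 := Nat.find_spec hex
  have h2 : 2000 ≤ Nat.find hex := by
    by_contra h
    have := Nat.pow_le_pow_left (show Nat.find hex + 1 ≤ 2000 by omega) 40
    omega
  have h3 := Nat.find_min hex (show Nat.find hex - 1 < Nat.find hex by omega)
  rw [Nat.sub_add_cancel (by omega), not_lt] at h3
  refine ⟨_, h2, h3, h1, le_trans ?_ (pow_eighty _ h2)⟩
  rw [show 80 = 40 + 40 from rfl, pow_add]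
  exact Nat.mul_le_mul h1.le h1.le

lemma sep_sq (n : ℕ) (x : ZMod n × ZMod n) (hx : x ≠ 0) :
    ∃ φ : ZMod n × ZMod n →+ ZMod n, φ x ≠ 0 := by
  by_cases h : x.1 = 0
  · exact ⟨AddMonoidHom.snd _ _, fun h' => hx (Prod.ext h h')⟩
  · exact ⟨AddMonoidHom.fst _ _, h⟩

theorem upper_sq {n : ℕ} (hn : 2000 ^ 40 ≤ n) (A : Finset (ZMod n × ZMod n))
    (hA : (Odd n ∧ A.card + 1 = 2 * n) ∨ A.card = 2 * n + 1) :
    ∃ U ⊆ A, U.card = n ∧ ∑ x ∈ U, x = 0 := by
  classical
  have hn0 : 2 ≤ n := le_trans (by norm_num) hn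
  haveI : NeZero n := ⟨by omega⟩
  obtain ⟨l, l1, l2, -, l4⟩ := exists_scale hn
  have hG : Nat.card (ZMod n × ZMod n) = n * n := by simp
  obtain ⟨e1, e2, e3⟩ := eta_facts l1 l2 rfl
  set η := (n / l ^ 5 + 1) * l ^ 4 with hη
  have e8 : η * 2000 ≤ η * l := Nat.mul_le_mul_left _ l1
  have e9 : 0 < η := lt_of_lt_of_le (by positivity) e3
  by_contra hcon
  push Not at hcon
  obtain ⟨L, e, p, W, y, n', B, β, s1, s2, s3, s4, s5, s6, s7, s8, s9⟩ :=
    structure_thm (sep_sq n) l1 l2 hη (hG.le.trans l4) hG.le A (by omega) (by omega) hcon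
  have hG0 := nsmul_eq_zero_of_sep (sep_sq n)
  have hq : addOrderOf (e : (ZMod n × ZMod n) ⧸ L) ∣ n :=
    addOrderOf_dvd_of_nsmul_eq_zero (by rw [← QuotientAddGroup.mk_nsmul, hG0]; rfl)
  obtain ⟨hqn, a, k1, k2⟩ := two_levels W y hq e9 (by omega) (by omega) s4 s5 s6 s7 s8 s9
  have c0 : W.filter (fun x => y x = a) ⊆ A.filter (fun x => x - (p + a • e) ∈ L) := by
    intro x hx
    obtain ⟨x1, x2⟩ := Finset.mem_filter.1 hx
    have := s3 x x1
    rw [x2, sub_sub] at this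
    exact Finset.mem_filter.2 ⟨s1 x1, this⟩
  have c1 : W.filter (fun x => y x = a + 1) ⊆ A.filter (fun x => x - (p + a • e + e) ∈ L) := by
    intro x hx
    obtain ⟨x1, x2⟩ := Finset.mem_filter.1 hx
    have := s3 x x1
    rw [x2, sub_sub, add_zsmul, one_zsmul, ← add_assoc] at this
    exact Finset.mem_filter.2 ⟨s1 x1, this⟩
  have c2 := Finset.card_le_card c0
  have c3 := Finset.card_le_card c1
  have c4 := card_le_of_diff L (A.filter (fun x => x - (p + a • e) ∈ L)) fun x hx x' hx' => by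
    simpa using L.sub_mem (Finset.mem_filter.1 hx).2 (Finset.mem_filter.1 hx').2
  have c5 := AddSubgroup.card_eq_card_quotient_mul_card_addSubgroup L
  have c6 := addOrderOf_dvd_natCard (e : (ZMod n × ZMod n) ⧸ L)
  rw [hqn] at c6
  rw [hG] at c5
  have c7 : Nat.card ((ZMod n × ZMod n) ⧸ L) = n := by
    refine (eq_of_dvd_of_lt c6 Nat.card_pos ?_).symm
    by_contra hc
    have : 2 * n * Nat.card L ≤ n * n := by rw [c5]; exact Nat.mul_le_mul_right _ (by omega)
    rw [mul_comm 2, mul_assoc] at this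
    have := Nat.le_of_mul_le_mul_left this (by omega)
    omega
  rw [c7] at c5
  have c8 : Nat.card L = n := (Nat.eq_of_mul_eq_mul_left (by omega) c5).symm
  have c9 : AddSubgroup.zmultiples (e : (ZMod n × ZMod n) ⧸ L) = ⊤ :=
    AddSubgroup.eq_top_of_card_eq _ (by rw [Nat.card_zmultiples, hqn, c7])
  obtain ⟨U, u1, u2, u3⟩ := final hG0 L c8 (p + a • e) e (fun h => by
      rw [(QuotientAddGroup.eq_zero_iff e).2 h, addOrderOf_zero] at hqn
      omega) (fun x => by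
      have : ((x - (p + a • e) : ZMod n × ZMod n) : (ZMod n × ZMod n) ⧸ L) ∈
        AddSubgroup.zmultiples (e : (ZMod n × ZMod n) ⧸ L) := c9 ▸ AddSubgroup.mem_top _
      rw [mem_zmultiples_iff_mem_range_addOrderOf, Finset.mem_image] at this
      obtain ⟨z, z1, z2⟩ := this
      refine ⟨z, by rwa [Finset.mem_range, hqn] at z1, ?_⟩
      rw [← QuotientAddGroup.eq_zero_iff, QuotientAddGroup.mk_sub, ← z2,
        QuotientAddGroup.mk_nsmul, sub_self]) A (by omega) (by omega)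
    (hA.imp (fun h => ⟨h.1, h.2.ge⟩) (fun h => h.ge))
  exact hcon U u1 u2 u3

lemma lower_odd {n : ℕ} (hn : 2 ≤ n) :
    ∃ A : Finset (ZMod n × ZMod n), WeaklyZeroSumFree n A ∧ A.card = 2 * n - 2 := by
  haveI : NeZero n := ⟨by omega⟩
  haveI : Fact (1 < n) := ⟨hn⟩
  have hc : ((univ : Finset (ZMod n)).erase 0).card = n - 1 := by
    rw [Finset.card_erase_of_mem (Finset.mem_univ _), Finset.card_univ, ZMod.card]
  refine ⟨({0, 1} : Finset (ZMod n)) ×ˢ (univ.erase 0), fun B hB hBc h0 => ?_, by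
    rw [Finset.card_product, Finset.card_pair zero_ne_one, hc]; omega⟩
  have h1 : ∀ c : ZMod n, (B.filter (fun x => x.1 = c)).card ≤ n - 1 := by
    intro c
    rw [← hc]
    refine Finset.card_le_card_of_injOn Prod.snd
      (fun x hx => (Finset.mem_product.1 (hB (Finset.mem_filter.1 hx).1)).2) fun x hx y hy h => ?_
    exact Prod.ext ((Finset.mem_filter.1 hx).2.trans (Finset.mem_filter.1 hy).2.symm) h
  have h2 := Finset.card_filter_add_card_filter_not (s := B) (fun x => x.1 = 1)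
  have h3 : B.filter (fun x => ¬ x.1 = 1) = B.filter (fun x => x.1 = 0) := by
    refine Finset.filter_congr fun x hx => ?_
    have := (Finset.mem_product.1 (hB hx)).1
    simp only [Finset.mem_insert, Finset.mem_singleton] at this
    rcases this with h | h <;> simp [h]
  have h4 : ((B.filter (fun x => x.1 = 1)).card : ZMod n) = 0 := by
    have := congrArg Prod.fst h0
    rw [Prod.fst_sum, ← Finset.sum_filter_add_sum_filter_not B (fun x => x.1 = 1), h3,
      Finset.sum_congr rfl (fun x hx => (Finset.mem_filter.1 hx).2),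
      Finset.sum_congr rfl (fun x hx => (Finset.mem_filter.1 hx).2)] at this
    simpa using this
  rw [h3] at h2
  have h5 := h1 0
  have h6 := h1 1
  have := Nat.le_of_dvd (by omega) ((ZMod.natCast_eq_zero_iff _ _).1 h4)
  omega

theorem gt_main {n : ℕ} (hn : 2000 ^ 40 ≤ n) :
    tauHat (ZMod n × ZMod n) n = if Even n then 2 * n else 2 * n - 2 := by
  have hn0 : 2 ≤ n := le_trans (by norm_num) hn
  haveI : NeZero n := ⟨by omega⟩
  split_ifs with h
  · refine le_antisymm (tauHat_le fun A hA => upper_sq hn A (Or.inr hA)) (le_tauHat ?_)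
    obtain ⟨a, rfl⟩ := h.two_dvd
    have := lower_boundary (a := a) (b := 0) (by omega)
    rw [mul_zero, zero_add, mul_one] at this
    rwa [two_mul (2 * a)]
  · exact le_antisymm (tauHat_le fun A hA => upper_sq hn A
      (Or.inl ⟨Nat.not_even_iff_odd.1 h, by omega⟩)) (le_tauHat (lower_odd hn0))

end Pool.Agent.MP_f9a021_co.GT

end
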