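import Pool.Agent.MP_f9a021_co.Defs

section

/-! Fourier step: a set that is almost invariant under many translations yields a homomorphism
to `ZMod n` on which these translations are small. -/

open Finset

namespace Pool.Agent.MP_f9a021_co.GT

variable {G : Type*} [AddCommGroup G] [Fintype G] [DecidableEq G] {n : ℕ} [NeZero n]

/-- Number of points of `B` pushed out of `B` by the translation `x`. -/
def lam (B : Finset G) (x : G) : ℕ := (B.filter (fun b => b + x ∉ B)).card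

omit [Fintype G] in
lemma lam_add (B : Finset G) (x y : G) : lam B (x + y) ≤ lam B x + lam B y := by
  unfold lam
  have h1 : B.filter (fun b => b + (x + y) ∉ B) ⊆ B.filter (fun b => b + x ∉ B) ∪
      (B.filter (fun b => b + y ∉ B)).image (fun b => b - x) := by
    intro b hb
    rw [Finset.mem_filter] at hb
    by_cases h : b + x ∈ B
    · refine Finset.mem_union_right _ (Finset.mem_image.2 ⟨b + x, Finset.mem_filter.2 ⟨h, ?_⟩, by abel⟩)
      rw [add_assoc]; exact hb.2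
    · exact Finset.mem_union_left _ (Finset.mem_filter.2 ⟨hb.1, h⟩)
  exact (Finset.card_le_card h1).trans ((Finset.card_union_le _ _).trans
    (Nat.add_le_add_left Finset.card_image_le _))

omit [Fintype G] in
lemma lam_zero (B : Finset G) : lam B 0 = 0 := by
  unfold lam
  rw [Finset.card_eq_zero, Finset.filter_eq_empty_iff]
  intro b hb; simpa using hb

omit [Fintype G] in
lemma lam_nsmul (B : Finset G) (x : G) (s : ℕ) : lam B (s • x) ≤ s * lam B x := by
  induction s with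
  | zero => simp [lam_zero]
  | succ s ih => rw [succ_nsmul, add_mul, one_mul]; exact (lam_add _ _ _).trans (by omega)

noncomputable instance homFintype : Fintype (G →+ ZMod n) :=
  haveI : Finite (G →+ ZMod n) :=
    Finite.of_injective (fun f : G →+ ZMod n => (f : G → ZMod n)) DFunLike.coe_injective
  Fintype.ofFinite _

lemma orth (hsep : ∀ x : G, x ≠ 0 → ∃ φ : G →+ ZMod n, φ x ≠ 0) (x : G) :
    ∑ φ : G →+ ZMod n, ZMod.stdAddChar (φ x) =
      if x = 0 then (Fintype.card (G →+ ZMod n) : ℂ) else 0 := by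
  classical
  let ψ : AddChar (G →+ ZMod n) ℂ :=
    (ZMod.stdAddChar (N := n)).compAddMonoidHom (AddMonoidHom.eval x)
  have h1 := AddChar.sum_eq_ite ψ
  have h2 : ∀ φ, ψ φ = ZMod.stdAddChar (φ x) := fun φ => rfl
  simp only [h2] at h1
  rw [h1]
  by_cases hx : x = 0
  · rw [if_pos hx, if_pos]
    ext φ; rw [h2, hx]; simp
  · rw [if_neg hx, if_neg]
    intro h0
    obtain ⟨φ, hφ⟩ := hsep x hx
    apply hφ
    apply ZMod.injective_stdAddChar
    rw [← h2, h0]; simp

/-- Squared modulus of the Fourier coefficient of `B`. -/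
noncomputable def wt (B : Finset G) (φ : G →+ ZMod n) : ℝ :=
  Complex.normSq (∑ b ∈ B, ZMod.stdAddChar (φ b))

omit [Fintype G] [DecidableEq G] in
lemma wt_nonneg (B : Finset G) (φ : G →+ ZMod n) : 0 ≤ wt B φ := Complex.normSq_nonneg _

lemma conj_std (k : ZMod n) :
    (starRingEnd ℂ) (ZMod.stdAddChar k) = ZMod.stdAddChar (-k) := by
  rw [AddChar.map_neg_eq_inv, ZMod.stdAddChar_apply, ← Circle.coe_inv_eq_conj]
  simp

lemma four (hsep : ∀ x : G, x ≠ 0 → ∃ φ : G →+ ZMod n, φ x ≠ 0) (B : Finset G) (x : G) :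
    ∑ φ : G →+ ZMod n, wt B φ * (ZMod.stdAddChar (φ x)).re =
      Fintype.card (G →+ ZMod n) * ((B.card : ℝ) - lam B x) := by
  have h1 : ∀ φ : G →+ ZMod n, ((wt B φ : ℝ) : ℂ) * ZMod.stdAddChar (φ x) =
      ∑ b ∈ B, ∑ b' ∈ B, ZMod.stdAddChar (φ (b + x - b')) := by
    intro φ
    unfold wt
    rw [← Complex.mul_conj, map_sum, Finset.sum_mul_sum, Finset.sum_mul]
    refine Finset.sum_congr rfl fun b _ => ?_
    rw [Finset.sum_mul]
    refine Finset.sum_congr rfl fun b' _ => ?_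
    rw [conj_std, ← AddChar.map_add_eq_mul, ← AddChar.map_add_eq_mul, map_sub φ, map_add φ]
    congr 1; ring
  have h2 : ∑ φ : G →+ ZMod n, ((wt B φ : ℝ) : ℂ) * ZMod.stdAddChar (φ x) =
      Fintype.card (G →+ ZMod n) * (((B.card : ℝ) - lam B x : ℝ) : ℂ) := by
    simp only [h1]
    rw [Finset.sum_comm]
    have h3 : ∀ b ∈ B, ∑ φ : G →+ ZMod n, ∑ b' ∈ B, ZMod.stdAddChar (φ (b + x - b')) =
        if b + x ∈ B then (Fintype.card (G →+ ZMod n) : ℂ) else 0 := by
      intro b _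
      rw [Finset.sum_comm]
      simp only [orth hsep, sub_eq_zero]
      rw [Finset.sum_ite_eq]
    rw [Finset.sum_congr rfl h3, ← Finset.sum_filter, Finset.sum_const, nsmul_eq_mul, mul_comm]
    congr 1
    have h4 := Finset.card_filter_add_card_filter_not (s := B) (fun b => b + x ∈ B)
    unfold lam
    rw [← h4]; push_cast; ring
  have h5 := congrArg Complex.re h2
  rw [Complex.re_sum] at h5
  simp only [Complex.re_ofReal_mul] at h5
  rw [h5, ← Complex.ofReal_natCast, ← Complex.ofReal_mul, Complex.ofReal_re]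

lemma norm_std_sub_one (k : ZMod n) :
    4 * |(k.valMinAbs : ℝ)| / n ≤ ‖ZMod.stdAddChar k - 1‖ := by
  have hn : (0 : ℝ) < n := by exact_mod_cast NeZero.pos n
  set v := k.valMinAbs with hv
  have h1 : ZMod.stdAddChar k = Complex.exp (Complex.I * ((2 * Real.pi * v / n : ℝ) : ℂ)) := by
    conv_lhs => rw [← ZMod.coe_valMinAbs k]
    rw [ZMod.stdAddChar_coe]
    congr 1; push_cast; ring
  have h2 : 2 * |(v : ℝ)| ≤ n := by
    have := ZMod.natAbs_valMinAbs_le k
    have h3 : 2 * v.natAbs ≤ n := by omega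
    have h4 : ((2 * v.natAbs : ℕ) : ℝ) ≤ n := by exact_mod_cast h3
    rw [Nat.cast_mul, Nat.cast_natAbs, Int.cast_abs] at h4
    exact_mod_cast h4
  rw [h1, Complex.norm_exp_I_mul_ofReal_sub_one, Real.norm_eq_abs, abs_mul, abs_two]
  have h5 : |2 * Real.pi * v / n / 2| = Real.pi * |(v : ℝ)| / n := by
    rw [show 2 * Real.pi * v / n / 2 = Real.pi * v / n by ring, abs_div, abs_mul,
      abs_of_pos Real.pi_pos, abs_of_pos hn]
  have h6 : |2 * Real.pi * v / n / 2| ≤ Real.pi / 2 := by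
    rw [h5, div_le_div_iff₀ hn two_pos]; nlinarith [Real.pi_pos]
  have h7 := Real.mul_abs_le_abs_sin h6
  rw [h5] at h7
  have h8 : 2 / Real.pi * (Real.pi * |(v : ℝ)| / n) = 2 * |(v : ℝ)| / n := by
    field_simp
  rw [h8] at h7
  have h9 : 4 * |(v : ℝ)| / n = 2 * (2 * |(v : ℝ)| / n) := by ring
  rw [h9]; linarith

lemma geom_re (k : ZMod n) {u w : ℕ} (hn : n ≤ u * w) (hk : (w : ℤ) < |k.valMinAbs|) :
    (u : ℝ) / 2 ≤ ∑ s ∈ range u, (1 - (ZMod.stdAddChar ((s + 1) • k)).re) := by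
  have hn0 : (0 : ℝ) < n := by exact_mod_cast NeZero.pos n
  set z := ZMod.stdAddChar k with hz
  have h0 : ‖z‖ = 1 := by rw [hz, ZMod.stdAddChar_apply]; exact Circle.norm_coe _
  have h1 : (∑ s ∈ range u, z ^ (s + 1)) * (z - 1) = z * (z ^ u - 1) := by
    rw [← geom_sum_mul, ← mul_assoc, Finset.mul_sum]
    congr 1
    exact Finset.sum_congr rfl fun s _ => by ring
  have h2 : ‖∑ s ∈ range u, z ^ (s + 1)‖ * ‖z - 1‖ ≤ 2 := by
    rw [← norm_mul, h1, norm_mul, h0, one_mul]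
    refine (norm_sub_le _ _).trans ?_
    rw [norm_pow, h0, one_pow, norm_one]; norm_num
  have h3 := norm_std_sub_one k
  have h4 : (w : ℝ) < |(k.valMinAbs : ℝ)| := by exact_mod_cast hk
  have h5 : (n : ℝ) ≤ u * w := by exact_mod_cast hn
  have hu : (0 : ℝ) ≤ u := Nat.cast_nonneg u
  have h6 : ‖∑ s ∈ range u, z ^ (s + 1)‖ ≤ u / 2 := by
    set N := ‖∑ s ∈ range u, z ^ (s + 1)‖
    have hN : 0 ≤ N := norm_nonneg _
    have h7 : N * (4 * |(k.valMinAbs : ℝ)| / n) ≤ 2 := (mul_le_mul_of_nonneg_left h3 hN).trans h2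
    rw [← mul_div_assoc, div_le_iff₀ hn0] at h7
    have hw : (0 : ℝ) ≤ w := Nat.cast_nonneg w
    by_contra h8
    push Not at h8
    nlinarith [mul_le_mul_of_nonneg_left h4.le hu]
  have h9 : ∑ s ∈ range u, (1 - (ZMod.stdAddChar ((s + 1) • k)).re) =
      u - (∑ s ∈ range u, z ^ (s + 1)).re := by
    rw [Finset.sum_sub_distrib, Complex.re_sum]
    simp only [AddChar.map_nsmul_eq_pow, hz]
    simp
  rw [h9]
  have := (Complex.re_le_norm _).trans h6
  linarith

lemma re_std_le (k : ZMod n) : (ZMod.stdAddChar k).re ≤ 1 := by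
  refine (Complex.re_le_norm _).trans ?_
  rw [ZMod.stdAddChar_apply]; exact (Circle.norm_coe _).le

omit [DecidableEq G] in
lemma card_filter_mem (K : AddSubgroup G) [DecidablePred (· ∈ K)] :
    (univ.filter (· ∈ K)).card = Nat.card K := by
  rw [Nat.card_eq_fintype_card, Fintype.card_subtype]

lemma mass (hsep : ∀ x : G, x ≠ 0 → ∃ φ : G →+ ZMod n, φ x ≠ 0) (K : AddSubgroup G)
    (B : Finset G) (hB : ∀ b ∈ B, b ∈ K) [DecidablePred fun φ : G →+ ZMod n => ∀ k ∈ K, φ k = 0] :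
    (Fintype.card (G →+ ZMod n) : ℝ) * (B.card * (Nat.card K - B.card)) ≤
      Nat.card K * ∑ φ ∈ univ.filter (fun φ : G →+ ZMod n => ¬ ∀ k ∈ K, φ k = 0), wt B φ := by
  classical
  have hK : (0 : ℝ) < Nat.card K := by exact_mod_cast Nat.card_pos
  have par : ∀ C : Finset G, ∑ φ : G →+ ZMod n, wt C φ = Fintype.card (G →+ ZMod n) * C.card := by
    intro C
    have := four hsep C 0
    simpa [lam_zero] using this
  have triv : ∀ C : Finset G, (∀ b ∈ C, b ∈ K) →
      ∑ φ ∈ univ.filter (fun φ : G →+ ZMod n => ∀ k ∈ K, φ k = 0), wt C φ =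
        (univ.filter (fun φ : G →+ ZMod n => ∀ k ∈ K, φ k = 0)).card * (C.card : ℝ) ^ 2 := by
    intro C hC
    rw [Finset.sum_congr rfl (g := fun _ => (C.card : ℝ) ^ 2), Finset.sum_const, nsmul_eq_mul]
    intro φ hφ
    unfold wt
    rw [Finset.sum_congr rfl (g := fun _ => (1 : ℂ))
      (fun b hb => by rw [(Finset.mem_filter.1 hφ).2 b (hC b hb)]; simp)]
    simp [sq]
  set a : ℝ := ((univ.filter (fun φ : G →+ ZMod n => ∀ k ∈ K, φ k = 0)).card : ℝ) with ha
  have h1 : a * (Nat.card K : ℝ) ^ 2 ≤ Fintype.card (G →+ ZMod n) * Nat.card K := by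
    rw [← card_filter_mem K, ← triv _ (fun b hb => (Finset.mem_filter.1 hb).2), ← par]
    exact Finset.sum_le_sum_of_subset_of_nonneg (Finset.subset_univ _) fun φ _ _ => wt_nonneg _ _
  have h2 := Finset.sum_filter_add_sum_filter_not univ
    (fun φ : G →+ ZMod n => ∀ k ∈ K, φ k = 0) (wt B)
  rw [triv B hB, par] at h2
  have h3 : a * Nat.card K ≤ Fintype.card (G →+ ZMod n) := by
    by_contra h; push Not at h; nlinarith
  have h4 : (0 : ℝ) ≤ (B.card : ℝ) ^ 2 := sq_nonneg _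
  rw [eq_sub_of_add_eq' h2]
  nlinarith

lemma stuck (hsep : ∀ x : G, x ≠ 0 → ∃ φ : G →+ ZMod n, φ x ≠ 0) (K : AddSubgroup G)
    (B : Finset G) (hB : ∀ b ∈ B, b ∈ K) (A : Finset G) (hA : A.Nonempty) (a' : G) {u v w : ℕ}
    (hn : n ≤ u * w)
    (hl : ∀ a ∈ A, lam B (a - a') * (2 * u * v + 1) * Nat.card K <
      B.card * (Nat.card K - B.card)) :
    ∃ φ : G →+ ZMod n, (∃ k ∈ K, φ k ≠ 0) ∧
      (A.filter (fun a => (w : ℤ) < |(φ (a - a')).valMinAbs|)).card * v ≤ A.card := by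
  classical
  by_contra hcon
  push Not at hcon
  have hK : (0 : ℝ) < Nat.card K := by exact_mod_cast Nat.card_pos
  have hBK : B.card ≤ Nat.card K := by
    rw [← card_filter_mem K]
    exact Finset.card_le_card fun b hb => Finset.mem_filter.2 ⟨Finset.mem_univ _, hB b hb⟩
  have hu : 0 < u := Nat.pos_of_ne_zero fun h => by
    rw [h, zero_mul] at hn; exact absurd (NeZero.pos n) (by omega)
  set P : ℝ := B.card * (Nat.card K - B.card) with hP
  set F : ℝ := (Fintype.card (G →+ ZMod n) : ℝ) with hF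
  have hF0 : 0 < F := by rw [hF]; exact_mod_cast Fintype.card_pos
  have hl' : ∀ a ∈ A, (lam B (a - a') : ℝ) * (2 * u * v + 1) * Nat.card K ≤ P := by
    intro a ha
    have := (hl a ha).le
    rw [hP, ← Nat.cast_sub hBK]; exact_mod_cast this
  have hP0 : 0 < P := by
    obtain ⟨a, ha⟩ := hA
    have := hl a ha
    rw [hP, ← Nat.cast_sub hBK]
    exact_mod_cast (Nat.zero_le _).trans_lt this
  have e1 : ∀ a ∈ A, ∑ φ : G →+ ZMod n, wt B φ *
      ∑ s ∈ range u, (1 - (ZMod.stdAddChar ((s + 1) • φ (a - a'))).re) ≤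
      F * (u * (u * lam B (a - a'))) := by
    intro a _
    simp only [Finset.mul_sum]
    rw [Finset.sum_comm]
    have : ∀ s ∈ range u, ∑ φ : G →+ ZMod n,
        wt B φ * (1 - (ZMod.stdAddChar ((s + 1) • φ (a - a'))).re) ≤ F * (u * lam B (a - a')) := by
      intro s hs
      have h1 := four hsep B ((s + 1) • (a - a'))
      have h2 := four hsep B 0
      simp only [map_nsmul] at h1
      simp only [map_zero, AddChar.map_zero_eq_one, Complex.one_re, lam_zero] at h2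
      simp only [mul_sub]
      rw [Finset.sum_sub_distrib, h1, h2, ← hF]
      have h3 : lam B ((s + 1) • (a - a')) ≤ u * lam B (a - a') :=
        (lam_nsmul _ _ _).trans (Nat.mul_le_mul_right _ (Finset.mem_range.1 hs))
      have h4 : (lam B ((s + 1) • (a - a')) : ℝ) ≤ u * lam B (a - a') := by exact_mod_cast h3
      push_cast
      nlinarith
    refine (Finset.sum_le_sum this).trans ?_
    rw [Finset.sum_const, Finset.card_range, nsmul_eq_mul]
    exact le_of_eq (by ring)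
  have e2 : ∀ φ : G →+ ZMod n, (¬ ∀ k ∈ K, φ k = 0) → (u : ℝ) / 2 * A.card ≤
      v * ∑ a ∈ A, ∑ s ∈ range u, (1 - (ZMod.stdAddChar ((s + 1) • φ (a - a'))).re) := by
    intro φ hφ
    push Not at hφ
    have h1 := hcon φ hφ
    have h2 : ((A.filter (fun a => (w : ℤ) < |(φ (a - a')).valMinAbs|)).card : ℝ) * (u / 2) ≤
        ∑ a ∈ A, ∑ s ∈ range u, (1 - (ZMod.stdAddChar ((s + 1) • φ (a - a'))).re) := by
      rw [← nsmul_eq_mul, ← Finset.sum_const]
      refine (Finset.sum_le_sum fun a ha => geom_re _ hn (Finset.mem_filter.1 ha).2).trans ?_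
      refine Finset.sum_le_sum_of_subset_of_nonneg (Finset.filter_subset _ _) fun a _ _ => ?_
      exact Finset.sum_nonneg fun s _ => sub_nonneg.2 (re_std_le _)
    have h3 : (A.card : ℝ) ≤
        (A.filter (fun a => (w : ℤ) < |(φ (a - a')).valMinAbs|)).card * v := by
      exact_mod_cast h1.le
    have hv : (0 : ℝ) ≤ v := Nat.cast_nonneg v
    have hu' : (0 : ℝ) ≤ u / 2 := by positivity
    nlinarith [mul_le_mul_of_nonneg_left h2 hv, mul_le_mul_of_nonneg_left h3 hu']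
  set M := ∑ φ ∈ univ.filter (fun φ : G →+ ZMod n => ¬ ∀ k ∈ K, φ k = 0), wt B φ with hM
  have e3 : M * ((u : ℝ) / 2 * A.card) ≤ v * ∑ a ∈ A, F * (u * (u * lam B (a - a'))) := by
    have hv : (0 : ℝ) ≤ v := Nat.cast_nonneg v
    refine le_trans ?_ (mul_le_mul_of_nonneg_left (Finset.sum_le_sum e1) hv)
    rw [Finset.sum_comm, hM, Finset.sum_mul, Finset.mul_sum]
    refine (Finset.sum_le_sum fun φ hφ => mul_le_mul_of_nonneg_left
      (e2 φ (Finset.mem_filter.1 hφ).2) (wt_nonneg B φ)).trans ?_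
    refine le_trans (Finset.sum_le_sum_of_subset_of_nonneg (Finset.filter_subset _ _)
      fun φ _ _ => ?_) (le_of_eq (Finset.sum_congr rfl fun φ _ => ?_))
    · refine mul_nonneg (wt_nonneg _ _) (mul_nonneg hv ?_)
      exact Finset.sum_nonneg fun a _ => Finset.sum_nonneg fun s _ => sub_nonneg.2 (re_std_le _)
    · rw [← Finset.mul_sum]; ring
  have e4 : F * P ≤ Nat.card K * M := mass hsep K B hB
  have e5 : (∑ a ∈ A, F * (u * (u * (lam B (a - a') : ℝ)))) * ((2 * u * v + 1) * Nat.card K) ≤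
      A.card * (F * (u * (u * P))) := by
    rw [Finset.sum_mul, ← nsmul_eq_mul, ← Finset.sum_const]
    refine Finset.sum_le_sum fun a ha => ?_
    have h1 := hl' a ha
    have h2 : 0 ≤ F * (u * u) := by positivity
    nlinarith [mul_le_mul_of_nonneg_left h1 h2]
  set S := ∑ a ∈ A, F * (u * (u * (lam B (a - a') : ℝ))) with hS
  have hA0 : (0 : ℝ) < A.card := by exact_mod_cast hA.card_pos
  have hu0 : (0 : ℝ) < u := by exact_mod_cast hu
  have hv : (0 : ℝ) ≤ v := Nat.cast_nonneg v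
  have e6 : F * P * (u / 2 * A.card) * (2 * u * v + 1) ≤ v * (A.card * (F * (u * (u * P)))) := by
    calc F * P * (u / 2 * A.card) * (2 * u * v + 1)
        ≤ Nat.card K * M * (u / 2 * A.card) * (2 * u * v + 1) := by gcongr
      _ = M * (u / 2 * A.card) * ((2 * u * v + 1) * Nat.card K) := by ring
      _ ≤ v * S * ((2 * u * v + 1) * Nat.card K) := by gcongr
      _ = v * (S * ((2 * u * v + 1) * Nat.card K)) := by ring
      _ ≤ _ := by gcongr
  have e7 : 0 < F * P * (u / 2 * A.card) := by positivity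
  nlinarith

end Pool.Agent.MP_f9a021_co.GT

end

section

/-! Greedy filling of a subgroup by sums of fixed-size subsets, or concentration in an arc. -/

open Finset

set_option linter.unusedSectionVars false

namespace Pool.Agent.MP_f9a021_co.GT

variable {G : Type*} [AddCommGroup G] [Fintype G] [DecidableEq G] {n : ℕ} [NeZero n]

/-- Every element of `s + X` is the sum of a `t`-subset of `P`. -/
def Fill (P : Finset G) (t : ℕ) (s : G) (X : Set G) : Prop :=
  ∀ k ∈ X, ∃ S ⊆ P, S.card = t ∧ ∑ x ∈ S, x = s + k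

lemma key_step {b c l j b' c' : ℕ} (h1 : b + l ≤ b') (h2 : c' + l ≤ c)
    (h3 : b * c ≤ l * j * (b + c)) : b * (c' * (j + 1)) ≤ b' * j * c := by
  obtain ⟨d, rfl⟩ := Nat.exists_eq_add_of_le h2
  calc b * (c' * (j + 1)) ≤ (b + l) * j * (c' + l + d) := by
        nlinarith [Nat.zero_le (b * d * j), Nat.zero_le (b * l), Nat.zero_le (b * d)]
    _ ≤ _ := by gcongr

lemma greedy (hsep : ∀ x : G, x ≠ 0 → ∃ φ : G →+ ZMod n, φ x ≠ 0) (K : AddSubgroup G)
    (A : Finset G) (hd : ∀ x ∈ A, ∀ x' ∈ A, x - x' ∈ K) {u v w T : ℕ} (hn : n ≤ u * w)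
    (hv : 0 < v) (hT : 2 * T + 2 ≤ A.card) (t : ℕ) (ht : t ≤ T) :
    (∃ P ⊆ A, P.card = 2 * t ∧ ∃ s : G, ∃ B : Finset G, (∀ b ∈ B, b ∈ K) ∧ Fill P t s B ∧
      0 < B.card ∧ (Nat.card K - B.card) * (2 * u * v + 1 + 1) ^ t ≤
        B.card * Nat.card K * (2 * u * v + 1) ^ t) ∨
    ∃ φ : G →+ ZMod n, (∃ k ∈ K, φ k ≠ 0) ∧ ∃ a ∈ A, ∃ A₁ ⊆ A,
      A.card ≤ A₁.card + (2 * T + A.card / v) ∧ ∀ x ∈ A₁, |(φ (x - a)).valMinAbs| ≤ w := by
  classical
  induction t with
  | zero =>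
    refine Or.inl ⟨∅, by simp, rfl, 0, {0}, by simp, ?_, by simp, by simp⟩
    intro k hk
    exact ⟨∅, by simp, rfl, by simpa using (Finset.mem_singleton.1 hk).symm⟩
  | succ t ih =>
    rcases ih (by omega) with ⟨P, hP, hPc, s, B, hB, hF, hB0, hI⟩ | h
    swap
    · exact Or.inr h
    set j := 2 * u * v + 1 with hj
    have hc : (A \ P).card + P.card = A.card := Finset.card_sdiff_add_card_eq_card hP
    obtain ⟨a', ha'⟩ : (A \ P).Nonempty := Finset.card_pos.1 (by omega)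
    by_cases hs : ∀ a ∈ A \ P, lam B (a - a') * j * Nat.card K < B.card * (Nat.card K - B.card)
    · obtain ⟨φ, h1, h2⟩ := stuck hsep K B hB (A \ P) ⟨a', ha'⟩ a' hn hs
      refine Or.inr ⟨φ, h1, a', (Finset.mem_sdiff.1 ha').1,
        (A \ P).filter (fun a => ¬ (w : ℤ) < |(φ (a - a')).valMinAbs|),
        (Finset.filter_subset _ _).trans Finset.sdiff_subset, ?_,
        fun x hx => not_lt.1 (Finset.mem_filter.1 hx).2⟩
      have h3 := Finset.card_filter_add_card_filter_not (s := A \ P)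
        (fun a => (w : ℤ) < |(φ (a - a')).valMinAbs|)
      have h4 := (Nat.le_div_iff_mul_le hv).2 (h2.trans (show (A \ P).card ≤ A.card by omega))
      omega
    · obtain ⟨a, ha, hne, hl⟩ : ∃ a ∈ A \ P, a ≠ a' ∧
          B.card * (Nat.card K - B.card) ≤ lam B (a - a') * j * Nat.card K := by
        push Not at hs
        obtain ⟨a, ha, hl⟩ := hs
        by_cases h : a = a'
        · obtain ⟨a₂, ha₂, hne⟩ := Finset.exists_mem_ne (show 1 < (A \ P).card by omega) a'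
          refine ⟨a₂, ha₂, hne, ?_⟩
          rw [h, sub_self, lam_zero, zero_mul, zero_mul] at hl
          exact hl.trans (Nat.zero_le _)
        · exact ⟨a, ha, h, hl⟩
      obtain ⟨haA, haP⟩ := Finset.mem_sdiff.1 ha
      obtain ⟨haA', haP'⟩ := Finset.mem_sdiff.1 ha'
      set B' := B ∪ (B.filter (fun b => b + (a - a') ∉ B)).image (fun b => b + (a - a')) with hB'
      have hB'K : ∀ b ∈ B', b ∈ K := by
        intro b hb
        rcases Finset.mem_union.1 hb with h | h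
        · exact hB b h
        · obtain ⟨b₀, h0, rfl⟩ := Finset.mem_image.1 h
          exact K.add_mem (hB b₀ (Finset.mem_filter.1 h0).1) (hd a haA a' haA')
      have hB'c : B'.card = B.card + lam B (a - a') := by
        rw [hB', Finset.card_union_of_disjoint, Finset.card_image_of_injective _
          (add_left_injective _)]
        · rfl
        · rw [Finset.disjoint_right]
          intro b hb
          obtain ⟨b₀, h0, rfl⟩ := Finset.mem_image.1 hb
          exact (Finset.mem_filter.1 h0).2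
      have hle : B'.card ≤ Nat.card K := by
        rw [← card_filter_mem K]
        exact Finset.card_le_card fun b hb => Finset.mem_filter.2 ⟨Finset.mem_univ _, hB'K b hb⟩
      refine Or.inl ⟨insert a (insert a' P), ?_, ?_, s + a', B', hB'K, ?_, by omega, ?_⟩
      · exact Finset.insert_subset haA (Finset.insert_subset haA' hP)
      · rw [Finset.card_insert_of_notMem (by simp [hne, haP]), Finset.card_insert_of_notMem haP']
        omega
      · intro k hk
        rcases Finset.mem_union.1 hk with h | h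
        · obtain ⟨S, h1, h2, h3⟩ := hF k h
          have h4 : a' ∉ S := fun h => haP' (h1 h)
          refine ⟨insert a' S, ?_, by rw [Finset.card_insert_of_notMem h4, h2], ?_⟩
          · exact (Finset.insert_subset_insert _ h1).trans (Finset.subset_insert _ _)
          · rw [Finset.sum_insert h4, h3]; abel
        · obtain ⟨b₀, h0, rfl⟩ := Finset.mem_image.1 h
          obtain ⟨S, h1, h2, h3⟩ := hF b₀ (Finset.mem_filter.1 h0).1
          have h4 : a ∉ S := fun h => haP (h1 h)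
          refine ⟨insert a S, ?_, by rw [Finset.card_insert_of_notMem h4, h2], ?_⟩
          · exact Finset.insert_subset_insert _ (h1.trans (Finset.subset_insert _ _))
          · rw [Finset.sum_insert h4, h3]; abel
      · have k1 := key_step (b := B.card) (c := Nat.card K - B.card) (l := lam B (a - a')) (j := j)
          (b' := B'.card) (c' := Nat.card K - B'.card) hB'c.ge (by omega)
          (by rwa [show B.card + (Nat.card K - B.card) = Nat.card K by omega])
        refine Nat.le_of_mul_le_mul_left ?_ hB0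
        calc B.card * ((Nat.card K - B'.card) * (j + 1) ^ (t + 1))
            = B.card * ((Nat.card K - B'.card) * (j + 1)) * (j + 1) ^ t := by ring
          _ ≤ B'.card * j * (Nat.card K - B.card) * (j + 1) ^ t := by gcongr
          _ = B'.card * j * ((Nat.card K - B.card) * (j + 1) ^ t) := by ring
          _ ≤ B'.card * j * (B.card * Nat.card K * j ^ t) := by gcongr
          _ = _ := by ring

lemma two_mul_pow_le (j : ℕ) (hj : 0 < j) : 2 * j ^ j ≤ (j + 1) ^ j := by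
  have := pow_add_mul_le_add_pow_of_sq_nonneg (a := j) (b := 1) (Nat.zero_le _) (Nat.zero_le _)
    (Nat.zero_le _) (Nat.zero_le _) j
  obtain ⟨i, rfl⟩ : ∃ i, j = i + 1 := ⟨j - 1, by omega⟩
  rw [Nat.add_sub_cancel, Nat.cast_id, mul_one, ← pow_succ'] at this
  omega

lemma round (hsep : ∀ x : G, x ≠ 0 → ∃ φ : G →+ ZMod n, φ x ≠ 0) (K : AddSubgroup G)
    (A : Finset G) (hd : ∀ x ∈ A, ∀ x' ∈ A, x - x' ∈ K) {u v w T I : ℕ} (hn : n ≤ u * w)
    (hv : 0 < v) (hI : Nat.card K ≤ 2 ^ I) (hTd : T = (2 * u * v + 1) * (2 * I + 1))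
    (hT : 2 * T + 2 ≤ A.card) :
    (∃ P ⊆ A, P.card = 2 * T ∧ ∃ s : G, Fill P T s K) ∨
    ∃ φ : G →+ ZMod n, (∃ k ∈ K, φ k ≠ 0) ∧ ∃ a ∈ A, ∃ A₁ ⊆ A,
      A.card ≤ A₁.card + (2 * T + A.card / v) ∧ ∀ x ∈ A₁, |(φ (x - a)).valMinAbs| ≤ w := by
  classical
  rcases greedy hsep K A hd hn hv hT T le_rfl with ⟨P, hP, hPc, s, B, hB, hF, -, hI'⟩ | h
  swap
  · exact Or.inr h
  refine Or.inl ⟨P, hP, hPc, s, ?_⟩
  set j := 2 * u * v + 1 with hj
  have hj0 : 0 < j := by omega
  have hsub : B ⊆ univ.filter (· ∈ K) :=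
    fun b hb => Finset.mem_filter.2 ⟨Finset.mem_univ _, hB b hb⟩
  have hle : B.card ≤ Nat.card K := by rw [← card_filter_mem K]; exact Finset.card_le_card hsub
  have hge : Nat.card K ≤ B.card := by
    by_contra hlt
    have h1 : (j + 1) ^ T ≤ 2 ^ I * 2 ^ I * j ^ T := by
      calc (j + 1) ^ T ≤ (Nat.card K - B.card) * (j + 1) ^ T :=
            Nat.le_mul_of_pos_left _ (by omega)
        _ ≤ B.card * Nat.card K * j ^ T := hI'
        _ ≤ _ := by gcongr; exact hle.trans hI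
    have h2 : (2 * j ^ j) ^ (2 * I + 1) ≤ (j + 1) ^ T := by
      rw [hTd, pow_mul]; exact Nat.pow_le_pow_left (two_mul_pow_le j hj0) _
    rw [mul_pow, ← pow_mul, ← hTd] at h2
    have h3 : 0 < 2 ^ I * 2 ^ I * j ^ T := by positivity
    have h4 : 2 ^ (2 * I + 1) * j ^ T = 2 * (2 ^ I * 2 ^ I * j ^ T) := by ring
    omega
  have hEq : B = univ.filter (· ∈ K) :=
    Finset.eq_of_subset_of_card_le hsub (by rw [card_filter_mem]; exact hge)
  intro k hk
  exact hF k (by rw [hEq]; simpa using hk)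

lemma card_le_of_diff (K : AddSubgroup G) (A : Finset G) (hd : ∀ x ∈ A, ∀ x' ∈ A, x - x' ∈ K) :
    A.card ≤ Nat.card K := by
  classical
  rcases A.eq_empty_or_nonempty with rfl | ⟨a, ha⟩
  · simp
  rw [← card_filter_mem K]
  exact Finset.card_le_card_of_injOn (fun x => x - a)
    (fun x hx => by simpa using hd x hx a ha) (fun x _ y _ h => sub_left_injective h)

lemma dich (hsep : ∀ x : G, x ≠ 0 → ∃ φ : G →+ ZMod n, φ x ≠ 0) {u v w T I m ρ M : ℕ}
    (hn : n ≤ u * w) (hv : 0 < v) (hTd : T = (2 * u * v + 1) * (2 * I + 1))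
    (hm : 2 * T + 2 ≤ m) (hρ : 2 * T + M / v ≤ ρ) (i : ℕ) (hi : i ≤ I) :
    ∀ (K : AddSubgroup G) (A : Finset G), (∀ x ∈ A, ∀ x' ∈ A, x - x' ∈ K) → Nat.card K ≤ 2 ^ i →
      A.card ≤ M → m + ρ * i ≤ A.card →
    (∃ K' ≤ K, ∃ A₁ ⊆ A, m ≤ A₁.card ∧ (∀ x ∈ A₁, ∀ x' ∈ A₁, x - x' ∈ K') ∧
      ∃ P ⊆ A₁, P.card = 2 * T ∧ ∃ s : G, Fill P T s K') ∨
    ∃ φ : G →+ ZMod n, ∃ a ∈ A, ∃ A₁ ⊆ A, m ≤ A₁.card ∧
      (∀ x ∈ A₁, |(φ (x - a)).valMinAbs| ≤ w) ∧ ∃ x ∈ A₁, ∃ x' ∈ A₁, φ x ≠ φ x' := by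
  induction i with
  | zero =>
    intro K A hd hK _ hA
    have := card_le_of_diff K A hd
    omega
  | succ i ih =>
    intro K A hd hK hM hA
    have hmul : ρ * (i + 1) = ρ * i + ρ := by ring
    rcases round hsep K A hd hn hv (hK.trans (Nat.pow_le_pow_right two_pos hi)) hTd (by omega) with
      h | ⟨φ, ⟨k, hk, hk'⟩, a, ha, A₁, h1, h2, h3⟩
    · exact Or.inl ⟨K, le_rfl, A, subset_rfl, by omega, hd, h⟩
    have h4 : A.card / v ≤ M / v := Nat.div_le_div_right hM
    by_cases hc : ∃ x ∈ A₁, ∃ x' ∈ A₁, φ x ≠ φ x'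
    · exact Or.inr ⟨φ, a, ha, A₁, h1, by omega, h3, hc⟩
    push Not at hc
    have hle : K ⊓ φ.ker ≤ K := inf_le_left
    have hK' : Nat.card (K ⊓ φ.ker : AddSubgroup G) ≤ 2 ^ i := by
      obtain ⟨c, hc'⟩ := AddSubgroup.card_dvd_of_le hle
      have hne : c ≠ 1 := by
        rintro rfl
        have := AddSubgroup.eq_of_le_of_card_ge hle (by omega)
        rw [← this] at hk
        exact hk' hk.2
      have h0 : c ≠ 0 := by
        rintro rfl
        exact absurd (Nat.card_pos (α := K)) (by omega)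
      have : Nat.card (K ⊓ φ.ker : AddSubgroup G) * 2 ≤ Nat.card K := by
        rw [hc']; exact Nat.mul_le_mul_left _ (by omega)
      rw [pow_succ] at hK
      omega
    rcases ih (by omega) (K ⊓ φ.ker) A₁ (fun x hx x' hx' => AddSubgroup.mem_inf.2 ⟨hd x (h1 hx) x' (h1 hx'), by
        rw [AddMonoidHom.mem_ker, map_sub, hc x hx x' hx', sub_self]⟩) hK'
        ((Finset.card_le_card h1).trans hM) (by omega) with
      ⟨K', k1, A₂, k2, k3⟩ | ⟨ψ, b, hb, A₂, k2, k3⟩
    · exact Or.inl ⟨K', k1.trans hle, A₂, k2.trans h1, k3⟩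
    · exact Or.inr ⟨ψ, b, h1 hb, A₂, k2.trans h1, k3⟩

omit [Fintype G] [DecidableEq G] in
lemma nsmul_eq_zero_of_sep (hsep : ∀ x : G, x ≠ 0 → ∃ φ : G →+ ZMod n, φ x ≠ 0) (x : G) :
    n • x = 0 := by
  by_contra h
  obtain ⟨φ, hφ⟩ := hsep _ h
  exact hφ (by rw [map_nsmul, nsmul_eq_mul, ZMod.natCast_self, zero_mul])

omit [Fintype G] [DecidableEq G] [NeZero n] in
lemma sum_sub_mem (K : AddSubgroup G) (S : Finset G) (p : G) (h : ∀ x ∈ S, x - p ∈ K) :
    ∑ x ∈ S, x - S.card • p ∈ K := by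
  rw [← Finset.sum_const, ← Finset.sum_sub_distrib]
  exact K.sum_mem h

omit [Fintype G] [NeZero n] in
lemma fill_done (hG : ∀ x : G, n • x = 0) (K : AddSubgroup G) (A : Finset G)
    (hd : ∀ x ∈ A, ∀ x' ∈ A, x - x' ∈ K) {T : ℕ} (hT : T ≤ n) (hA : n + T ≤ A.card)
    (h0 : 0 < n) (P : Finset G) (hP : P ⊆ A) (hPc : P.card = 2 * T) (s : G) (hF : Fill P T s K) :
    ∃ U ⊆ A, U.card = n ∧ ∑ x ∈ U, x = 0 := by
  have hc : (A \ P).card + P.card = A.card := Finset.card_sdiff_add_card_eq_card hP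
  obtain ⟨S, h1, h2⟩ := Finset.exists_subset_card_eq (show n - T ≤ (A \ P).card by omega)
  obtain ⟨p, hp⟩ : A.Nonempty := Finset.card_pos.1 (by omega)
  obtain ⟨S₀, k1, k2, k3⟩ := hF 0 K.zero_mem
  have e1 := sum_sub_mem K S p fun x hx => hd x (Finset.sdiff_subset (h1 hx)) p hp
  have e2 := sum_sub_mem K S₀ p fun x hx => hd x (hP (k1 hx)) p hp
  rw [k2, k3, add_zero] at e2
  rw [h2] at e1
  have e3 : -(∑ x ∈ S, x + s) ∈ K := by
    have := K.neg_mem (K.add_mem e1 e2)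
    have e4 : (n - T) • p + T • p = 0 := by rw [← add_nsmul, Nat.sub_add_cancel hT, hG]
    rwa [show ∑ x ∈ S, x - (n - T) • p + (s - T • p) =
      ∑ x ∈ S, x + s - ((n - T) • p + T • p) by abel, e4, sub_zero] at this
  obtain ⟨S₁, l1, l2, l3⟩ := hF _ e3
  have hdis : Disjoint S S₁ := Finset.disjoint_left.2 fun x hx hx' =>
    (Finset.mem_sdiff.1 (h1 hx)).2 (l1 hx')
  refine ⟨S ∪ S₁, Finset.union_subset (h1.trans Finset.sdiff_subset) (l1.trans hP), ?_, ?_⟩
  · rw [Finset.card_union_of_disjoint hdis]; omega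
  · rw [Finset.sum_union hdis, l3]; abel

lemma arc_card (K : AddSubgroup G) (φ : G →+ ZMod n) {W r : ℕ} {h : G} (hh : h ∈ K) {γ : ℤ}
    (hγ0 : γ ≠ 0) (hγ : |γ| ≤ 2 * W) (hφ : φ h = γ) (hr : r * (4 * W) ≤ n) (a : G) (X : Finset G)
    (hX : ∀ x ∈ X, x - a ∈ K ∧ |(φ (x - a)).valMinAbs| ≤ W) : X.card * r ≤ Nat.card K := by
  classical
  wlog hpos : 0 < γ generalizing h γ
  · refine this (K.neg_mem hh) (neg_ne_zero.2 hγ0) (by rwa [abs_neg]) (by rw [map_neg, hφ]; simp) ?_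
    omega
  rw [abs_of_pos hpos] at hγ
  set k : ℤ := 2 * W / γ + 1 with hk
  have h1 : 2 * W < k * γ := by
    have := Int.lt_ediv_add_one_mul_self (2 * (W : ℤ)) hpos
    rwa [hk]
  have h2 : k * γ ≤ 4 * W := by
    have := Int.ediv_mul_le (2 * (W : ℤ)) hγ0
    rw [hk, add_mul]; omega
  rw [← card_filter_mem K, ← Finset.card_range r, ← Finset.card_product]
  refine Finset.card_le_card_of_injOn (fun p => p.1 - a + ((p.2 : ℤ) * k) • h) ?_ ?_
  · intro p hp
    obtain ⟨p1, -⟩ := Finset.mem_product.1 hp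
    simpa using K.add_mem (hX _ p1).1 (K.zsmul_mem hh _)
  · rintro ⟨x, i⟩ hp ⟨x', i'⟩ hp' hE
    obtain ⟨p1, p2⟩ := Finset.mem_product.1 hp
    obtain ⟨p1', p2'⟩ := Finset.mem_product.1 hp'
    simp only [Finset.mem_range] at p1 p2 p1' p2' hE
    have e1 := congrArg φ hE
    rw [map_add, map_add, map_zsmul, map_zsmul, hφ, ← ZMod.coe_valMinAbs (φ (x - a)),
      ← ZMod.coe_valMinAbs (φ (x' - a))] at e1
    have b1 := (hX x p1).2
    have b2 := (hX x' p1').2
    generalize (φ (x - a)).valMinAbs = z at e1 b1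
    generalize (φ (x' - a)).valMinAbs = z' at e1 b2
    have e2 : (n : ℤ) ∣ z - z' + ((i : ℤ) - i') * (k * γ) := by
      rw [← ZMod.intCast_zmod_eq_zero_iff_dvd]
      push_cast
      simp only [zsmul_eq_mul, Int.cast_mul, Int.cast_natCast] at e1
      linear_combination e1
    have hr' : (r : ℤ) * (4 * W) ≤ n := by exact_mod_cast hr
    have hi : (i : ℤ) + 1 ≤ r := by exact_mod_cast p2
    have hi' : (i' : ℤ) + 1 ≤ r := by exact_mod_cast p2'
    have hi0 : (0 : ℤ) ≤ i := Int.natCast_nonneg i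
    have hi0' : (0 : ℤ) ≤ i' := Int.natCast_nonneg i'
    rw [abs_le] at b1 b2
    generalize k * γ = Γ at h1 h2 e2
    have e3 := Int.eq_zero_of_abs_lt_dvd e2 (by rw [abs_lt]; constructor <;> nlinarith)
    have e4 : (i : ℤ) = i' := by
      rcases lt_trichotomy (i : ℤ) i' with c | c | c
      · nlinarith
      · exact c
      · nlinarith
    have e5 : i = i' := by exact_mod_cast e4
    subst e5
    simpa using hE

end Pool.Agent.MP_f9a021_co.GT

end

section

/-! Short words, exchange of elements inside reserved sets, and two integer lemmas. -/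

open Finset

set_option linter.unusedSectionVars false

namespace Pool.Agent.MP_f9a021_co.GT

section

variable {Γ : Type*} [AddCommGroup Γ] {D : Set Γ}

/-- `τ` is a sum of `J` elements of `D`. -/
def Wd (D : Set Γ) : ℕ → Γ → Prop
  | 0, τ => τ = 0
  | J + 1, τ => ∃ d ∈ D, Wd D J (τ - d)

lemma Wd.add {a : ℕ} {x : Γ} (h1 : Wd D a x) (b : ℕ) : ∀ y, Wd D b y → Wd D (a + b) (x + y) := by
  induction b with
  | zero => intro y h; rw [show y = 0 from h, add_zero, add_zero]; exact h1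
  | succ b ih =>
    rintro y ⟨d, hd, h⟩
    exact ⟨d, hd, by rw [add_sub_assoc]; exact ih _ h⟩

lemma Wd.nsmul {d : Γ} (hd : d ∈ D) (k : ℕ) : Wd D k (k • d) := by
  induction k with
  | zero => exact zero_nsmul d
  | succ k ih => exact ⟨d, hd, by rw [succ_nsmul, add_sub_cancel_right]; exact ih⟩

lemma Wd.mono (h0 : (0 : Γ) ∈ D) {a b : ℕ} (hab : a ≤ b) {x : Γ} (h : Wd D a x) : Wd D b x := by
  obtain ⟨c, rfl⟩ := Nat.exists_eq_add_of_le hab
  have := h.add c _ (Wd.nsmul h0 c)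
  rwa [nsmul_zero, add_zero] at this

lemma Wd.zsmul {d : Γ} (hd : d ∈ D) (hd' : -d ∈ D) (k : ℤ) : Wd D k.natAbs (k • d) := by
  rcases Int.natAbs_eq k with h | h
  · conv_rhs => rw [h, natCast_zsmul]
    exact Wd.nsmul hd _
  · conv_rhs => rw [h, neg_zsmul, natCast_zsmul, ← smul_neg]
    exact Wd.nsmul hd' _

lemma Wd.bound (f : Γ →+ ℤ) {B : ℤ} (hB : ∀ d ∈ D, |f d| ≤ B) (J : ℕ) :
    ∀ τ, Wd D J τ → |f τ| ≤ J * B := by
  induction J with
  | zero => intro τ h; rw [show τ = 0 from h]; simp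
  | succ J ih =>
    rintro τ ⟨d, hd, h⟩
    have h1 := ih _ h
    have h2 := hB d hd
    rw [map_sub] at h1
    push_cast
    rw [abs_le] at *
    constructor <;> nlinarith [h1.1, h1.2, h2.1, h2.2]

lemma words (h0 : (0 : Γ) ∈ D) (hneg : ∀ d ∈ D, -d ∈ D) (δ : Γ) (Y : Finset Γ)
    (hY : ∀ γ ∈ AddSubgroup.closure D, ∃ k : ℤ, γ - k • δ ∈ Y) :
    ∀ γ ∈ AddSubgroup.closure D, ∃ k : ℤ, Wd D Y.card (γ - k • δ) := by
  classical
  let X : ℕ → Finset Γ := fun i => Y.filter (fun y => ∃ k : ℤ, Wd D i (y - k • δ))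
  have hmono : ∀ i, X i ⊆ X (i + 1) := by
    intro i y hy
    obtain ⟨h1, k, h2⟩ := Finset.mem_filter.1 hy
    exact Finset.mem_filter.2 ⟨h1, k, h2.mono h0 (by omega)⟩
  obtain ⟨i, hi, hX⟩ : ∃ i ≤ Y.card, X i = X (i + 1) := by
    by_contra hc
    push Not at hc
    have : ∀ i ≤ Y.card + 1, i ≤ (X i).card := by
      intro i
      induction i with
      | zero => omega
      | succ i ih =>
        intro h
        have := Finset.card_lt_card (Finset.ssubset_iff_subset_ne.2 ⟨hmono i, hc i (by omega)⟩)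
        have := ih (by omega)
        omega
    have h1 := this _ le_rfl
    have h2 : (X (Y.card + 1)).card ≤ Y.card := Finset.card_le_card (Finset.filter_subset _ _)
    omega
  have step : ∀ d ∈ D, ∀ x ∈ AddSubgroup.closure D, (∃ k : ℤ, Wd D i (x - k • δ)) →
      ∃ k : ℤ, Wd D i (d + x - k • δ) := by
    rintro d hd x hx ⟨k, hk⟩
    obtain ⟨k', hk'⟩ := hY (d + x) (AddSubgroup.add_mem _ (AddSubgroup.subset_closure hd) hx)
    have h1 : d + x - k' • δ ∈ X (i + 1) := Finset.mem_filter.2 ⟨hk', k - k', d, hd, by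
      rwa [show d + x - k' • δ - (k - k') • δ - d = x - k • δ by rw [sub_zsmul]; abel]⟩
    rw [← hX] at h1
    obtain ⟨-, k'', h2⟩ := Finset.mem_filter.1 h1
    exact ⟨k' + k'', by rwa [add_zsmul, ← sub_sub]⟩
  intro γ hγ
  obtain ⟨k, hk⟩ : ∃ k : ℤ, Wd D i (γ - k • δ) := by
    induction hγ using AddSubgroup.closure_induction_left with
    | zero => exact ⟨0, by simpa using Wd.nsmul h0 i⟩
    | add_left x hx y hy ih => exact step x hx y hy ih
    | neg_add_cancel x hx y hy ih => exact step _ (hneg x hx) y hy ih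
  exact ⟨k, hk.mono h0 hi⟩

variable {α : Type*} [DecidableEq α] [DecidableEq Γ]

lemma realize (κ : α → Γ) (H : Finset α) (J : ℕ) : ∀ (R R' : Finset α) (τ : Γ), Disjoint R R' →
    (∀ a ∈ H, J ≤ (R.filter (fun x => κ x = κ a)).card) →
    (∀ a ∈ H, J ≤ (R'.filter (fun x => κ x = κ a)).card) →
    Wd {d | ∃ a ∈ H, ∃ a' ∈ H, d = κ a - κ a'} J τ →
    ∃ S ⊆ R ∪ R', S.card = R.card ∧ ∑ x ∈ S, κ x = ∑ x ∈ R, κ x + τ := by
  induction J with
  | zero =>
    intro R R' τ _ _ _ h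
    exact ⟨R, Finset.subset_union_left, rfl, by rw [show τ = 0 from h, add_zero]⟩
  | succ J ih =>
    rintro R R' τ hd h1 h2 ⟨_, ⟨a, ha, a', ha', rfl⟩, h⟩
    obtain ⟨u, hu⟩ : (R.filter (fun x => κ x = κ a')).Nonempty :=
      Finset.card_pos.1 (by have := h1 a' ha'; omega)
    obtain ⟨v, hv⟩ : (R'.filter (fun x => κ x = κ a)).Nonempty :=
      Finset.card_pos.1 (by have := h2 a ha; omega)
    obtain ⟨u1, u2⟩ := Finset.mem_filter.1 hu
    obtain ⟨v1, v2⟩ := Finset.mem_filter.1 hv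
    have u3 : u ∉ R' := Finset.disjoint_left.1 hd u1
    have v3 : v ∉ R := Finset.disjoint_right.1 hd v1
    have key : ∀ (T : Finset α) (p q : α) (b : α), J + 1 ≤ (T.filter (fun x => κ x = κ b)).card →
        J ≤ ((insert q (T.erase p)).filter (fun x => κ x = κ b)).card := by
      intro T p q b hT
      have e1 : (T.filter (fun x => κ x = κ b)).erase p ⊆
          (insert q (T.erase p)).filter (fun x => κ x = κ b) := by
        intro x hx
        simp only [Finset.mem_erase, Finset.mem_filter, Finset.mem_insert] at hx ⊢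
        tauto
      have := Finset.card_le_card e1
      have := Finset.pred_card_le_card_erase (s := T.filter (fun x => κ x = κ b)) (a := p)
      omega
    obtain ⟨S, s1, s2, s3⟩ := ih (insert v (R.erase u)) (insert u (R'.erase v)) _ (by
        rw [Finset.disjoint_left]
        intro x hx hx'
        simp only [Finset.mem_insert, Finset.mem_erase] at hx hx'
        rcases hx with rfl | ⟨x1, x2⟩
        · rcases hx' with rfl | ⟨x3, -⟩
          · exact u3 v1
          · exact x3 rfl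
        · rcases hx' with rfl | ⟨-, x3⟩
          · exact x1 rfl
          · exact Finset.disjoint_left.1 hd x2 x3)
      (fun b hb => key _ _ _ _ (h1 b hb)) (fun b hb => key _ _ _ _ (h2 b hb)) h
    have v4 : v ∉ R.erase u := fun h => v3 (Finset.mem_of_mem_erase h)
    refine ⟨S, s1.trans ?_, ?_, ?_⟩
    · intro x hx
      simp only [Finset.mem_union, Finset.mem_insert, Finset.mem_erase] at hx ⊢
      rcases hx with (rfl | h) | rfl | h
      · exact Or.inr v1
      · exact Or.inl h.2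
      · exact Or.inl u1
      · exact Or.inr h.2
    · rw [s2, Finset.card_insert_of_notMem v4, Finset.card_erase_add_one u1]
    · rw [s3, Finset.sum_insert v4, ← Finset.add_sum_erase _ _ u1, u2, v2]; abel

lemma reserve (κ : α → Γ) (Z : Finset α) (J : ℕ) (C : Finset Γ)
    (h : ∀ c ∈ C, J ≤ (Z.filter (fun x => κ x = c)).card) :
    ∃ R ⊆ Z, R.card ≤ C.card * J ∧ ∀ c ∈ C, (R.filter (fun x => κ x = c)).card = J := by
  have h1 : ∀ c, ∃ F : Finset α, c ∈ C → F ⊆ Z.filter (fun x => κ x = c) ∧ F.card = J := by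
    intro c
    by_cases hc : c ∈ C
    · obtain ⟨F, hF⟩ := Finset.exists_subset_card_eq (h c hc)
      exact ⟨F, fun _ => hF⟩
    · exact ⟨∅, fun h => absurd h hc⟩
  choose F hF using h1
  refine ⟨C.biUnion F, Finset.biUnion_subset.2 fun c hc =>
    (hF c hc).1.trans (Finset.filter_subset _ _),
    Finset.card_biUnion_le_card_mul _ _ _ fun c hc => (hF c hc).2.le, fun c hc => ?_⟩
  rw [← (hF c hc).2]
  congr 1
  ext x
  simp only [Finset.mem_filter, Finset.mem_biUnion]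
  constructor
  · rintro ⟨⟨c', h1, h2⟩, h3⟩
    rwa [← h3, (Finset.mem_filter.1 ((hF c' h1).1 h2)).2]
  · intro hx
    exact ⟨⟨c, hc, hx⟩, (Finset.mem_filter.1 ((hF c hc).1 hx)).2⟩

end

section

variable {α : Type*} [DecidableEq α]

lemma walk (W : Finset α) (y : α → ℤ) {B : ℤ} (hB : ∀ x ∈ W, |y x| ≤ B) (hB0 : 0 ≤ B) (τ : ℤ)
    (S' : Finset α) (hS' : S' ⊆ W) (h2 : τ ≤ ∑ x ∈ S', y x) (d : ℕ) :
    ∀ S ⊆ W, S.card = S'.card → (S \ S').card = d → ∑ x ∈ S, y x ≤ τ →
      ∃ T ⊆ W, T.card = S'.card ∧ |∑ x ∈ T, y x - τ| ≤ 2 * B := by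
  induction d with
  | zero =>
    intro S hS hc hd h1
    have : S = S' := Finset.eq_of_subset_of_card_le
      (Finset.sdiff_eq_empty_iff_subset.1 (Finset.card_eq_zero.1 hd)) hc.ge
    subst this
    exact ⟨S, hS, rfl, by rw [abs_le]; constructor <;> linarith⟩
  | succ d ih =>
    intro S hS hc hd h1
    obtain ⟨a, ha⟩ : (S \ S').Nonempty := Finset.card_pos.1 (by omega)
    obtain ⟨b, hb⟩ : (S' \ S).Nonempty :=
      Finset.card_pos.1 (by rw [← Finset.card_sdiff_comm hc]; omega)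
    obtain ⟨a1, a2⟩ := Finset.mem_sdiff.1 ha
    obtain ⟨b1, b2⟩ := Finset.mem_sdiff.1 hb
    have b3 : b ∉ S.erase a := fun h => b2 (Finset.mem_of_mem_erase h)
    have e1 : ∑ x ∈ insert b (S.erase a), y x = ∑ x ∈ S, y x - y a + y b := by
      rw [Finset.sum_insert b3, ← Finset.add_sum_erase _ _ a1]; ring
    by_cases h : ∑ x ∈ insert b (S.erase a), y x ≤ τ
    · refine ih _ (Finset.insert_subset (hS' b1) ((Finset.erase_subset _ _).trans hS)) ?_ ?_ h
      · rw [Finset.card_insert_of_notMem b3, Finset.card_erase_add_one a1, hc]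
      · rw [Finset.insert_sdiff_of_mem _ b1, Finset.erase_sdiff_comm, Finset.card_erase_of_mem ha]
        omega
    · have := abs_le.1 (hB a (hS a1))
      have := abs_le.1 (hB b (hS' b1))
      exact ⟨S, hS, hc, by rw [abs_le]; constructor <;> linarith⟩

lemma bottom (W : Finset α) (y : α → ℤ) (s : ℕ) (hs : s ≤ W.card) :
    ∃ T ⊆ W, T.card = s ∧ ∀ x ∈ T, ∀ x' ∈ W \ T, y x ≤ y x' := by
  induction s with
  | zero => exact ⟨∅, by simp, rfl, by simp⟩
  | succ s ih =>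
    obtain ⟨T, h1, h2, h3⟩ := ih (by omega)
    have hc : (W \ T).card + T.card = W.card := Finset.card_sdiff_add_card_eq_card h1
    obtain ⟨a, ha, hm⟩ := Finset.exists_min_image (W \ T) y (Finset.card_pos.1 (by omega))
    obtain ⟨a1, a2⟩ := Finset.mem_sdiff.1 ha
    refine ⟨insert a T, Finset.insert_subset a1 h1, by rw [Finset.card_insert_of_notMem a2, h2], ?_⟩
    intro x hx x' hx'
    have : x' ∈ W \ T := Finset.sdiff_subset_sdiff subset_rfl (Finset.subset_insert _ _) hx'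
    rcases Finset.mem_insert.1 hx with rfl | h
    · exact hm x' this
    · exact h3 x h x' this

end

end Pool.Agent.MP_f9a021_co.GT

end

section

/-! The structure of large sets without a zero-sum `n`-subset. -/

open Finset

set_option linter.unusedSectionVars false

namespace Pool.Agent.MP_f9a021_co.GT

variable {G : Type*} [AddCommGroup G] [Fintype G] [DecidableEq G] {n : ℕ} [NeZero n]

lemma pw {l : ℕ} (hl : 2000 ≤ l) (c a b : ℕ) (hc : c ≤ 2000) (hab : a < b) : c * l ^ a ≤ l ^ b :=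
  calc c * l ^ a ≤ l * l ^ a := Nat.mul_le_mul_right _ (by omega)
    _ = l ^ (a + 1) := by ring
    _ ≤ l ^ b := Nat.pow_le_pow_right (by omega) hab

lemma eta_facts {l η n : ℕ} (hl : 2000 ≤ l) (hn : l ^ 40 ≤ n) (hη : η = (n / l ^ 5 + 1) * l ^ 4) :
    n ≤ η * l ∧ η * l ≤ 2 * n ∧ l ^ 39 ≤ η := by
  have h0 : 0 < l ^ 5 := by positivity
  have h1 : η * l = n / l ^ 5 * l ^ 5 + l ^ 5 := by rw [hη]; ring
  have h2 := Nat.div_mul_le_self n (l ^ 5)
  have h3 := Nat.lt_div_mul_add (a := n) h0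
  have h4 : l ^ 5 ≤ l ^ 40 := Nat.pow_le_pow_right (by omega) (by norm_num)
  refine ⟨by omega, by omega, Nat.le_of_mul_le_mul_right ?_ (show 0 < l by omega)⟩
  rw [show l ^ 39 * l = l ^ 40 by ring]; omega

lemma arc_two (K : AddSubgroup G) (φ : G →+ ZMod n) {w W r : ℕ} (hw : w ≤ W) {x x' b : G}
    (hx : |(φ (x - b)).valMinAbs| ≤ w) (hx' : |(φ (x' - b)).valMinAbs| ≤ w) (hne : φ x ≠ φ x')
    (hK : x - x' ∈ K) (hr : r * (4 * W) ≤ n) (a : G) (X : Finset G)
    (hX : ∀ x ∈ X, x - a ∈ K ∧ |(φ (x - a)).valMinAbs| ≤ W) : X.card * r ≤ Nat.card K := by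
  have e : φ (x - x') = (((φ (x - b)).valMinAbs - (φ (x' - b)).valMinAbs : ℤ) : ZMod n) := by
    push_cast
    rw [← map_sub]; congr 1; abel
  refine arc_card K φ hK ?_ ?_ e hr a X hX
  · intro h0
    rw [h0, map_sub, Int.cast_zero, sub_eq_zero] at e
    exact hne e
  · have : (w : ℤ) ≤ W := by exact_mod_cast hw
    rw [abs_le] at *
    constructor <;> linarith [hx.1, hx.2, hx'.1, hx'.2]

lemma stage1 (hsep : ∀ x : G, x ≠ 0 → ∃ φ : G →+ ZMod n, φ x ≠ 0) {l η : ℕ} (hl : 2000 ≤ l)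
    (hn : l ^ 40 ≤ n) (hη : η = (n / l ^ 5 + 1) * l ^ 4) (hG : Nat.card G ≤ 2 ^ l) (A : Finset G)
    (h1 : n + 100 * η ≤ A.card) (h2 : A.card ≤ 3 * n)
    (hf : ∀ U ⊆ A, U.card = n → ∑ x ∈ U, x ≠ 0) :
    ∃ φ : G →+ ZMod n, ∃ a : G, ∃ Z ⊆ A, A.card ≤ Z.card + 21 * η ∧
      (∀ x ∈ Z, |(φ (x - a)).valMinAbs| ≤ (l ^ 5 : ℕ)) ∧ ∃ x ∈ Z, ∃ x' ∈ Z, φ x ≠ φ x' := by
  obtain ⟨e1, e2, e3⟩ := eta_facts hl hn hη
  set u := n / l ^ 5 + 1 with hu
  have hu0 : 1 ≤ u := Nat.le_add_left _ _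
  have e4 : η * l = u * l ^ 5 := by rw [hη]; ring
  have hT : (2 * u * l ^ 2 + 1) * (2 * l + 1) ≤ 9 * (u * l ^ 3) := by
    have : 1 ≤ u * l ^ 2 := Nat.one_le_iff_ne_zero.2 (by positivity)
    calc (2 * u * l ^ 2 + 1) * (2 * l + 1) ≤ (3 * (u * l ^ 2)) * (3 * l) :=
          Nat.mul_le_mul (by rw [mul_assoc]; omega) (by omega)
      _ = _ := by ring
  have e5 : 9 * (u * l ^ 3) ≤ η := by
    rw [hη, mul_left_comm]; exact Nat.mul_le_mul_left _ (pw hl 9 3 4 (by norm_num) (by norm_num))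
  have e6 : 3 * n / l ^ 2 ≤ 3 * (u * l ^ 3) :=
    Nat.div_le_of_le_mul (by rw [show l ^ 2 * (3 * (u * l ^ 3)) = 3 * (u * l ^ 5) by ring]; omega)
  have e7 : 21 * (u * l ^ 3) * l = 21 * η := by rw [hη]; ring
  have e8 : η * 2000 ≤ η * l := Nat.mul_le_mul_left _ hl
  have e9 : 0 < n := NeZero.pos n
  have e10 : 2 ≤ n := by
    have := pw hl 2 0 40 (by norm_num) (by norm_num)
    rw [pow_zero] at this
    omega
  rcases dich hsep (u := u) (v := l ^ 2) (w := l ^ 5) (I := l) (m := A.card - 21 * η)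
    (ρ := 21 * (u * l ^ 3)) (M := 3 * n) (by omega) (by positivity) rfl (by omega) (by omega) l
    le_rfl ⊤ A (fun _ _ _ _ => AddSubgroup.mem_top _) (by rwa [AddSubgroup.card_top]) h2
    (by omega) with ⟨K, -, A₁, k1, k2, k3, P, k4, k5, s, k6⟩ | ⟨φ, a, -, Z, k1, k2, k3⟩
  · obtain ⟨U, u1, u2, u3⟩ := fill_done (nsmul_eq_zero_of_sep hsep) K A₁ k3 (by omega) (by omega)
      e9 P k4 k5 s k6
    exact absurd u3 (hf U (u1.trans k1) u2)
  · exact ⟨φ, a, Z, k1, by omega, k3⟩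

lemma stage2 (hsep : ∀ x : G, x ≠ 0 → ∃ φ : G →+ ZMod n, φ x ≠ 0) {l η : ℕ} (hl : 2000 ≤ l)
    (hn : l ^ 40 ≤ n) (hη : η = (n / l ^ 5 + 1) * l ^ 4) (hG : Nat.card G ≤ 2 ^ l)
    (H : AddSubgroup G) (hH : Nat.card H ≤ 16 * l ^ 5 * n) (V : Finset G)
    (hd : ∀ x ∈ V, ∀ x' ∈ V, x - x' ∈ H) (h1 : n ≤ V.card * (3 * l ^ 5)) (h2 : V.card ≤ 3 * n) :
    ∃ L ≤ H, ∃ A ⊆ V, V.card ≤ A.card + 4 * η ∧ V.card ≤ 2 * A.card ∧
      (∀ x ∈ A, ∀ x' ∈ A, x - x' ∈ L) ∧ ∃ T ≤ l ^ 16, ∃ P ⊆ A, P.card = 2 * T ∧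
        ∃ s : G, Fill P T s L := by
  obtain ⟨e1, e2, e3⟩ := eta_facts hl hn hη
  have hl0 : 0 < l := by omega
  obtain ⟨T, hT⟩ : ∃ T, T = (2 * l ^ 12 * l ^ 2 + 1) * (2 * l + 1) := ⟨_, rfl⟩
  have hT1 : T ≤ 9 * l ^ 15 := by
    have : 1 ≤ l ^ 12 * l ^ 2 := Nat.one_le_iff_ne_zero.2 (by positivity)
    calc T ≤ (3 * (l ^ 12 * l ^ 2)) * (3 * l) := by
          rw [hT]; exact Nat.mul_le_mul (by rw [mul_assoc]; omega) (by omega)
      _ = _ := by ring
  have hT2 := pw hl 9 15 16 (by norm_num) (by norm_num)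
  have hT3 : T * l ≤ l ^ 17 := by rw [pow_succ l 16]; exact Nat.mul_le_mul_right _ (by omega)
  have hV : l ^ 34 ≤ V.card := by
    refine Nat.le_of_mul_le_mul_right ?_ (show 0 < 3 * l ^ 5 by positivity)
    have := pw hl 3 39 40 (by norm_num) (by norm_num)
    rw [show l ^ 34 * (3 * l ^ 5) = 3 * l ^ 39 by ring]; omega
  have f1 : V.card / l ^ 2 * l * l ≤ V.card := by
    rw [mul_assoc, ← sq]; exact Nat.div_mul_le_self _ _
  have f2 : V.card / l ^ 2 * l ≤ 3 * η :=
    Nat.le_of_mul_le_mul_right (by rw [mul_assoc 3]; omega) hl0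
  have f3 : V.card / l ^ 2 * l * 2000 ≤ V.card / l ^ 2 * l * l := Nat.mul_le_mul_left _ hl
  have f4 := pw hl 100 17 34 (by norm_num) (by norm_num)
  have f5 := pw hl 2 17 39 (by norm_num) (by norm_num)
  have f6 := pw hl 1 16 17 (by norm_num) (by norm_num)
  have f7 := pw hl 1 0 17 (by norm_num) (by norm_num)
  rw [pow_zero] at f7
  have f8 : (2 * T + V.card / l ^ 2) * l = 2 * (T * l) + V.card / l ^ 2 * l := by ring
  have f9 : n ≤ l ^ 12 * (n / l ^ 12 + 1) := by
    have := Nat.lt_div_mul_add (a := n) (show 0 < l ^ 12 by positivity)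
    rw [mul_add, mul_one, mul_comm]; omega
  have hHG : Nat.card H ≤ 2 ^ l := (AddSubgroup.card_le_card_addGroup H).trans hG
  rcases dich hsep (u := l ^ 12) (v := l ^ 2) (w := n / l ^ 12 + 1) (I := l)
    (m := V.card - (2 * T + V.card / l ^ 2) * l) (ρ := 2 * T + V.card / l ^ 2) (M := V.card)
    f9 (by positivity) hT (by omega) le_rfl l le_rfl H V hd hHG le_rfl (by omega) with
    ⟨L, k0, A, k1, k2, k3, k4⟩ | ⟨ψ, a, ha, A, k1, k2, k3, x, hx, x', hx', hne⟩
  · exact ⟨L, k0, A, k1, by omega, by omega, k3, T, by omega, k4⟩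
  exfalso
  have g1 : l ^ 11 * (4 * (n / l ^ 12 + 1)) ≤ n := by
    have g2 : n / l ^ 12 * l ^ 11 * l ≤ n := by
      rw [mul_assoc, ← pow_succ]; exact Nat.div_mul_le_self _ _
    have g3 : n / l ^ 12 * l ^ 11 * 2000 ≤ n / l ^ 12 * l ^ 11 * l := Nat.mul_le_mul_left _ hl
    have g4 := pw hl 8 11 40 (by norm_num) (by norm_num)
    rw [show l ^ 11 * (4 * (n / l ^ 12 + 1)) = 4 * (n / l ^ 12 * l ^ 11) + 4 * l ^ 11 by ring]
    omega
  have g5 := arc_two H ψ le_rfl (k3 x hx) (k3 x' hx') hne (hd x (k1 hx) x' (k1 hx')) g1 a A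
    (fun y hy => ⟨hd y (k1 hy) a ha, k3 y hy⟩)
  have g6 : n * l ^ 11 ≤ n * (96 * l ^ 10) :=
    calc n * l ^ 11 ≤ V.card * (3 * l ^ 5) * l ^ 11 := Nat.mul_le_mul_right _ h1
      _ ≤ 2 * A.card * (3 * l ^ 5) * l ^ 11 := by gcongr; omega
      _ = 6 * l ^ 5 * (A.card * l ^ 11) := by ring
      _ ≤ 6 * l ^ 5 * (16 * l ^ 5 * n) := Nat.mul_le_mul_left _ (g5.trans hH)
      _ = _ := by ring
  have g7 := Nat.le_of_mul_le_mul_left g6 (NeZero.pos n)
  have g8 := pw hl 97 10 11 (by norm_num) (by norm_num)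
  have g9 : 0 < l ^ 10 := by positivity
  omega

lemma fill_core (hG : ∀ x : G, n • x = 0) (K : AddSubgroup G) (P S : Finset G) (p s : G) {T : ℕ}
    (hP : ∀ x ∈ P, x - p ∈ K) (hF : Fill P T s K) (hd : Disjoint S P) (hc : S.card + T = n)
    (hS : ∑ x ∈ S, (x - p) ∈ K) : ∃ U ⊆ S ∪ P, U.card = n ∧ ∑ x ∈ U, x = 0 := by
  obtain ⟨S₀, k1, k2, k3⟩ := hF 0 K.zero_mem
  have e2 := sum_sub_mem K S₀ p fun x hx => hP x (k1 hx)
  rw [k2, k3, add_zero] at e2
  rw [Finset.sum_sub_distrib, Finset.sum_const] at hS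
  have e3 : -(∑ x ∈ S, x + s) ∈ K := by
    have := K.neg_mem (K.add_mem hS e2)
    have e4 : S.card • p + T • p = 0 := by rw [← add_nsmul, hc, hG]
    rwa [show ∑ x ∈ S, x - S.card • p + (s - T • p) =
      ∑ x ∈ S, x + s - (S.card • p + T • p) by abel, e4, sub_zero] at this
  obtain ⟨S₁, l1, l2, l3⟩ := hF _ e3
  have hdis : Disjoint S S₁ := hd.mono_right l1
  refine ⟨S ∪ S₁, Finset.union_subset_union subset_rfl l1, ?_, ?_⟩
  · rw [Finset.card_union_of_disjoint hdis]; omega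
  · rw [Finset.sum_union hdis, l3]; abel

lemma card_image_quot (L : AddSubgroup G) [DecidableEq (G ⧸ L)] (X : Finset G)
    (hX : ∀ x ∈ X, ∀ k ∈ L, x + k ∈ X) :
    Nat.card L * (X.image (QuotientAddGroup.mk' L)).card ≤ X.card := by
  classical
  refine Finset.mul_card_image_le_card _ _ fun c hc => ?_
  obtain ⟨x, hx, rfl⟩ := Finset.mem_image.1 hc
  rw [← card_filter_mem L]
  refine Finset.card_le_card_of_injOn (fun k => x + k) (fun k hk => ?_)
    (fun _ _ _ _ h => add_left_cancel h)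
  have hk' : k ∈ L := by simpa using hk
  simp only [Finset.coe_filter, Set.mem_ofPred_eq]
  refine ⟨hX x hx k hk', ?_⟩
  rw [map_add, QuotientAddGroup.mk'_apply L k, (QuotientAddGroup.eq_zero_iff k).2 hk', add_zero]

end Pool.Agent.MP_f9a021_co.GT

end
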