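import Mathlib

section

/-! Kneser's addition theorem in a finite abelian group (DeVos's proof). -/

open Finset Pointwise

namespace Pool.Agent.MP_f9a021_co

variable {G : Type*} [AddCommGroup G] [Fintype G] [DecidableEq G]

open Classical in
/-- The coset `a + K` as a finset. -/
noncomputable def cos (K : AddSubgroup G) (a : G) : Finset G := univ.filter (fun x => x - a ∈ K)

open Classical in
/-- A subgroup as a finset. -/
noncomputable def fs (K : AddSubgroup G) : Finset G := univ.filter (fun x => x ∈ K)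

omit [DecidableEq G] in
@[simp] lemma mem_cos {K : AddSubgroup G} {a x : G} : x ∈ cos K a ↔ x - a ∈ K := by
  simp [cos]

omit [DecidableEq G] in
@[simp] lemma mem_fs {K : AddSubgroup G} {x : G} : x ∈ fs K ↔ x ∈ K := by
  simp [fs]

omit [DecidableEq G] in
lemma card_fs (K : AddSubgroup G) : (fs K).card = Nat.card K := by
  exact (Nat.subtype_card (fs K) (fun x => mem_fs)).symm

omit [DecidableEq G] in
lemma card_cos (K : AddSubgroup G) (a : G) : (cos K a).card = (fs K).card := by
  refine Finset.card_bij (fun x _ => x - a) (fun x hx => by simpa using hx)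
    (fun x _ y _ h => by simpa using h) (fun y hy => ⟨y + a, by simpa using hy, by simp⟩)

omit [DecidableEq G] in
lemma fs_pos (K : AddSubgroup G) : 0 < (fs K).card :=
  Finset.card_pos.2 ⟨0, by simp⟩

omit [DecidableEq G] in
lemma fs_bot : (fs (⊥ : AddSubgroup G)).card = 1 := by
  rw [card_fs]; simp

omit [DecidableEq G] in
lemma fs_top : (fs (⊤ : AddSubgroup G)).card = Fintype.card G := by
  rw [card_fs]; simp

omit [DecidableEq G] in
lemma fs_lt {K L : AddSubgroup G} (h : K ≤ L) (h' : ¬ L ≤ K) : (fs K).card < (fs L).card := by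
  apply Finset.card_lt_card
  refine ⟨fun x hx => by simpa using h (by simpa using hx), fun h2 => h' fun x hx => ?_⟩
  simpa using h2 (mem_fs.2 hx)

/-- The stabiliser of a finset under translation. -/
def stab (X : Finset G) : AddSubgroup G where
  carrier := {g | ∀ x ∈ X, g + x ∈ X}
  zero_mem' := fun x hx => by simpa using hx
  add_mem' := fun {a b} ha hb x hx => by rw [add_assoc]; exact ha _ (hb x hx)
  neg_mem' := fun {g} hg x hx => by
    have h1 : X.image (fun y => g + y) = X := by
      apply Finset.eq_of_subset_of_card_le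
      · intro y hy
        obtain ⟨z, hz, rfl⟩ := Finset.mem_image.1 hy
        exact hg z hz
      · rw [Finset.card_image_of_injective _ (add_right_injective g)]
    rw [← h1] at hx
    obtain ⟨z, hz, rfl⟩ := Finset.mem_image.1 hx
    simpa using hz

omit [Fintype G] in
lemma mem_stab {X : Finset G} {g : G} : g ∈ stab X ↔ ∀ x ∈ X, g + x ∈ X := Iff.rfl

omit [Fintype G] in
lemma mem_of_sub_mem {X : Finset G} {K : AddSubgroup G} (h : K ≤ stab X) {x y : G} (hx : x ∈ X)
    (hy : y - x ∈ K) : y ∈ X := by
  have := h hy x hx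
  simpa using this

omit [Fintype G] in
lemma stab_le_add (X Y : Finset G) : stab X ≤ stab (X + Y) := by
  intro g hg z hz
  obtain ⟨x, hx, y, hy, rfl⟩ := Finset.mem_add.1 hz
  rw [← add_assoc]
  exact Finset.add_mem_add (hg x hx) hy

omit [Fintype G] in
lemma stab_le_add' (X Y : Finset G) : stab Y ≤ stab (X + Y) := by
  rw [add_comm]; exact stab_le_add Y X

lemma mem_add_fs {X : Finset G} {K : AddSubgroup G} {y : G} :
    y ∈ X + fs K ↔ ∃ x ∈ X, y - x ∈ K := by
  rw [Finset.mem_add]
  constructor
  · rintro ⟨x, hx, k, hk, rfl⟩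
    exact ⟨x, hx, by simpa using hk⟩
  · rintro ⟨x, hx, h⟩
    exact ⟨x, hx, y - x, by simpa using h, by simp⟩

lemma le_stab_add_fs (X : Finset G) (K : AddSubgroup G) : K ≤ stab (X + fs K) := by
  intro g hg y hy
  obtain ⟨x, hx, h⟩ := mem_add_fs.1 hy
  exact mem_add_fs.2 ⟨x, hx, by rw [add_sub_assoc]; exact K.add_mem hg h⟩

lemma subset_add_fs (X : Finset G) (K : AddSubgroup G) : X ⊆ X + fs K :=
  fun x hx => mem_add_fs.2 ⟨x, hx, by simp⟩

lemma add_fs_eq {X : Finset G} {K : AddSubgroup G} (h : K ≤ stab X) : X + fs K = X := by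
  refine Finset.Subset.antisymm (fun y hy => ?_) (subset_add_fs X K)
  obtain ⟨x, hx, h'⟩ := mem_add_fs.1 hy
  exact mem_of_sub_mem h hx h'

lemma card_le_add_fs (X : Finset G) (K : AddSubgroup G) : X.card ≤ (X + fs K).card :=
  Finset.card_le_card (subset_add_fs X K)

lemma add_fs_mono (X : Finset G) {K L : AddSubgroup G} (h : K ≤ L) : X + fs K ⊆ X + fs L := by
  intro y hy
  obtain ⟨x, hx, h'⟩ := mem_add_fs.1 hy
  exact mem_add_fs.2 ⟨x, hx, h h'⟩

lemma cos_subset {X : Finset G} {K : AddSubgroup G} (h : K ≤ stab X) {a : G} (ha : a ∈ X) :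
    cos K a ⊆ X := fun _ hy => mem_of_sub_mem h ha (mem_cos.1 hy)

lemma card_dvd {K : AddSubgroup G} (X : Finset G) (h : K ≤ stab X) : (fs K).card ∣ X.card := by
  induction X using Finset.strongInduction with
  | H X ih =>
    rcases X.eq_empty_or_nonempty with rfl | ⟨a, ha⟩
    · simp
    have h1 := cos_subset h ha
    have h2 : X \ cos K a ⊂ X := Finset.sdiff_ssubset h1 ⟨a, by simp⟩
    have h3 := ih _ h2 (fun g hg x hx => by
      rw [Finset.mem_sdiff, mem_cos] at hx ⊢
      refine ⟨h hg x hx.1, fun h4 => hx.2 ?_⟩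
      have := K.sub_mem h4 hg
      rwa [show g + x - a - g = x - a by abel] at this)
    rw [← Finset.card_sdiff_add_card_eq_card h1, card_cos]
    exact dvd_add h3 dvd_rfl

lemma card_fs_dvd {K L : AddSubgroup G} (h : K ≤ L) : (fs K).card ∣ (fs L).card :=
  card_dvd _ (fun g hg x hx => by simpa using L.add_mem (h hg) (by simpa using hx))

lemma eq_univ_of_stab {X : Finset G} (hX : X.Nonempty) (h : stab X = ⊤) : X = univ := by
  obtain ⟨a, ha⟩ := hX
  rw [Finset.eq_univ_iff_forall]
  intro x
  exact mem_of_sub_mem h.ge ha trivial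

/-- Kneser's inequality for the pair `A, B`. -/
def Kn (A B : Finset G) : Prop :=
  (A + fs (stab (A + B))).card + (B + fs (stab (A + B))).card ≤
    (A + B).card + (fs (stab (A + B))).card

lemma kneser_core (A B : Finset G) (hA : stab (A + B) ≤ stab A) (hB : stab (A + B) ≤ stab B)
    (hI : (A ∩ B).Nonempty) (hI' : A ∩ B ≠ A)
    (ih1 : ∀ X Y : Finset G, X.Nonempty → Y.Nonempty → (X + Y).card < (A + B).card → Kn X Y)
    (ih2 : ∀ X Y : Finset G, X.Nonempty → Y.Nonempty → X + Y = A + B →
      (X + fs (stab (X + Y))).card < A.card → Kn X Y) :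
    A.card + B.card ≤ (A + B).card + (fs (stab (A + B))).card := by
  classical
  set C := A + B with hC
  set K := stab C with hK
  set U := A ∪ B with hU
  have hUI : (A ∩ B).card + U.card = A.card + B.card := by
    rw [add_comm]; exact Finset.card_union_add_card_inter A B
  let Conv : Finset G → Prop := fun D => D ⊆ C ∧ K ≤ stab D ∧
    (A ∩ B).card + (U + fs (stab D)).card ≤ D.card + (fs (stab D)).card
  have hKI : K ≤ stab (A ∩ B) := fun g hg x hx => by
    rw [Finset.mem_inter] at hx ⊢
    exact ⟨hA hg x hx.1, hB hg x hx.2⟩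
  have hex : ∃ n, ∃ D, Conv D ∧ (fs (stab D)).card = n := by
    have hsub : (A ∩ B) + U ⊆ C := by
      intro z hz
      obtain ⟨x, hx, y, hy, rfl⟩ := Finset.mem_add.1 hz
      rw [Finset.mem_inter] at hx
      rcases Finset.mem_union.1 hy with hy | hy
      · rw [add_comm]; exact Finset.add_mem_add hy hx.2
      · exact Finset.add_mem_add hx.1 hy
    have hUne : U.Nonempty := hI.mono (Finset.inter_subset_left.trans Finset.subset_union_left)
    have hkn : Kn (A ∩ B) U := by
      rcases (Finset.card_le_card hsub).lt_or_eq with h | h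
      · exact ih1 _ _ hI hUne h
      · have h1 : (A ∩ B) + U = C := Finset.eq_of_subset_of_card_le hsub h.ge
        refine ih2 _ _ hI hUne h1 ?_
        rw [h1, add_fs_eq hKI]
        exact Finset.card_lt_card ⟨Finset.inter_subset_left, fun h2 =>
          hI' (Finset.Subset.antisymm Finset.inter_subset_left h2)⟩
    refine ⟨_, (A ∩ B) + U, ⟨hsub, hKI.trans (stab_le_add _ _), ?_⟩, rfl⟩
    have := card_le_add_fs (A ∩ B) (stab ((A ∩ B) + U))
    unfold Kn at hkn
    omega
  obtain ⟨D, ⟨hDC, hKD, hD⟩, hDn⟩ := Nat.find_spec hex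
  have hmin : ∀ E, Conv E → (fs (stab D)).card ≤ (fs (stab E)).card := by
    intro E hE
    rw [hDn]
    exact Nat.find_min' hex ⟨E, hE, rfl⟩
  set H := stab D with hH
  by_cases hHK : H ≤ K
  · have h1 : H = K := le_antisymm hHK hKD
    rw [h1] at hD
    have := card_le_add_fs U K
    have := Finset.card_le_card hDC
    omega
  by_contra hcon
  obtain ⟨h, hh, hhK⟩ := SetLike.not_le_iff_exists.1 hHK
  rw [hK, mem_stab] at hhK
  push Not at hhK
  obtain ⟨c, hc, hhc⟩ := hhK
  obtain ⟨a, ha, b, hb, rfl⟩ := Finset.mem_add.1 hc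
  have hnot : ∀ (E : Finset G), E ⊆ C → H ≤ stab E → ∀ d ∈ E, d - (a + b) ∉ H := by
    intro E hE hHE d hd hd'
    apply hhc
    apply hE
    refine mem_of_sub_mem hHE hd ?_
    have := H.sub_mem hh hd'
    rwa [show h - (d - (a + b)) = h + (a + b) - d by abel] at this
  have hDne : D.Nonempty := by
    rw [Finset.nonempty_iff_ne_empty]
    intro h0
    have h1 : cos H a ⊆ U + fs H := cos_subset (le_stab_add_fs _ _)
      (subset_add_fs _ _ (Finset.mem_union_left _ ha))
    have h2 := Finset.card_le_card h1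
    rw [card_cos] at h2
    have := hI.card_pos
    rw [h0, Finset.card_empty] at hD
    omega
  -- the key inequalities for a pair of parts
  have key : ∀ x y : G, x + y = a + b → (A ∩ cos H x).Nonempty → (B ∩ cos H y).Nonempty →
      ∃ L : AddSubgroup G, L ≤ H ∧
        (U + fs H).card + (A ∩ cos H x + fs L).card + (B ∩ cos H y + fs L).card <
          (fs H).card + (U + fs L).card ∧
        D.card + (A ∩ cos H x + fs L).card + (B ∩ cos H y + fs L).card ≤
          C.card + (fs L).card := by
    intro x y hxy hAx hBy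
    set E := A ∩ cos H x + B ∩ cos H y with hE
    have hEC : E ⊆ C := Finset.add_subset_add Finset.inter_subset_left Finset.inter_subset_left
    have hEH : ∀ d ∈ E, d - (a + b) ∈ H := by
      intro d hd
      obtain ⟨u, hu, v, hv, rfl⟩ := Finset.mem_add.1 hd
      have := H.add_mem (mem_cos.1 (Finset.mem_inter.1 hu).2) (mem_cos.1 (Finset.mem_inter.1 hv).2)
      rwa [show u - x + (v - y) = u + v - (x + y) by abel, hxy] at this
    have hdisj : Disjoint D E :=
      Finset.disjoint_left.2 fun d hd hd' => hnot D hDC le_rfl d hd (hEH d hd')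
    obtain ⟨d, hd⟩ : E.Nonempty := hAx.add hBy
    have hLH : stab E ≤ H := by
      intro g hg
      have := H.sub_mem (hEH _ (hg d hd)) (hEH d hd)
      rwa [show g + d - (a + b) - (d - (a + b)) = g by abel] at this
    have hHL : ¬ H ≤ stab E := fun h1 => hnot E hEC h1 d hd (hEH d hd)
    have hDE : D ∪ E ⊆ C := Finset.union_subset hDC hEC
    have hst : stab (D ∪ E) = stab E := by
      apply le_antisymm
      · intro g hg z hz
        rcases Finset.mem_union.1 (hg z (Finset.mem_union_right _ hz)) with h1 | h1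
        · exfalso
          apply hhc
          apply hDE
          have h2 : g + (h + (a + b)) ∈ D := by
            refine mem_of_sub_mem le_rfl h1 ?_
            have := H.sub_mem hh (hEH z hz)
            rwa [show h - (z - (a + b)) = g + (h + (a + b)) - (g + z) by abel] at this
          have h3 := (stab (D ∪ E)).neg_mem hg _ (Finset.mem_union_left _ h2)
          simpa using h3
        · exact h1
      · intro g hg z hz
        rcases Finset.mem_union.1 hz with h1 | h1
        · exact Finset.mem_union_left _ (hLH hg z h1)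
        · exact Finset.mem_union_right _ (hg z h1)
    have hKE : K ≤ stab E := by
      refine le_trans ?_ (stab_le_add _ _)
      intro g hg z hz
      rw [Finset.mem_inter, mem_cos] at hz ⊢
      refine ⟨hA hg z hz.1, ?_⟩
      rw [add_sub_assoc]
      exact H.add_mem (hKD hg) hz.2
    have hcard : D.card + E.card ≤ C.card := by
      rw [← Finset.card_union_of_disjoint hdisj]
      exact Finset.card_le_card hDE
    have hkn : Kn (A ∩ cos H x) (B ∩ cos H y) := ih1 _ _ hAx hBy (by
      have := hDne.card_pos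
      show E.card < C.card
      omega)
    have hnc : ¬ Conv (D ∪ E) := fun h1 => by
      have := hmin _ h1
      rw [hst] at this
      exact absurd (fs_lt hLH hHL) (not_lt.2 this)
    have h5 : ¬ ((A ∩ B).card + (U + fs (stab E)).card ≤ D.card + E.card + (fs (stab E)).card) := by
      intro h1
      apply hnc
      refine ⟨hDE, by rw [hst]; exact hKE, ?_⟩
      rw [hst, Finset.card_union_of_disjoint hdisj]
      exact h1
    unfold Kn at hkn
    rw [← hE] at hkn
    exact ⟨stab E, hLH, by omega, by omega⟩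
  obtain ⟨L₁, hL₁, h11, h12⟩ := key a b rfl ⟨a, by simp [ha]⟩ ⟨b, by simp [hb]⟩
  have star : ∀ z ∈ U, U ∩ cos H z ⊆ (A ∩ cos H a) ∪ (B ∩ cos H b) → False := by
    intro z hz hsub
    have h1 : (U + fs L₁) ∪ cos H z ⊆ U + fs H := Finset.union_subset (add_fs_mono _ hL₁)
      (cos_subset (le_stab_add_fs _ _) (subset_add_fs _ _ hz))
    have h2 : (U + fs L₁) ∩ cos H z ⊆ (A ∩ cos H a + fs L₁) ∪ (B ∩ cos H b + fs L₁) := by
      intro w hw
      rw [Finset.mem_inter, mem_add_fs, mem_cos] at hw
      obtain ⟨⟨u, hu, hwu⟩, hwz⟩ := hw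
      have h3 : u ∈ U ∩ cos H z := by
        rw [Finset.mem_inter, mem_cos]
        refine ⟨hu, ?_⟩
        have := H.sub_mem hwz (hL₁ hwu)
        rwa [show w - z - (w - u) = u - z by abel] at this
      rcases Finset.mem_union.1 (hsub h3) with h4 | h4
      · exact Finset.mem_union_left _ (mem_add_fs.2 ⟨u, h4, hwu⟩)
      · exact Finset.mem_union_right _ (mem_add_fs.2 ⟨u, h4, hwu⟩)
    have h3 := Finset.card_union_add_card_inter (U + fs L₁) (cos H z)
    have h4 := Finset.card_le_card h1
    have h5 := (Finset.card_le_card h2).trans (Finset.card_union_le _ _)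
    rw [card_cos] at h3
    omega
  have hab : a - b ∉ H := by
    intro hab
    refine star a (Finset.mem_union_left _ ha) (fun w hw => ?_)
    simp only [hU, Finset.mem_inter, Finset.mem_union, mem_cos] at hw ⊢
    rcases hw.1 with h1 | h1
    · exact Or.inl ⟨h1, hw.2⟩
    · refine Or.inr ⟨h1, ?_⟩
      have := H.add_mem hw.2 hab
      rwa [show w - a + (a - b) = w - b by abel] at this
  have hB2 : (B ∩ cos H a).Nonempty := by
    by_contra h0
    refine star a (Finset.mem_union_left _ ha) (fun w hw => ?_)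
    simp only [hU, Finset.mem_inter, Finset.mem_union, mem_cos] at hw ⊢
    rcases hw.1 with h1 | h1
    · exact Or.inl ⟨h1, hw.2⟩
    · exact absurd ⟨w, by simp [h1, hw.2]⟩ h0
  have hA2 : (A ∩ cos H b).Nonempty := by
    by_contra h0
    refine star b (Finset.mem_union_right _ hb) (fun w hw => ?_)
    simp only [hU, Finset.mem_inter, Finset.mem_union, mem_cos] at hw ⊢
    rcases hw.1 with h1 | h1
    · exact absurd ⟨w, by simp [h1, hw.2]⟩ h0
    · exact Or.inr ⟨h1, hw.2⟩
  obtain ⟨L₂, hL₂, h21, h22⟩ := key b a (add_comm _ _) hA2 hB2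
  have two : ∀ (L : AddSubgroup G) (X Y : Finset G), L ≤ H →
      (U + fs H).card + (X + fs L).card + (Y + fs L).card < (fs H).card + (U + fs L).card →
      (X + fs L).card + (Y + fs L).card + (fs L).card ≤ (fs H).card := by
    intro L X Y hL h1
    have h2 := Finset.card_le_card (add_fs_mono U hL)
    obtain ⟨p, hp⟩ := card_dvd _ (le_stab_add_fs X L)
    obtain ⟨q, hq⟩ := card_dvd _ (le_stab_add_fs Y L)
    obtain ⟨r, hr⟩ := card_fs_dvd hL
    have h3 : (fs L).card * (p + q) < (fs L).card * r := by rw [mul_add]; omega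
    have h4 : p + q + 1 ≤ r := lt_of_mul_lt_mul_left h3 (Nat.zero_le _)
    have h5 := Nat.mul_le_mul_left (fs L).card h4
    rw [mul_add, mul_add] at h5
    omega
  have t1 := two L₁ _ _ hL₁ h11
  have t2 := two L₂ _ _ hL₂ h21
  have e1 := card_le_add_fs (A ∩ cos H a) L₁
  have e2 := card_le_add_fs (B ∩ cos H b) L₁
  have e3 := card_le_add_fs (A ∩ cos H b) L₂
  have e4 := card_le_add_fs (B ∩ cos H a) L₂
  have f1 : U.card + (cos H a \ U).card + (cos H b \ U).card ≤ (U + fs H).card := by
    rw [← Finset.card_union_of_disjoint Finset.disjoint_sdiff, ← Finset.card_union_of_disjoint]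
    · apply Finset.card_le_card
      refine Finset.union_subset (Finset.union_subset (subset_add_fs _ _) ?_) ?_
      · exact Finset.sdiff_subset.trans (cos_subset (le_stab_add_fs _ _)
          (subset_add_fs _ _ (Finset.mem_union_left _ ha)))
      · exact Finset.sdiff_subset.trans (cos_subset (le_stab_add_fs _ _)
          (subset_add_fs _ _ (Finset.mem_union_right _ hb)))
    · rw [Finset.disjoint_left]
      intro w hw hw'
      simp only [Finset.mem_union, Finset.mem_sdiff, mem_cos] at hw hw'
      rcases hw with h1 | h1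
      · exact hw'.2 h1
      · apply hab
        have := H.sub_mem hw'.1 h1.1
        rwa [show w - b - (w - a) = a - b by abel] at this
  have g : ∀ z : G, (fs H).card ≤
      (cos H z \ U).card + (A ∩ cos H z).card + (B ∩ cos H z).card := by
    intro z
    rw [← card_cos H z]
    refine le_trans (Finset.card_le_card (?_ : _ ⊆ (cos H z \ U) ∪ (A ∩ cos H z) ∪ (B ∩ cos H z)))
      ((Finset.card_union_le _ _).trans (Nat.add_le_add_right (Finset.card_union_le _ _) _))
    intro w hw
    simp only [hU, Finset.mem_union, Finset.mem_sdiff, Finset.mem_inter]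
    tauto
  have g1 := g a
  have g2 := g b
  omega

theorem kneser (A B : Finset G) (hA : A.Nonempty) (hB : B.Nonempty) : Kn A B := by
  suffices h : ∀ n m : ℕ, ∀ A B : Finset G, A.Nonempty → B.Nonempty → (A + B).card = n →
      (A + fs (stab (A + B))).card = m → Kn A B from h _ _ A B hA hB rfl rfl
  intro n
  induction n using Nat.strong_induction_on with
  | _ n ihn =>
  intro m
  induction m using Nat.strong_induction_on with
  | _ m ihm =>
  intro A B hA hB hn hm
  set K := stab (A + B) with hK
  set A' := A + fs K with hA'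
  set B' := B + fs K with hB'
  have hsum : A' + B' = A + B := by
    rw [hA', hB', add_add_add_comm, ← add_assoc, add_fs_eq le_rfl, add_fs_eq le_rfl]
  show A'.card + B'.card ≤ (A + B).card + (fs K).card
  obtain ⟨a, ha⟩ := hA
  have ha' : a ∈ A' := subset_add_fs _ _ ha
  by_cases hc : A' ⊆ cos K a
  · have h1 := Finset.card_le_card hc
    rw [card_cos] at h1
    have h2 : B'.card ≤ (A' + B').card := Finset.card_le_card_add_left ⟨a, ha'⟩
    rw [hsum] at h2
    omega
  obtain ⟨a', ha'1, ha'2⟩ := Finset.not_subset.1 hc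
  have h1 : a' - a ∉ stab B' := fun h => ha'2 (mem_cos.2 (by
    have := stab_le_add' A' B' h
    rwa [hsum] at this))
  rw [mem_stab] at h1
  push Not at h1
  obtain ⟨b, hb, hb'⟩ := h1
  set B'' := (a - b) +ᵥ B' with hB''
  have hsum2 : A' + B'' = (a - b) +ᵥ (A + B) := by
    rw [hB'', ← hsum]
    ext z
    simp only [Finset.mem_add, Finset.mem_vadd_finset, vadd_eq_add]
    constructor
    · rintro ⟨x, hx, _, ⟨y, hy, rfl⟩, rfl⟩
      exact ⟨_, ⟨x, hx, y, hy, rfl⟩, by abel⟩
    · rintro ⟨_, ⟨x, hx, y, hy, rfl⟩, rfl⟩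
      exact ⟨x, hx, _, ⟨y, hy, rfl⟩, by abel⟩
  have hstv : ∀ (g : G) (X : Finset G), stab X ≤ stab (g +ᵥ X) := by
    intro g X k hk z hz
    obtain ⟨y, hy, rfl⟩ := Finset.mem_vadd_finset.1 hz
    exact Finset.mem_vadd_finset.2 ⟨_, hk y hy, by simp only [vadd_eq_add]; abel⟩
  have hst : stab (A' + B'') = K := by
    rw [hsum2]
    refine le_antisymm ?_ (hstv _ _)
    have := hstv (-(a - b)) ((a - b) +ᵥ (A + B))
    rwa [neg_vadd_vadd] at this
  have hcard : (A' + B'').card = n := by rw [hsum2, Finset.card_vadd_finset, hn]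
  have := kneser_core A' B'' (by rw [hst]; exact le_stab_add_fs _ _)
    (by rw [hst]; exact (le_stab_add_fs _ _).trans (hstv _ _))
    ⟨a, Finset.mem_inter.2 ⟨ha', Finset.mem_vadd_finset.2 ⟨b, hb, by simp⟩⟩⟩
    (fun h => by
      rw [← h] at ha'1
      obtain ⟨y, hy, hy'⟩ := Finset.mem_vadd_finset.1 (Finset.mem_inter.1 ha'1).2
      apply hb'
      rw [← hy', vadd_eq_add, show a - b + y - a + b = y by abel]
      exact hy)
    (fun X Y hX hY h => ihn _ (hcard ▸ h) _ X Y hX hY rfl rfl)
    (fun X Y hX hY h h' => ihm _ (hm ▸ h') X Y hX hY (by rw [h, hcard]) rfl)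
  rw [hst, hcard, hB'', Finset.card_vadd_finset] at this
  omega

/-- Iterated form of Kneser's theorem. -/
theorem kneser_iter (X : Finset G) (hX : X.Nonempty) (k : ℕ) :
    (k + 1) * (X + fs (stab ((k + 1) • X))).card ≤
      ((k + 1) • X).card + k * (fs (stab ((k + 1) • X))).card := by
  set L := stab ((k + 1) • X) with hL
  have h : ∀ j ≤ k, (j + 1) * (X + fs L).card ≤ ((j + 1) • X + fs L).card + j * (fs L).card := by
    intro j
    induction j with
    | zero => intro _; simp
    | succ j ih =>
      intro hj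
      have h1 := ih (by omega)
      have h2 := kneser ((j + 1) • X + fs L) X (hX.nsmul.add ⟨0, by simp⟩) hX
      have h3 : (j + 1) • X + fs L + X = (j + 1 + 1) • X + fs L := by
        rw [succ_nsmul X (j + 1)]; abel
      have h4 : stab ((j + 1 + 1) • X + fs L) = L := by
        refine le_antisymm ?_ (le_stab_add_fs _ _)
        have h5 := stab_le_add ((j + 1 + 1) • X + fs L) ((k - (j + 1)) • X)
        rwa [add_right_comm ((j + 1 + 1) • X), ← add_nsmul,
          show j + 1 + 1 + (k - (j + 1)) = k + 1 by omega, add_fs_eq le_rfl] at h5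
      unfold Kn at h2
      rw [h3, h4] at h2
      have h6 := card_le_add_fs ((j + 1) • X + fs L) L
      nlinarith
  have := h k le_rfl
  rwa [add_fs_eq le_rfl] at this

end Pool.Agent.MP_f9a021_co

end

section

/-! Critical pairs through 2-atoms, and iterated sumsets that fill the group. -/

open Finset Pointwise

namespace Pool.Agent.MP_f9a021_co

universe u

variable {G : Type*} [AddCommGroup G] [Fintype G] [DecidableEq G]

/-- `S` has at least `|L|` holes modulo every nontrivial proper subgroup `L` of `K`. -/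
def NN (S : Finset G) (K : AddSubgroup G) : Prop :=
  ∀ L ≤ K, L ≠ K → L ≠ ⊥ → S.card + (fs L).card ≤ (S + fs L).card

/-- Distinct translates meet in at most one point. -/
def Sidon (A : Finset G) : Prop := ∀ g : G, g ≠ 0 → (A ∩ (g +ᵥ A)).card ≤ 1

/-- `X` has a small sumset with `S`. -/
def Frag (S X : Finset G) : Prop :=
  2 ≤ X.card ∧ (X + S).card + 2 ≤ Fintype.card G ∧ (X + S).card + 1 ≤ X.card + S.card

lemma growth {S Y : Finset G} {K : AddSubgroup G} (hN : NN S K) (hS : ∀ s ∈ S, s ∈ K)
    (hSne : S.Nonempty) (hY : Y.Nonempty) {z : G} (hYz : Y ⊆ cos K z) :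
    K ≤ stab (Y + S) ∨ Y.card + S.card ≤ (Y + S).card ∨
      (stab (Y + S) = ⊥ ∧ Y.card + S.card ≤ (Y + S).card + 1) := by
  have hcos : ∀ d ∈ Y + S, d - z ∈ K := by
    intro d hd
    obtain ⟨y, hy, s, hs, rfl⟩ := Finset.mem_add.1 hd
    rw [add_sub_right_comm]
    exact K.add_mem (mem_cos.1 (hYz hy)) (hS s hs)
  obtain ⟨d, hd⟩ := hY.add hSne
  have hle : stab (Y + S) ≤ K := by
    intro g hg
    have := K.sub_mem (hcos _ (hg d hd)) (hcos d hd)
    rwa [show g + d - z - (d - z) = g by abel] at this
  have hk := kneser Y S hY hSne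
  unfold Kn at hk
  have h1 := card_le_add_fs Y (stab (Y + S))
  have h2 := card_le_add_fs S (stab (Y + S))
  by_cases e1 : stab (Y + S) = K
  · exact Or.inl e1.ge
  by_cases e2 : stab (Y + S) = ⊥
  · refine Or.inr (Or.inr ⟨e2, ?_⟩)
    rw [e2] at hk h1 h2
    rw [fs_bot] at hk
    omega
  · have := hN _ hle e1 e2
    exact Or.inr (Or.inl (by omega))

lemma growth_top {S Y : Finset G} (hN : NN S ⊤) (hSne : S.Nonempty) (hY : Y.Nonempty)
    (h : (Y + S).card < Fintype.card G) :
    Y.card + S.card ≤ (Y + S).card ∨ (stab (Y + S) = ⊥ ∧ Y.card + S.card ≤ (Y + S).card + 1) := by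
  rcases growth hN (fun _ _ => trivial) hSne hY (z := 0) (fun _ _ => by simp) with h1 | h1
  · rw [eq_univ_of_stab (hY.add hSne) (top_le_iff.1 h1), Finset.card_univ] at h
    exact absurd h (lt_irrefl _)
  · exact h1

omit [Fintype G] in
lemma vadd_add_eq (g : G) (X S : Finset G) : (g +ᵥ X) + S = g +ᵥ (X + S) := by
  ext z
  simp only [Finset.mem_add, Finset.mem_vadd_finset, vadd_eq_add]
  constructor
  · rintro ⟨_, ⟨x, hx, rfl⟩, y, hy, rfl⟩
    exact ⟨_, ⟨x, hx, y, hy, rfl⟩, by abel⟩
  · rintro ⟨_, ⟨x, hx, y, hy, rfl⟩, rfl⟩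
    exact ⟨_, ⟨x, hx, rfl⟩, y, hy, by abel⟩

lemma Frag.vadd {S X : Finset G} (h : Frag S X) (g : G) : Frag S (g +ᵥ X) := by
  unfold Frag at *
  rwa [vadd_add_eq, Finset.card_vadd_finset, Finset.card_vadd_finset]

lemma exists_atom {S X : Finset G} (hN : NN S ⊤) (hSne : S.Nonempty) (hX : Frag S X) :
    ∃ A, Frag S A ∧ Sidon A ∧ (0 : G) ∈ A ∧ stab (A + S) = ⊥ := by
  classical
  have hex : ∃ n, ∃ A, Frag S A ∧ A.card = n := ⟨_, X, hX, rfl⟩
  obtain ⟨A₀, hA₀, hn⟩ := Nat.find_spec hex
  obtain ⟨a, ha⟩ : A₀.Nonempty := Finset.card_pos.1 (by have := hA₀.1; omega)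
  set A := (-a) +ᵥ A₀ with hAdef
  have hA : Frag S A := hA₀.vadd _
  have h0 : (0 : G) ∈ A := Finset.mem_vadd_finset.2 ⟨a, ha, by simp⟩
  have hmin : ∀ Y, Frag S Y → A.card ≤ Y.card := by
    intro Y hY
    rw [hAdef, Finset.card_vadd_finset, hn]
    exact Nat.find_min' hex ⟨Y, hY, rfl⟩
  obtain ⟨h1, h2, h3⟩ := hA
  have hlow : ∀ Y : Finset G, Y.Nonempty → (Y + S).card < Fintype.card G →
      Y.card + S.card ≤ (Y + S).card + 1 := by
    intro Y hY h
    rcases growth_top hN hSne hY h with h4 | h4 <;> omega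
  have hst : stab (A + S) = ⊥ := by
    rcases growth_top hN hSne ⟨0, h0⟩ (by omega) with h4 | h4
    · omega
    · exact h4.1
  have heq := hlow A ⟨0, h0⟩ (by omega)
  have hdual : A.card + (A + S).card ≤ Fintype.card G := by
    have e1 : (-(A + S)ᶜ).card = Fintype.card G - (A + S).card := by
      rw [Finset.card_neg, Finset.card_compl]
    have e2 : (-(A + S)ᶜ + S).card ≤ Fintype.card G - A.card := by
      rw [← Finset.card_neg A, ← Finset.card_compl]
      apply Finset.card_le_card
      intro w hw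
      obtain ⟨y, hy, s, hs, rfl⟩ := Finset.mem_add.1 hw
      rw [Finset.mem_neg', Finset.mem_compl] at hy
      rw [Finset.mem_compl, Finset.mem_neg']
      intro h5
      apply hy
      have := Finset.add_mem_add h5 hs
      rwa [show -(y + s) + s = -y by abel] at this
    have e3 : A.card ≤ (A + S).card := Finset.card_le_card_add_right hSne
    have := hmin (-(A + S)ᶜ) ⟨by omega, by omega, by omega⟩
    omega
  refine ⟨A, ⟨h1, h2, h3⟩, fun g hg => ?_, h0, hst⟩
  by_contra hcon
  set Y := g +ᵥ A with hY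
  have hYc : Y.card = A.card := Finset.card_vadd_finset _ _
  have hYS : (Y + S).card = (A + S).card := by rw [hY, vadd_add_eq, Finset.card_vadd_finset]
  have hI : (A ∩ Y).Nonempty := Finset.card_pos.1 (by omega)
  have s1 : ((A ∩ Y) + S).card ≤ ((A + S) ∩ (Y + S)).card :=
    Finset.card_le_card Finset.inter_add_subset
  have s2 : (A ∪ Y) + S = (A + S) ∪ (Y + S) := Finset.union_add
  have s3 := Finset.card_union_add_card_inter (A + S) (Y + S)
  have s4 := Finset.card_union_add_card_inter A Y
  have s5 : ((A + S) ∩ (Y + S)).card ≤ (A + S).card := Finset.card_le_card Finset.inter_subset_left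
  have s6 := hlow _ hI (by omega)
  rw [← s2] at s3
  have s7 := hlow (A ∪ Y) ⟨0, Finset.mem_union_left _ h0⟩ (by omega)
  have s8 := hmin (A ∩ Y) ⟨by omega, by omega, by omega⟩
  have s9 : A ∩ Y = A := Finset.eq_of_subset_of_card_le Finset.inter_subset_left s8
  have s10 : A = Y := Finset.eq_of_subset_of_card_le (s9 ▸ Finset.inter_subset_right) hYc.le
  have s11 : g ∈ stab A := fun x hx => by
    rw [s10]; exact Finset.mem_vadd_finset.2 ⟨x, hx, rfl⟩
  have := stab_le_add A S s11
  rw [hst] at this
  exact hg this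

lemma sidon_NN {A : Finset G} (hA : Sidon A) (h0 : (0 : G) ∈ A) :
    NN A (AddSubgroup.closure (A : Set G)) := by
  intro L hL hL1 hL2
  by_contra hcon
  obtain ⟨a, ha, haL⟩ : ∃ a ∈ A, a ∉ L := by
    by_contra h
    push Not at h
    exact hL1 (le_antisymm hL ((AddSubgroup.closure_le L).2 h))
  have h1 : 2 * (fs L).card ≤ (A + fs L).card := by
    have hd : Disjoint (cos L 0) (cos L a) := by
      rw [Finset.disjoint_left]
      intro w hw hw'
      apply haL
      have := L.sub_mem (mem_cos.1 hw) (mem_cos.1 hw')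
      rwa [show w - 0 - (w - a) = a by abel] at this
    have := Finset.card_le_card (Finset.union_subset
      (cos_subset (le_stab_add_fs A L) (subset_add_fs _ _ h0))
      (cos_subset (le_stab_add_fs A L) (subset_add_fs _ _ ha)))
    rw [Finset.card_union_of_disjoint hd, card_cos, card_cos] at this
    omega
  obtain ⟨l, hl, hl0⟩ : ∃ l ∈ L, l ≠ 0 := by
    by_contra h
    push Not at h
    exact hL2 ((AddSubgroup.eq_bot_iff_forall _).2 h)
  have h2 : A ∪ (l +ᵥ A) ⊆ A + fs L := by
    refine Finset.union_subset (subset_add_fs _ _) (fun w hw => ?_)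
    obtain ⟨x, hx, rfl⟩ := Finset.mem_vadd_finset.1 hw
    exact mem_add_fs.2 ⟨x, hx, by simpa using hl⟩
  have h3 := Finset.card_le_card h2
  have h4 := Finset.card_union_add_card_inter A (l +ᵥ A)
  have h5 := hA l hl0
  rw [Finset.card_vadd_finset] at h4
  omega

omit [Fintype G] in
lemma Sidon.inter {A : Finset G} (hA : Sidon A) {x y : G} (h : x ≠ y) :
    ((x +ᵥ A) ∩ (y +ᵥ A)).card ≤ 1 := by
  have := hA (y - x) (sub_ne_zero.2 h.symm)
  rw [← Finset.card_vadd_finset x, Finset.vadd_finset_inter, vadd_vadd] at this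
  simpa using this

omit [Fintype G] in
lemma sidon_sum {P Q : Finset G} (hP : Sidon P) (h2 : 2 ≤ Q.card) (h3 : 3 ≤ P.card)
    (hQP : Q.card ≤ P.card) : P.card + Q.card ≤ (P + Q).card := by
  have hsub : ∀ x ∈ Q, x +ᵥ P ⊆ P + Q := by
    intro x hx w hw
    obtain ⟨y, hy, rfl⟩ := Finset.mem_vadd_finset.1 hw
    rw [vadd_eq_add, add_comm x y]
    exact Finset.add_mem_add hy hx
  rcases h2.lt_or_eq with h | h
  · obtain ⟨x, hx, y, hy, z, hz, hxy, hxz, hyz⟩ := Finset.two_lt_card.1 h
    have e1 := Finset.card_union_add_card_inter (x +ᵥ P) (y +ᵥ P)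
    have e2 := Finset.card_union_add_card_inter ((x +ᵥ P) ∪ (y +ᵥ P)) (z +ᵥ P)
    have e3 := Finset.card_le_card
      (Finset.union_subset (Finset.union_subset (hsub x hx) (hsub y hy)) (hsub z hz))
    have e4 := hP.inter hxy
    have e5 := hP.inter hxz
    have e6 := hP.inter hyz
    have e7 := Finset.card_union_le ((x +ᵥ P) ∩ (z +ᵥ P)) ((y +ᵥ P) ∩ (z +ᵥ P))
    rw [← Finset.union_inter_distrib_right] at e7
    simp only [Finset.card_vadd_finset] at e1 e2
    omega
  · obtain ⟨x, hx, y, hy, hxy⟩ := Finset.one_lt_card.1 (show 1 < Q.card by omega)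
    have e1 := Finset.card_union_add_card_inter (x +ᵥ P) (y +ᵥ P)
    have e3 := Finset.card_le_card (Finset.union_subset (hsub x hx) (hsub y hy))
    have e4 := hP.inter hxy
    simp only [Finset.card_vadd_finset] at e1
    omega

lemma crit {B X : Finset G} (h0 : (0 : G) ∈ B) (hB2 : 2 ≤ B.card) (hX : Frag B X) :
    (∃ K : AddSubgroup G, K ≠ ⊥ ∧ K ≠ ⊤ ∧ (B + fs K).card + 1 ≤ B.card + (fs K).card) ∨
      ∃ c : G, AddSubgroup.zmultiples c = ⊤ := by
  by_contra hcon
  push Not at hcon
  obtain ⟨hc1, hc2⟩ := hcon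
  have hN : NN B ⊤ := fun L _ h1 h2 => by have := hc1 L h2 h1; omega
  obtain ⟨A, ⟨hA1, hA2, hA3⟩, hS, hA0, hst⟩ := exists_atom hN ⟨0, h0⟩ hX
  set K := AddSubgroup.closure (A : Set G) with hK
  have hNA : NN A K := sidon_NN hS hA0
  have hAK : ∀ a ∈ A, a ∈ K := fun a ha => AddSubgroup.subset_closure ha
  obtain ⟨c, hc, hc0⟩ : ∃ c ∈ A, c ≠ 0 := by
    obtain ⟨x, hx, y, hy, hxy⟩ := Finset.one_lt_card.1 (show 1 < A.card by omega)
    by_cases h : x = 0
    · exact ⟨y, hy, fun h' => hxy (h.trans h'.symm)⟩
    · exact ⟨x, hx, h⟩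
  have hKbot : K ≠ ⊥ := fun h => hc0 (by have := hAK c hc; rwa [h] at this)
  by_cases hKtop : K = ⊤
  · rcases hA1.lt_or_eq with h | h
    · rw [hKtop] at hNA
      obtain ⟨A', ⟨h1, _, h3⟩, hS', -, -⟩ := exists_atom (X := B) hNA ⟨0, hA0⟩
        ⟨hB2, by rwa [add_comm B], by rw [add_comm B]; omega⟩
      rcases le_total A'.card A.card with h4 | h4
      · have := sidon_sum hS h1 h h4
        rw [add_comm A A'] at this
        omega
      · have := sidon_sum hS' hA1 (by omega) h4
        omega
    · apply hc2 c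
      rw [eq_top_iff, ← hKtop, hK, AddSubgroup.closure_le]
      have : A = {0, c} := by
        symm
        apply Finset.eq_of_subset_of_card_le
        · intro x hx
          simp only [Finset.mem_insert, Finset.mem_singleton] at hx
          rcases hx with rfl | rfl <;> assumption
        · rw [Finset.card_pair hc0.symm]; omega
      intro x hx
      rw [this] at hx
      simp only [Finset.coe_insert, Finset.coe_singleton, Set.mem_insert_iff,
        Set.mem_singleton_iff] at hx
      rcases hx with rfl | rfl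
      · exact zero_mem _
      · exact AddSubgroup.mem_zmultiples _
  obtain ⟨b₀, hb₀, hb₀'⟩ : ∃ b₀ ∈ B, ¬ K ≤ stab (B ∩ cos K b₀ + A) := by
    by_contra h
    push Not at h
    apply hKbot
    rw [eq_bot_iff, ← hst]
    intro g hg z hz
    obtain ⟨a, ha, b, hb, rfl⟩ := Finset.mem_add.1 hz
    have h1 := h b hb hg (b + a) (Finset.add_mem_add (by simp [hb]) ha)
    rw [add_comm A B, add_comm a b]
    exact Finset.add_subset_add_right Finset.inter_subset_left h1
  have hB₀ : (B ∩ cos K b₀).Nonempty := ⟨b₀, by simp [hb₀]⟩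
  have g1 : (B ∩ cos K b₀).card + A.card ≤ (B ∩ cos K b₀ + A).card + 1 := by
    rcases growth hNA hAK ⟨0, hA0⟩ hB₀ (z := b₀) Finset.inter_subset_right with h | h | h
    · exact absurd h hb₀'
    · omega
    · exact h.2
  have g2 : (B ∩ cos K b₀ + A).card + (B \ cos K b₀ + A).card ≤ (A + B).card := by
    rw [← Finset.card_union_of_disjoint, add_comm A B]
    · exact Finset.card_le_card (Finset.union_subset
        (Finset.add_subset_add_right Finset.inter_subset_left)
        (Finset.add_subset_add_right Finset.sdiff_subset))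
    · rw [Finset.disjoint_left]
      intro w hw hw'
      obtain ⟨x, hx, a, ha, rfl⟩ := Finset.mem_add.1 hw
      obtain ⟨y, hy, a', ha', h⟩ := Finset.mem_add.1 hw'
      apply (Finset.mem_sdiff.1 hy).2
      rw [mem_cos, show y = x + a - a' by rw [← h]; abel,
        show x + a - a' - b₀ = (x - b₀) + (a - a') by abel]
      exact K.add_mem (mem_cos.1 (Finset.mem_inter.1 hx).2) (K.sub_mem (hAK a ha) (hAK a' ha'))
  have g3 := Finset.card_inter_add_card_sdiff B (cos K b₀)
  have g4 : B \ cos K b₀ = B \ cos K b₀ + A := by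
    apply Finset.eq_of_subset_of_card_le
    · intro x hx
      simpa using Finset.add_mem_add hx hA0
    · omega
  have g5 : K ≤ stab (B \ cos K b₀) := by
    rw [hK, AddSubgroup.closure_le]
    intro a ha x hx
    rw [g4, add_comm a x]
    exact Finset.add_mem_add hx ha
  have g6 : B + fs K ⊆ (B \ cos K b₀) ∪ cos K b₀ := by
    intro w hw
    obtain ⟨x, hx, h⟩ := mem_add_fs.1 hw
    by_cases h1 : x ∈ cos K b₀
    · refine Finset.mem_union_right _ (mem_cos.2 ?_)
      have := K.add_mem h (mem_cos.1 h1)
      rwa [show w - x + (x - b₀) = w - b₀ by abel] at this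
    · exact Finset.mem_union_left _ (mem_of_sub_mem g5 (Finset.mem_sdiff.2 ⟨hx, h1⟩) h)
  have g7 := (Finset.card_le_card g6).trans (Finset.card_union_le _ _)
  rw [card_cos] at g7
  have g8 := hc1 K hKbot hKtop
  have g9 := hB₀.card_pos
  omega

lemma pair_full {B : Finset G} {K : AddSubgroup G}
    (hK : (B + fs K).card + 1 ≤ B.card + (fs K).card) {b b' : G} (hb : b ∈ B) (hb' : b' ∈ B)
    (hbb : b - b' ∉ K) {w : G} (hw : w - (b + b') ∈ K) : w ∈ B + B := by
  by_contra hcon
  have h1 : B.card + (cos K b \ B).card + (cos K b' \ B).card ≤ (B + fs K).card := by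
    rw [← Finset.card_union_of_disjoint Finset.disjoint_sdiff, ← Finset.card_union_of_disjoint]
    · apply Finset.card_le_card
      refine Finset.union_subset (Finset.union_subset (subset_add_fs _ _) ?_) ?_
      · exact Finset.sdiff_subset.trans (cos_subset (le_stab_add_fs _ _) (subset_add_fs _ _ hb))
      · exact Finset.sdiff_subset.trans (cos_subset (le_stab_add_fs _ _) (subset_add_fs _ _ hb'))
    · rw [Finset.disjoint_left]
      intro z hz hz'
      simp only [Finset.mem_union, Finset.mem_sdiff, mem_cos] at hz hz'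
      rcases hz with h1 | h1
      · exact hz'.2 h1
      · apply hbb
        have := K.sub_mem hz'.1 h1.1
        rwa [show z - b' - (z - b) = b - b' by abel] at this
  have h2 : (cos K b ∩ B).card ≤ (cos K b' \ B).card := by
    refine Finset.card_le_card_of_injOn (fun x => w - x) (fun x hx => ?_)
      (fun x _ y _ h => by simpa using h)
    simp only [Finset.coe_inter, Set.mem_inter_iff, Finset.mem_coe, mem_cos, Finset.coe_sdiff,
      Set.mem_sdiff] at hx ⊢
    refine ⟨?_, fun h => hcon ?_⟩
    · have := K.sub_mem hw hx.1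
      rwa [show w - (b + b') - (x - b) = w - x - b' by abel] at this
    · simpa using Finset.add_mem_add hx.2 h
  have h3 := Finset.card_inter_add_card_sdiff (cos K b) B
  rw [card_cos] at h3
  omega

lemma periodic_of_holes {B : Finset G} (h0 : (0 : G) ∈ B)
    (hgen : AddSubgroup.closure (B : Set G) = ⊤) {K : AddSubgroup G} (hKtop : K ≠ ⊤)
    (hK : (B + fs K).card + 1 ≤ B.card + (fs K).card) {k : ℕ} (hk : ∀ x : G, addOrderOf x ≤ k) :
    K ≤ stab ((k + 1) • B) := by
  have hfull : ∀ (j : ℕ) (y : G), y ∈ j • B → ∀ b ∈ B, ∀ b' ∈ B, b - b' ∉ K →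
      ∀ w, w - (y + (b + b')) ∈ K → w ∈ (j + 2) • B := by
    intro j y hy b hb b' hb' hbb w hw
    have h1 := pair_full hK hb hb' hbb (w := w - y)
      (by rwa [show w - y - (b + b') = w - (y + (b + b')) by abel])
    have := Finset.add_mem_add hy h1
    rwa [add_sub_cancel, ← two_nsmul, ← add_nsmul] at this
  have hclaim : ∀ j : ℕ, ∀ x ∈ (j + 1) • B, (∀ w, w - x ∈ K → w ∈ (j + 1) • B) ∨
      ∃ b ∈ B, x - (j + 1) • b ∈ K := by
    intro j
    induction j with
    | zero => intro x hx; exact Or.inr ⟨x, by simpa using hx, by simp⟩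
    | succ j ih =>
      intro x hx
      rw [succ_nsmul] at hx
      obtain ⟨y, hy, b, hb, rfl⟩ := Finset.mem_add.1 hx
      rcases ih y hy with h | ⟨b₁, hb₁, h⟩
      · left
        intro w hw
        have := Finset.add_mem_add
          (h (w - b) (by rwa [show w - b - y = w - (y + b) by abel])) hb
        rwa [sub_add_cancel, ← succ_nsmul] at this
      · by_cases h1 : b₁ - b ∈ K
        · right
          refine ⟨b₁, hb₁, ?_⟩
          have := K.sub_mem h h1
          rwa [show y - (j + 1) • b₁ - (b₁ - b) = y + b - (j + 1 + 1) • b₁ by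
            rw [succ_nsmul b₁ (j + 1)]; abel] at this
        · left
          intro w hw
          refine hfull j (j • b₁) (Finset.nsmul_mem_nsmul hb₁) b₁ hb₁ b hb h1 w ?_
          have := K.add_mem hw h
          rwa [show w - (y + b) + (y - (j + 1) • b₁) = w - (j • b₁ + (b₁ + b)) by
            rw [succ_nsmul b₁ j]; abel] at this
  intro g hg x hx
  rcases hclaim k x hx with h | ⟨b, hb, h⟩
  · exact h _ (by simpa using hg)
  obtain ⟨b', hb', hbb⟩ : ∃ b' ∈ B, b - b' ∉ K := by
    by_contra h1
    push Not at h1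
    apply hKtop
    rw [eq_top_iff, ← hgen, AddSubgroup.closure_le]
    intro z hz
    have := K.sub_mem (h1 0 h0) (h1 z hz)
    rwa [show b - 0 - (b - z) = z by abel] at this
  obtain ⟨q, hq⟩ : ∃ q, addOrderOf (b - b') = q + 1 :=
    ⟨addOrderOf (b - b') - 1, by have := addOrderOf_pos (b - b'); omega⟩
  obtain ⟨r, hr⟩ : ∃ r, k = r + (q + 1) := ⟨k - (q + 1), by have := hk (b - b'); omega⟩
  have h2 : (q + 1) • (b - b') = 0 := by rw [← hq]; exact addOrderOf_nsmul_eq_zero _
  have h3 : r • b + q • b' ∈ (r + q) • B := by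
    rw [add_nsmul]
    exact Finset.add_mem_add (Finset.nsmul_mem_nsmul hb) (Finset.nsmul_mem_nsmul hb')
  have h4 := hfull _ _ h3 b hb b' hb' hbb (g + x) (by
    have := K.add_mem hg h
    rwa [show g + (x - (k + 1) • b) = g + x - (r • b + q • b' + (b + b')) - (q + 1) • (b - b') by
      rw [hr]; simp only [add_nsmul, one_nsmul, nsmul_sub]; abel, h2, sub_zero] at this)
  rwa [show r + q + 2 = k + 1 by omega] at h4

theorem nsmul_eq_univ (n : ℕ) : ∀ (H : Type u) [AddCommGroup H] [Fintype H] [DecidableEq H],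
    Fintype.card H = n → ∀ (B : Finset H) (k : ℕ), (0 : H) ∈ B →
      AddSubgroup.closure (B : Set H) = ⊤ → (∀ x : H, addOrderOf x ≤ k) →
      Fintype.card H < (k + 1) * B.card → (k + 1) • B = univ := by
  induction n using Nat.strong_induction_on with
  | _ n ih =>
  intro H _ _ _ hn B k h0 hgen hk hcard
  classical
  set L := stab ((k + 1) • B) with hL
  by_cases hLb : L = ⊥
  swap
  · have hc := AddSubgroup.card_eq_card_quotient_mul_card_addSubgroup L
    rw [← card_fs, Nat.card_eq_fintype_card, Nat.card_eq_fintype_card] at hc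
    have h1 : 1 < (fs L).card := by
      have := fs_lt (bot_le : ⊥ ≤ L) (fun h => hLb (le_bot_iff.1 h))
      rwa [fs_bot] at this
    have hq : 0 < Fintype.card (H ⧸ L) := Fintype.card_pos
    have h2 : B.card ≤ (fs L).card * (B.image (QuotientAddGroup.mk' L)).card := by
      apply Finset.card_le_mul_card_image
      intro a ha
      obtain ⟨b, -, rfl⟩ := Finset.mem_image.1 ha
      rw [← card_cos L b]
      apply Finset.card_le_card
      intro x hx
      have := (Finset.mem_filter.1 hx).2
      rw [mem_cos, ← QuotientAddGroup.eq_zero_iff]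
      simpa [sub_eq_zero] using this
    have h3 := ih (Fintype.card (H ⧸ L)) (by nlinarith) (H ⧸ L) rfl
      (B.image (QuotientAddGroup.mk' L)) k (Finset.mem_image.2 ⟨0, h0, map_zero _⟩)
      (by
        rw [Finset.coe_image, ← AddMonoidHom.map_closure, hgen]
        exact AddSubgroup.map_top_of_surjective _ (QuotientAddGroup.mk'_surjective L))
      (fun x => by
        obtain ⟨y, rfl⟩ := QuotientAddGroup.mk'_surjective L x
        exact (Nat.le_of_dvd (addOrderOf_pos y) (addOrderOf_map_dvd _ y)).trans (hk y))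
      (by
        by_contra h4
        push Not at h4
        have h5 := Nat.mul_le_mul_right (fs L).card h4
        have h6 := Nat.mul_le_mul_left (k + 1) h2
        nlinarith)
    rw [← Finset.image_nsmul] at h3
    rw [Finset.eq_univ_iff_forall] at h3 ⊢
    intro x
    obtain ⟨y, hy, hyx⟩ := Finset.mem_image.1 (h3 (QuotientAddGroup.mk' L x))
    refine mem_of_sub_mem le_rfl hy ?_
    rw [← hL, ← QuotientAddGroup.eq_zero_iff]
    simpa [sub_eq_zero] using hyx.symm
  by_contra hcon
  have hlt : ((k + 1) • B).card < Fintype.card H :=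
    Finset.card_lt_univ_of_notMem (Classical.choose_spec
      (not_forall.1 (fun h => hcon (Finset.eq_univ_iff_forall.2 h))))
  have hB2 : 2 ≤ B.card := by
    by_contra h
    have h1 : B = {0} := Finset.eq_singleton_iff_unique_mem.2
      ⟨h0, fun x hx => Finset.card_le_one.1 (by omega) x hx 0 h0⟩
    rw [h1, Finset.coe_singleton, AddSubgroup.closure_singleton_zero] at hgen
    have h2 := fs_top (G := H)
    rw [← hgen, fs_bot] at h2
    have := (Finset.Nonempty.nsmul (n := k + 1) ⟨0, h0⟩).card_pos
    omega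
  have hstep : ∀ j ≤ k, 1 ≤ j → (j • B).card + B.card ≤ ((j + 1) • B).card + 1 := by
    intro j hj _
    have h1 := kneser (j • B) B (Finset.Nonempty.nsmul ⟨0, h0⟩) ⟨0, h0⟩
    have h2 : stab (j • B + B) = ⊥ := by
      rw [eq_bot_iff, ← hLb, hL, show k + 1 = j + 1 + (k - j) by omega, add_nsmul _ (j + 1),
        succ_nsmul]
      exact stab_le_add _ _
    unfold Kn at h1
    rw [h2, fs_bot, ← succ_nsmul] at h1
    have := card_le_add_fs (j • B) ⊥
    have := card_le_add_fs B ⊥
    omega
  have hk1 : 1 ≤ k := le_trans (addOrderOf_pos (0 : H)) (hk 0)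
  obtain ⟨j, hj1, hj2, hj3⟩ : ∃ j, 1 ≤ j ∧ j + 1 ≤ k ∧
      ((j + 1) • B).card + 1 ≤ (j • B).card + B.card := by
    by_contra h
    push Not at h
    have h1 : ∀ j, j + 1 ≤ k → (j + 1) * B.card ≤ ((j + 1) • B).card := by
      intro j
      induction j with
      | zero => intro _; simp
      | succ j ihj =>
        intro hj
        have := ihj (by omega)
        have := h (j + 1) (by omega) hj
        nlinarith
    have h2 := h1 (k - 1) (by omega)
    rw [show k - 1 + 1 = k by omega] at h2
    have h3 := hstep k le_rfl hk1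
    nlinarith
  have hmono : ∀ i j : ℕ, i ≤ j → (i • B).card ≤ (j • B).card := fun i j h =>
    Finset.card_le_card (Finset.nsmul_subset_nsmul_right h0 h)
  have hfrag : Frag B (j • B) := by
    have e1 := hmono 1 j hj1
    have e2 := hmono (j + 1 + 1) (k + 1) (by omega)
    have e3 := hstep (j + 1) hj2 (by omega)
    rw [one_nsmul] at e1
    refine ⟨by omega, ?_, ?_⟩ <;> rw [← succ_nsmul] <;> omega
  rcases crit h0 hB2 hfrag with ⟨K, h1, h2, h3⟩ | ⟨c, hc⟩
  · have := periodic_of_holes h0 hgen h2 h3 hk
    rw [← hL, hLb] at this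
    exact h1 (le_bot_iff.1 this)
  · have h1 : Fintype.card H ≤ k := by
      have := hk c
      rwa [← Nat.card_zmultiples, hc, ← card_fs, fs_top] at this
    have h2 : ∀ j ≤ k, j + 2 ≤ ((j + 1) • B).card := by
      intro j
      induction j with
      | zero => intro _; simpa using hB2
      | succ j ihj =>
        intro hj
        have := ihj (by omega)
        have := hstep (j + 1) hj (by omega)
        omega
    have := h2 k le_rfl
    omega

end Pool.Agent.MP_f9a021_co

end

section

/-! Pollard's inequality for groups without large subgroups, and sums of distinct elements. -/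

open Finset Pointwise

namespace Pool.Agent.MP_f9a021_co

variable {G : Type*} [AddCommGroup G] [Fintype G] [DecidableEq G]

/-- The number of representations `x = a + b`. -/
def rep (A B : Finset G) (x : G) : ℕ := (A.filter (fun a => x - a ∈ B)).card

omit [Fintype G] in
lemma rep_comm (A B : Finset G) (x : G) : rep A B x = rep B A x := by
  refine Finset.card_bij (fun a _ => x - a) (fun a ha => ?_) (fun a _ b _ h => by simpa using h)
    (fun b hb => ⟨x - b, ?_, by simp⟩)
  · simpa [and_comm] using ha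
  · simpa [and_comm] using hb

omit [Fintype G] in
lemma rep_union {A A' : Finset G} (h : Disjoint A A') (B : Finset G) (x : G) :
    rep (A ∪ A') B x = rep A B x + rep A' B x := by
  unfold rep
  rw [Finset.filter_union, Finset.card_union_of_disjoint (Finset.disjoint_filter_filter h)]

omit [Fintype G] in
lemma rep_le (A B : Finset G) (x : G) : rep A B x ≤ B.card := by
  rw [rep_comm]; exact Finset.card_filter_le _ _

lemma rep_univ (B : Finset G) (x : G) : rep univ B x = B.card := by
  rw [rep_comm]; simp [rep]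

lemma sum_rep (A B : Finset G) : ∑ x, rep A B x = A.card * B.card := by
  simp only [rep, Finset.card_filter]
  rw [Finset.sum_comm, Finset.sum_congr rfl (g := fun _ => B.card), Finset.sum_const, smul_eq_mul]
  intro a _
  rw [← Finset.card_filter]
  exact Finset.card_bij (fun x _ => x - a) (fun x hx => by simpa using hx)
    (fun x _ y _ h => by simpa using h) (fun y hy => ⟨y + a, by simpa using hy, by simp⟩)

lemma le_rep (A B : Finset G) (x : G) : A.card + B.card ≤ rep A B x + Fintype.card G := by
  have h1 := rep_union (disjoint_compl_right : Disjoint A Aᶜ) B x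
  rw [Finset.union_compl, rep_univ] at h1
  have h2 : rep Aᶜ B x ≤ Aᶜ.card := Finset.card_filter_le _ _
  have h3 := Finset.card_add_card_compl A
  omega

omit [Fintype G] in
lemma rep_split (A B : Finset G) (x : G) :
    rep A B x = rep (A ∪ B) (A ∩ B) x + rep (A \ B) (B \ A) x := by
  have hA : A = (A ∩ B) ∪ (A \ B) := by ext; simp; tauto
  have hB : B = (A ∩ B) ∪ (B \ A) := by ext; simp; tauto
  have hU : A ∪ B = A ∪ (B \ A) := by ext; simp
  have d1 : Disjoint (A ∩ B) (A \ B) := Finset.disjoint_left.2 (by simp +contextual)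
  have d2 : Disjoint (A ∩ B) (B \ A) := Finset.disjoint_left.2 (by simp +contextual)
  have e1 := rep_union d2 A x
  have e2 := rep_union d1 (B \ A) x
  have e3 := rep_union (Finset.disjoint_sdiff : Disjoint A (B \ A)) (A ∩ B) x
  rw [← hB] at e1
  rw [← hA] at e2
  rw [← hU] at e3
  rw [rep_comm A B, e1, e3, rep_comm (B \ A) A, e2, rep_comm (A ∩ B) A, rep_comm (A ∩ B) (B \ A)]
  omega

theorem pollard {D : ℕ} (hD : ∀ K : AddSubgroup G, K ≠ ⊤ → (fs K).card ≤ D) (n : ℕ) :
    ∀ (A B : Finset G) (t : ℕ), B.card = n → t ≤ A.card → t ≤ B.card →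
      A.card + B.card ≤ Fintype.card G + t + D →
      t * (A.card + B.card) ≤ ∑ x, min t (rep A B x) + t * (t + D) := by
  induction n using Nat.strong_induction_on with
  | _ n ih =>
  intro A B t hn hA hB hG
  by_cases hdeg : ∀ b ∈ B, ∀ b' ∈ B, b' - b ∈ stab A
  · rcases Nat.eq_zero_or_pos t with rfl | ht
    · simp
    obtain ⟨b, hb⟩ : B.Nonempty := Finset.card_pos.1 (by omega)
    by_cases hK : stab A = ⊤
    · have h1 := eq_univ_of_stab (Finset.card_pos.1 (by omega)) hK
      have h2 : ∑ x, min t (rep A B x) = Fintype.card G * t := by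
        simp [h1, rep_univ, min_eq_left hB]
      rw [h2]
      nlinarith
    · have h1 : B.card ≤ D := by
        refine le_trans ?_ (hD _ hK)
        rw [← card_cos _ b]
        exact Finset.card_le_card fun x hx => mem_cos.2 (hdeg b hb x hx)
      have h2 : (b +ᵥ A).card * t ≤ ∑ x, min t (rep A B x) := by
        refine le_trans ?_ (Finset.sum_le_sum_of_subset (Finset.subset_univ (b +ᵥ A)))
        rw [← smul_eq_mul]
        apply Finset.card_nsmul_le_sum
        intro x hx
        obtain ⟨a, ha, rfl⟩ := Finset.mem_vadd_finset.1 hx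
        rw [rep_comm, rep, Finset.filter_true_of_mem]
        · exact le_min le_rfl hB
        · intro y hy
          have := hdeg y hy b hb a ha
          rwa [show b - y + a = (b +ᵥ a) - y by rw [vadd_eq_add]; abel] at this
      rw [Finset.card_vadd_finset] at h2
      nlinarith
  simp only [mem_stab] at hdeg
  push Not at hdeg
  obtain ⟨b, hb, b', hb', a, ha, hab⟩ := hdeg
  set B' := (a - b) +ᵥ B with hB'
  have hc : B'.card = B.card := Finset.card_vadd_finset _ _
  have hsum : ∑ x, min t (rep A B x) = ∑ x, min t (rep A B' x) := by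
    refine Fintype.sum_equiv (Equiv.addLeft (a - b)) _ _ (fun x => ?_)
    congr 1
    unfold rep
    congr 1
    ext y
    simp only [Finset.mem_filter, Equiv.coe_addLeft, hB', add_sub_assoc]
    rw [← vadd_eq_add, Finset.vadd_mem_vadd_finset_iff]
  have hI1 : 0 < (A ∩ B').card := Finset.card_pos.2
    ⟨a, Finset.mem_inter.2 ⟨ha, Finset.mem_vadd_finset.2 ⟨b, hb, by simp⟩⟩⟩
  have hI2 : (A ∩ B').card < B'.card := by
    refine Finset.card_lt_card ⟨Finset.inter_subset_right, fun h => hab ?_⟩
    have := (Finset.mem_inter.1 (h (Finset.mem_vadd_finset.2 ⟨b', hb', rfl⟩))).1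
    rwa [vadd_eq_add, show a - b + b' = b' - b + a by abel] at this
  have hUI := Finset.card_union_add_card_inter A B'
  have hIU : (A ∩ B').card ≤ (A ∪ B').card :=
    Finset.card_le_card (Finset.inter_subset_left.trans Finset.subset_union_left)
  rw [hsum, ← hc]
  rcases le_or_gt t (A ∩ B').card with h | h
  · have h1 := ih _ (by omega) (A ∪ B') (A ∩ B') t rfl (by omega) h (by omega)
    have h2 : ∑ x, min t (rep (A ∪ B') (A ∩ B') x) ≤ ∑ x, min t (rep A B' x) :=
      Finset.sum_le_sum fun x _ => by rw [rep_split A B' x]; omega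
    rw [hUI] at h1
    omega
  · obtain ⟨s, rfl⟩ : ∃ s, t = s + (A ∩ B').card := ⟨t - (A ∩ B').card, by omega⟩
    have e1 := Finset.card_sdiff_add_card_inter A B'
    have e2 := Finset.card_sdiff_add_card_inter B' A
    rw [Finset.inter_comm B' A] at e2
    have h1 := ih _ (by omega) (A \ B') (B' \ A) s rfl (by omega) (by omega) (by omega)
    have h2 : ∑ x, (rep (A ∪ B') (A ∩ B') x + min s (rep (A \ B') (B' \ A) x)) ≤
        ∑ x, min (s + (A ∩ B').card) (rep A B' x) :=
      Finset.sum_le_sum fun x _ => by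
        have := rep_le (A ∪ B') (A ∩ B') x
        rw [rep_split A B' x]; omega
    rw [Finset.sum_add_distrib, sum_rep] at h2
    have e3 : (A ∪ B').card = (A \ B').card + (B' \ A).card + (A ∩ B').card := by omega
    rw [e3] at h2
    rw [← e1, ← e2]
    nlinarith [Nat.zero_le ((A ∩ B').card * D)]

/-- Sums with at least `u` representations. -/
def pop (A B : Finset G) (u : ℕ) : Finset G := univ.filter (fun x => u ≤ rep A B x)

lemma pop_card {D t u w : ℕ} (hD : ∀ K : AddSubgroup G, K ≠ ⊤ → (fs K).card ≤ D) (ht : 0 < t)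
    (hu : u ≤ t) (hw : u * Fintype.card G ≤ t * w) {A B : Finset G} (hA : t ≤ A.card)
    (hB : t ≤ B.card) : Fintype.card G ≤ (pop A B u).card ∨
      A.card + B.card ≤ (pop A B u).card + (t + D + w) := by
  by_cases h : A.card + B.card ≤ Fintype.card G + t + D
  · right
    have h1 := pollard hD _ A B t rfl hA hB h
    have h2 : ∑ x, min t (rep A B x) ≤ ∑ x : G, ((if u ≤ rep A B x then t else 0) + u) :=
      Finset.sum_le_sum fun x _ => by split_ifs <;> omega
    rw [Finset.sum_add_distrib, ← Finset.sum_filter, Finset.sum_const, Finset.sum_const,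
      smul_eq_mul, smul_eq_mul, Finset.card_univ] at h2
    refine le_of_mul_le_mul_left ?_ ht
    unfold pop
    nlinarith
  · left
    rw [← Finset.card_univ]
    apply Finset.card_le_card
    intro x _
    have := le_rep A B x
    simp only [pop, Finset.mem_filter, Finset.mem_univ, true_and]
    omega

section

variable {H : Type*} [AddCommGroup H] [DecidableEq H]

/-- The fibre of `S ⊆ H × G` over `h`. -/
def fib (S : Finset (H × G)) (h : H) : Finset G := univ.filter (fun z => (h, z) ∈ S)

/-- Iterated popular sumsets. -/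
def popSeq (A : ℕ → Finset G) (u : ℕ) : ℕ → Finset G
  | 0 => A 0
  | j + 1 => pop (popSeq A u j) (A (j + 1)) u

lemma popSeq_rep (h2 : ∀ y : G, y + y = 0 → y = 0) (S : Finset (H × G)) (h : ℕ → H) (k : ℕ) :
    ∀ (j : ℕ) (x : G) (F : Finset G), x ∈ popSeq (fun i => fib S (h i)) (2 * k) j →
      F.card + j + 1 ≤ k → (j = 0 → x ∉ F) →
      ∃ E ⊆ S, E.card = j + 1 ∧ (∀ d ∈ E, d.2 ∉ F) ∧ (∀ d ∈ E, ∃ i ≤ j, d.1 = h i) ∧
        ∑ d ∈ E, d = (∑ i ∈ range (j + 1), h i, x) := by
  intro j
  induction j with
  | zero =>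
    intro x F hx _ hF
    refine ⟨{(h 0, x)}, ?_, by simp, by simpa using hF rfl, by simp, by simp⟩
    simpa [popSeq, fib] using hx
  | succ j ih =>
    intro x F hx hk _
    simp only [popSeq, pop, Finset.mem_filter, Finset.mem_univ, true_and, rep] at hx
    have hb : (F ∪ F.image (fun f => x - f) ∪ univ.filter (fun y => y + y = x)).card < 2 * k := by
      have e1 := Finset.card_union_le (F ∪ F.image (fun f => x - f))
        (univ.filter (fun y => y + y = x))
      have e2 := Finset.card_union_le F (F.image (fun f => x - f))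
      have e3 : (F.image (fun f => x - f)).card ≤ F.card := Finset.card_image_le
      have e4 : (univ.filter (fun y : G => y + y = x)).card ≤ 1 := by
        rw [Finset.card_le_one]
        intro a ha b hb
        rw [Finset.mem_filter] at ha hb
        rw [← sub_eq_zero]
        apply h2
        rw [show a - b + (a - b) = a + a - (b + b) by abel, ha.2, hb.2, sub_self]
      omega
    obtain ⟨y, hy, hy'⟩ := Finset.exists_mem_notMem_of_card_lt_card (hb.trans_le hx)
    simp only [Finset.mem_filter, Finset.mem_union, Finset.mem_image, Finset.mem_univ, true_and,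
      not_or, not_exists, not_and, fib] at hy hy'
    obtain ⟨⟨y1, y2⟩, y3⟩ := hy'
    have hc := Finset.card_insert_le (x - y) F
    obtain ⟨E, hE1, hE2, hE3, hE4, hE5⟩ := ih y (insert (x - y) F) hy.1 (by omega) (fun _ => by
      rw [Finset.mem_insert, not_or]
      exact ⟨fun h3 => y3 (by rw [eq_sub_iff_add_eq] at h3; exact h3), y1⟩)
    have hn : (h (j + 1), x - y) ∉ E := fun h3 => hE3 _ h3 (Finset.mem_insert_self _ _)
    refine ⟨insert (h (j + 1), x - y) E, Finset.insert_subset hy.2 hE1,
      by rw [Finset.card_insert_of_notMem hn, hE2], ?_, ?_, ?_⟩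
    · intro d hd
      rcases Finset.mem_insert.1 hd with rfl | hd
      · exact fun h3 => y2 _ h3 (by simp)
      · exact fun h3 => hE3 d hd (Finset.mem_insert_of_mem h3)
    · intro d hd
      rcases Finset.mem_insert.1 hd with rfl | hd
      · exact ⟨j + 1, le_rfl, rfl⟩
      · obtain ⟨i, hi, h3⟩ := hE4 d hd
        exact ⟨i, by omega, h3⟩
    · rw [Finset.sum_insert hn, hE5, Finset.sum_range_succ _ (j + 1)]
      simp [add_comm]

lemma popSeq_card {D t u w : ℕ} (hD : ∀ K : AddSubgroup G, K ≠ ⊤ → (fs K).card ≤ D) (ht : 0 < t)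
    (hu : u ≤ t) (hw : u * Fintype.card G ≤ t * w) (A : ℕ → Finset G) (j : ℕ)
    (hA : ∀ i ≤ j, t + D + w ≤ (A i).card) :
    Fintype.card G ≤ (popSeq A u j).card + w ∨
      ∑ i ∈ range (j + 1), (A i).card ≤ (popSeq A u j).card + j * (t + D + w) := by
  induction j with
  | zero => right; simp [popSeq]
  | succ j ih =>
    have h1 := ih (fun i hi => hA i (by omega))
    have h2 : (j + 1) * (t + D + w) ≤ ∑ i ∈ range (j + 1), (A i).card := by
      have := Finset.card_nsmul_le_sum (range (j + 1)) (fun i => (A i).card) (t + D + w)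
        (fun i hi => hA i (by have := Finset.mem_range.1 hi; omega))
      simpa using this
    have h3 := hA (j + 1) le_rfl
    have h4 : (A (j + 1)).card ≤ Fintype.card G := Finset.card_le_univ _
    rw [add_mul, one_mul] at h2 ⊢
    have h5 := pop_card hD ht hu hw (A := popSeq A u j) (B := A (j + 1)) (by omega) (by omega)
    rw [Finset.sum_range_succ _ (j + 1)]
    simp only [popSeq]
    omega

theorem exists_distinct_sum (h2 : ∀ y : G, y + y = 0 → y = 0) {D t w j : ℕ}
    (hD : ∀ K : AddSubgroup G, K ≠ ⊤ → (fs K).card ≤ D) (hu : 2 * (j + 2) ≤ t)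
    (hw : 2 * (j + 2) * Fintype.card G ≤ t * w) (S : Finset (H × G)) (h : ℕ → H)
    (hA : ∀ i ≤ j + 1, t + D + w ≤ (fib S (h i)).card)
    (hsum : Fintype.card G + (j + 2) * (t + D + w) ≤
      ∑ i ∈ range (j + 2), (fib S (h i)).card + 1) (x : G) :
    ∃ E ⊆ S, E.card = j + 2 ∧ (∀ d ∈ E, ∃ i ≤ j + 1, d.1 = h i) ∧
      ∑ d ∈ E, d = (∑ i ∈ range (j + 2), h i, x) := by
  have h1 := popSeq_card hD (by omega) hu hw (fun i => fib S (h i)) j
    (fun i hi => hA i (by omega))
  have h3 := hA (j + 1) le_rfl
  have h4 := le_rep (popSeq (fun i => fib S (h i)) (2 * (j + 2)) j) (fib S (h (j + 1))) x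
  rw [Finset.sum_range_succ _ (j + 1), add_mul] at hsum
  obtain ⟨E, e1, e2, -, e4, e5⟩ := popSeq_rep h2 S h (j + 2) (j + 1) x ∅
    (by simp only [popSeq, pop, Finset.mem_filter, Finset.mem_univ, true_and]; omega)
    (by simp) (by simp)
  exact ⟨E, e1, e2, e4, e5⟩

end

end Pool.Agent.MP_f9a021_co

end
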